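import Mathlib
import Pool.Agent.MP_c853c5_nt.SDefs

set_option autoImplicit false

namespace Pool.Agent.MP_c853c5_nt

open Polynomial Finset Pool.Agent.MP_4fffd4_nt
open scoped BigOperators

variable {F : Type*} [Field F] [Fintype F]

omit [Fintype F] in
theorem SFour.degree_mul_lt {a b : F[X]} {m n : ℕ} (ha : a.degree < m) (hb : b.degree < n) :
    (a * b).degree < (m + n - 1 : ℕ) := by
  by_cases h1 : a = 0
  · rw [h1, zero_mul, degree_zero]; exact WithBot.bot_lt_coe _
  by_cases h2 : b = 0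
  · rw [h2, mul_zero, degree_zero]; exact WithBot.bot_lt_coe _
  have h3 := (natDegree_lt_iff_degree_lt h1).2 ha
  have h4 := (natDegree_lt_iff_degree_lt h2).2 hb
  rw [← natDegree_lt_iff_degree_lt (mul_ne_zero h1 h2), natDegree_mul h1 h2]
  omega

theorem expect_chr {e : F → ℝ} (he : Chr e) {l k : ℕ} {u : F[X]} (hu : u.degree < (l + k : ℕ)) :
    𝔼 y : degreeLT F k, e ((y.1 * u).coeff (l + k - 1)) = ind (u.degree < l) := by
  by_cases h : u.degree < l
  · rw [ind_pos h]
    have : ∀ y : degreeLT F k, e ((y.1 * u).coeff (l + k - 1)) = 1 := fun y => by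
      rw [coeff_eq_zero_of_degree_lt (add_comm k l ▸ SFour.degree_mul_lt (mem_degreeLT.1 y.2) h),
        he.toSgn.zero]
    simp only [this, Fintype.expect_const]
  · rw [ind_neg h]
    have h0 : u ≠ 0 := fun e => h (by rw [e, degree_zero]; exact WithBot.bot_lt_coe _)
    have h1 := (natDegree_lt_iff_degree_lt h0).2 hu
    have h2 := mt (natDegree_lt_iff_degree_lt h0).1 h
    obtain ⟨c, hc⟩ := he.neg
    refine (he.toSgn.comp (fun y : degreeLT F k => (y.1 * u).coeff (l + k - 1)) fun a b => by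
      rw [Submodule.coe_add, add_mul, coeff_add]).expect_eq_zero
      (a := ⟨C (c / u.leadingCoeff) * X ^ (l + k - 1 - u.natDegree), mem_degreeLT.2
        ((degree_C_mul_X_pow_le _ _).trans_lt (by exact_mod_cast (by omega)))⟩) ?_
    rw [mul_assoc, coeff_C_mul, coeff_X_pow_mul', if_pos (by omega),
      show l + k - 1 - (l + k - 1 - u.natDegree) = u.natDegree by omega, coeff_natDegree,
      div_mul_cancel₀ _ (leadingCoeff_ne_zero.2 h0), hc]
    norm_num

theorem card_ann [CharP F 2] {G : F[X]} (hG : G.Monic) {k t₁ t₂ : ℕ} (h : t₂ ≤ k) :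
    ∑ y : degreeLT F k, ind (∀ t, t₁ ≤ t → t < t₂ →
      (y.1 ^ 2 * G).coeff (2 * t + G.natDegree) = 0) ≤
      (Fintype.card F : ℝ) ^ k / (Fintype.card F : ℝ) ^ (t₂ - t₁) := by
  have hq := card_pos' (F := F)
  have h1 := sum_ind_le (α := degreeLT F k × degreeLT F (t₂ - t₁))
    (P := fun p => ∀ t, t₁ ≤ t → t < t₂ → (p.1.1 ^ 2 * G).coeff (2 * t + G.natDegree) = 0)
    (ltF F k) (fun p => p.1.1 + X ^ t₁ * p.2.1) ?_ ?_
  · rw [Fintype.sum_prod_type, card_ltF] at h1
    simp only [Finset.sum_const, card_univ, card_degreeLT, nsmul_eq_mul, ← Finset.mul_sum] at h1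
    rw [le_div_iff₀ (by positivity), mul_comm]
    exact_mod_cast h1
  · rintro ⟨y, z⟩ ⟨y', z'⟩ hy hy' e
    dsimp only at hy hy' e
    have e1 : y.1 + y'.1 = X ^ t₁ * (z.1 + z'.1) := by
      have h2 : (2 : F[X]) = 0 := by exact_mod_cast CharP.cast_eq_zero F[X] 2
      linear_combination e + (y'.1 - X ^ t₁ * z.1) * h2
    have e2 : z.1 + z'.1 = 0 := by
      by_contra h0
      have h2 := (natDegree_lt_iff_degree_lt h0).2 (mem_degreeLT.1 (z + z').2)
      have h3 : (y.1 + y'.1).natDegree = t₁ + (z.1 + z'.1).natDegree := by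
        rw [e1, (monic_X_pow _).natDegree_mul' h0, natDegree_X_pow]
      have h4 : ((y.1 + y'.1) ^ 2 * G).coeff (2 * (y.1 + y'.1).natDegree + G.natDegree) = 0 := by
        rw [CharTwo.add_sq, add_mul, coeff_add, hy _ (by omega) (by omega),
          hy' _ (by omega) (by omega), add_zero]
      rw [← natDegree_pow, coeff_mul_degree_add_degree, hG.leadingCoeff, mul_one, leadingCoeff_pow,
        pow_eq_zero_iff two_ne_zero, leadingCoeff_eq_zero, e1] at h4
      exact mul_ne_zero (monic_X_pow _).ne_zero h0 h4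
    rw [e2, mul_zero] at e1
    exact Prod.ext (Subtype.ext (CharTwo.add_eq_zero.1 e1)) (Subtype.ext (CharTwo.add_eq_zero.1 e2))
  · rintro ⟨y, z⟩ -
    rw [mem_ltF]
    refine (degree_add_le _ _).trans_lt (max_lt (mem_degreeLT.1 y.2) ?_)
    by_cases h0 : z.1 = 0
    · rw [h0, mul_zero, degree_zero]; exact WithBot.bot_lt_coe _
    have h2 := (natDegree_lt_iff_degree_lt h0).2 (mem_degreeLT.1 z.2)
    rw [← natDegree_lt_iff_degree_lt (mul_ne_zero (monic_X_pow _).ne_zero h0),
      (monic_X_pow _).natDegree_mul' h0, natDegree_X_pow]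
    omega

theorem chr_od [CharP F 2] {e : F → ℝ} (he : Chr e) (y u : F[X]) (s : ℕ) :
    e ((y * od u).coeff s) = e ((y ^ 2 * u).coeff (2 * s + 1)) := by
  rw [← he.sq, ← od_sq_mul, coeff_od]

namespace SFour

omit [Fintype F]

/-- The coefficient of `1 / X` in `a / b`. -/
noncomputable def res (a b : F[X]) : F := (a %ₘ b).coeff (b.natDegree - 1)

theorem res_add (a a' b : F[X]) : res (a + a') b = res a b + res a' b := by
  rw [res, add_modByMonic, coeff_add]; rfl

theorem res_of_lt {a b : F[X]} (hb : b.Monic) (h : a.degree < b.degree) :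
    res a b = a.coeff (b.natDegree - 1) := by
  rw [res, (modByMonic_eq_self_iff hb).2 h]

theorem res_congr {a a' b : F[X]} (hb : b.Monic) (h : b ∣ a - a') : res a b = res a' b := by
  rw [res, res, modByMonic_eq_of_dvd_sub hb h]

theorem res_mul (a : F[X]) {b g : F[X]} (hb : b.Monic) (hg : g.Monic) :
    res (a * g) (b * g) = res a b := by
  have h1 := degree_modByMonic_lt a hb
  rw [res_congr (a' := a %ₘ b * g) (hb.mul hg) ⟨a /ₘ b, by
    linear_combination -g * modByMonic_add_div a b⟩, res_of_lt (hb.mul hg) (by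
      rw [degree_mul, degree_mul]
      exact WithBot.add_lt_add_right (degree_ne_bot.2 hg.ne_zero) h1), res]
  by_cases h0 : b.natDegree = 0
  · have : a %ₘ b = 0 := by rw [eq_one_of_monic_natDegree_zero hb h0, modByMonic_one]
    simp [this]
  rw [hb.natDegree_mul hg, show b.natDegree + g.natDegree - 1 = b.natDegree - 1 + g.natDegree by
    omega, coeff_mul_add_eq_of_natDegree_le _ le_rfl, hg.coeff_natDegree, mul_one]
  by_cases h2 : a %ₘ b = 0
  · simp [h2]
  have := natDegree_lt_natDegree h2 h1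
  omega

theorem res_eq_zero {a b : F[X]} (hb : b.Monic) (h : a.degree < (b.natDegree - 1 : ℕ)) :
    res a b = 0 := by
  rw [res_of_lt hb (h.trans_le (by
    rw [degree_eq_natDegree hb.ne_zero]; exact_mod_cast Nat.sub_le _ _)),
    coeff_eq_zero_of_degree_lt h]

theorem expect_res [Fintype F] {e : F → ℝ} (he : Chr e) (f : F[X]) {b : F[X]} (hb : b.Monic)
    {h t : ℕ} (hd : b.natDegree = h + t) :
    𝔼 a : degreeLT F t, e (res (a.1 * f) b) = ind ((f %ₘ b).degree < h) := by
  have h1 : ∀ a : F[X], res (a * f) b = res (a * (f %ₘ b)) b := fun a =>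
    res_congr hb ⟨a * (f /ₘ b), by linear_combination -a * modByMonic_add_div f b⟩
  have hu := degree_modByMonic_lt f hb
  simp only [h1]
  generalize f %ₘ b = u at hu ⊢
  by_cases h2 : u.degree < h
  · rw [ind_pos h2]
    have : ∀ a : degreeLT F t, e (res (a.1 * u) b) = 1 := fun a => by
      rw [res_eq_zero hb (by
        rw [hd, add_comm]; exact SFour.degree_mul_lt (mem_degreeLT.1 a.2) h2), he.toSgn.zero]
    simp only [this, Fintype.expect_const]
  · rw [ind_neg h2]
    have h0 : u ≠ 0 := fun e => h2 (by rw [e, degree_zero]; exact WithBot.bot_lt_coe _)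
    have h3 := natDegree_lt_natDegree h0 hu
    have h4 := mt (natDegree_lt_iff_degree_lt h0).1 h2
    obtain ⟨c, hc⟩ := he.neg
    refine (he.toSgn.comp (fun y : degreeLT F t => res (y.1 * u) b) fun a b => by
      rw [Submodule.coe_add, add_mul, res_add]).expect_eq_zero
      (a := ⟨C (c / u.leadingCoeff) * X ^ (h + t - 1 - u.natDegree), mem_degreeLT.2
        ((degree_C_mul_X_pow_le _ _).trans_lt (by exact_mod_cast (by omega)))⟩) ?_
    rw [res_of_lt hb (degree_lt_degree (natDegree_mul_le.trans_lt (by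
      have := natDegree_C_mul_X_pow_le (c / u.leadingCoeff) (h + t - 1 - u.natDegree)
      dsimp only
      omega))), hd, mul_assoc, coeff_C_mul, coeff_X_pow_mul', if_pos (by omega),
      show h + t - 1 - (h + t - 1 - u.natDegree) = u.natDegree by omega, coeff_natDegree,
      div_mul_cancel₀ _ (leadingCoeff_ne_zero.2 h0), hc]
    norm_num

theorem res_shift [CharP F 2] {β c d y : F[X]} (hc : c.Monic) (hd : d.Monic) (hy : (d + y).Monic)
    (h : (β * y ^ 3).degree < (((d + y) * c * d ^ 3).natDegree - 1 : ℕ)) :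
    res β ((d + y) * c) = res (β * d ^ 2) (c * d ^ 3) + res (β * (d * y + y ^ 2)) (c * d ^ 3) := by
  have h2 : (2 : F[X]) = 0 := by exact_mod_cast CharP.cast_eq_zero F[X] 2
  rw [← res_mul β (hy.mul hc) (hd.pow 3), show β * d ^ 3 =
    β * (d ^ 2 + (d * y + y ^ 2)) * (d + y) + β * y ^ 3 by
      linear_combination -β * (d ^ 2 * y + d * y ^ 2 + y ^ 3) * h2, res_add,
    res_eq_zero ((hy.mul hc).mul (hd.pow 3)) h, add_zero,
    show (d + y) * c * d ^ 3 = c * d ^ 3 * (d + y) by ring, res_mul _ (hc.mul (hd.pow 3)) hy,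
    mul_add, res_add]

end SFour

open SFour in
theorem long_to_sum [CharP F 2] {n h i l : ℕ} {f c : F[X]} (hf : f.Monic) (hn : f.natDegree = n)
    (hc : c.Monic) (hh : h ≤ i + c.natDegree) (hl : l ≤ i) (h3 : 3 * l + n ≤ 3 * i + h + 2) {σ : ℝ}
    (H : ∀ ψ : F[X] → F[X] → ℝ, (∀ g, Sgn (ψ g)) →
      𝔼 g : degreeLT F i, |𝔼 y : degreeLT F l, mu (X ^ i + g.1 + y.1) * ψ g.1 y.1| ≤ σ) :
    |∑ d ∈ monF F i, mu d * ind ((f %ₘ (d * c)).degree < h)| ≤ (Fintype.card F : ℝ) ^ i * σ := by
  have hq := card_pos' (F := F)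
  obtain ⟨e, he⟩ := exists_chr (F := F)
  obtain ⟨t, ht⟩ := Nat.exists_eq_add_of_le hh
  rw [sum_monF, ← div_le_iff₀' (by positivity), ← abs_of_pos (pow_pos hq i), ← abs_div,
    ← expect_LT]
  have h1 : ∀ g : degreeLT F i, ind ((f %ₘ ((X ^ i + g.1) * c)).degree < h) =
      𝔼 a : degreeLT F t, e (res (a.1 * f) ((X ^ i + g.1) * c)) := fun g =>
    (expect_res he f ((monic_add_LT g).1.mul hc) (by
      rw [(monic_add_LT g).1.natDegree_mul hc, (monic_add_LT g).2, ht])).symm
  simp only [h1, Finset.mul_expect]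
  rw [Finset.expect_comm]
  refine (Finset.abs_expect_le _ _).trans (Finset.expect_le univ_nonempty fun a _ => ?_)
  have hm : ∀ y : degreeLT F l, y.1 ∈ degreeLT F i := fun y =>
    mem_degreeLT.2 ((mem_degreeLT.1 y.2).trans_le (by exact_mod_cast hl))
  rw [expect_avg _ fun y : degreeLT F l => (⟨y.1, hm y⟩ : degreeLT F i)]
  refine (Finset.abs_expect_le _ _).trans (le_trans (Finset.expect_le_expect fun g _ => ?_)
    (H (fun g y => e (res (a.1 * f * ((X ^ i + g) * y + y ^ 2)) (c * (X ^ i + g) ^ 3)))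
      fun g => he.toSgn.comp _ fun y y' => by
        rw [← res_add, CharTwo.add_sq]; congr 1; ring))
  have h2 : ∀ y : degreeLT F l, e (res (a.1 * f) ((X ^ i + g.1 + y.1) * c)) =
      e (res (a.1 * f * (X ^ i + g.1) ^ 2) (c * (X ^ i + g.1) ^ 3)) *
      e (res (a.1 * f * ((X ^ i + g.1) * y.1 + y.1 ^ 2)) (c * (X ^ i + g.1) ^ 3)) := fun y => by
    obtain ⟨m1, m2⟩ := monic_add_LT (g + ⟨y.1, hm y⟩)
    rw [Submodule.coe_add, ← add_assoc] at m1 m2
    rw [res_shift hc (monic_add_LT g).1 m1, he.add]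
    rw [(m1.mul hc).natDegree_mul ((monic_add_LT g).1.pow 3), m1.natDegree_mul hc, m2,
      natDegree_pow, (monic_add_LT g).2]
    by_cases ha : a.1 = 0
    · rw [ha, zero_mul, zero_mul, degree_zero]; exact WithBot.bot_lt_coe _
    by_cases hy : y.1 = 0
    · rw [hy, zero_pow three_ne_zero, mul_zero, degree_zero]; exact WithBot.bot_lt_coe _
    have a1 := (natDegree_lt_iff_degree_lt ha).2 (mem_degreeLT.1 a.2)
    have a2 := (natDegree_lt_iff_degree_lt hy).2 (mem_degreeLT.1 y.2)
    rw [← natDegree_lt_iff_degree_lt (mul_ne_zero (mul_ne_zero ha hf.ne_zero) (pow_ne_zero _ hy)),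
      natDegree_mul (mul_ne_zero ha hf.ne_zero) (pow_ne_zero _ hy), natDegree_mul ha hf.ne_zero,
      natDegree_pow]
    omega
  simp only [Submodule.coe_add, ← add_assoc, h2, mul_left_comm (mu _), ← Finset.mul_expect,
    abs_mul, he.toSgn.abs_eq, one_mul, le_refl]

end Pool.Agent.MP_c853c5_nt
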