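import Mathlib
import Pool.Agent.MP_c853c5_nt.SDefs

set_option autoImplicit false

namespace Pool.Agent.MP_c853c5_nt

open Polynomial Finset Pool.Agent.MP_4fffd4_nt
open scoped BigOperators

variable {F : Type*} [Field F] [Fintype F]

variable [CharP F 2]

theorem od_surj {A B : F[X]} (hA : A.Monic) (hB : od (A * B) = 1) {l : ℕ} (hl : A.natDegree ≤ l)
    {w : F[X]} (hw : w.degree < ((l + A.natDegree) / 2 : ℕ)) :
    ∃ g : F[X], g.degree < l ∧ od (g * A) = w := by
  have key : ∀ g : F[X], od (g * A) = w → ∃ g' : F[X], g'.degree < l ∧ od (g' * A) = w := by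
    intro g
    induction g using degree_lt_wf.induction with
    | _ g ih =>
    intro hg
    by_cases hlt : g.degree < l
    · exact ⟨g, hlt, hg⟩
    have hg0 : g ≠ 0 := by
      rintro rfl
      exact hlt (by rw [degree_zero]; exact WithBot.bot_lt_coe _)
    have hD : l ≤ g.natDegree := by
      rw [degree_eq_natDegree hg0, not_lt] at hlt
      exact_mod_cast hlt
    obtain ⟨k, hk | hk⟩ := Nat.even_or_odd' (g.natDegree - A.natDegree)
    · obtain ⟨c, hc⟩ := (bijective_frobenius F 2).2 g.leadingCoeff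
      rw [frobenius_def] at hc
      have hc0 : c ^ 2 ≠ 0 := by rw [hc]; exact leadingCoeff_ne_zero.2 hg0
      have e : (C c * X ^ k) ^ 2 * A = C (c ^ 2) * (X ^ (2 * k) * A) := by
        rw [map_pow]; ring
      have hm : (X ^ (2 * k) * A : F[X]).Monic := (monic_X_pow _).mul hA
      refine ih (g - (C c * X ^ k) ^ 2 * A) (degree_sub_lt_left ?_ hg0 ?_) ?_
      · rw [e, degree_C_mul hc0, degree_eq_natDegree hg0, degree_eq_natDegree hm.ne_zero,
          (monic_X_pow _).natDegree_mul hA, natDegree_X_pow]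
        congr 1
        omega
      · rw [e, leadingCoeff_mul, leadingCoeff_C, hm.leadingCoeff, mul_one, hc]
      · rw [CharTwo.sub_eq_add, add_mul, od_add, hg, mul_assoc, ← sq, ← mul_pow, od_of_sq,
          add_zero]
    · exfalso
      have h1 := coeff_od (g * A) (A.natDegree + k)
      rw [show 2 * (A.natDegree + k) + 1 = g.natDegree + A.natDegree by omega,
        coeff_mul_degree_add_degree, hA.leadingCoeff, mul_one, hg,
        (degree_lt_iff_coeff_zero _ _).1 hw _ (by omega)] at h1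
      exact leadingCoeff_ne_zero.2 hg0 (by rw [← h1]; simp)
  exact key (w ^ 2 * B) (by rw [mul_assoc, od_sq_mul, mul_comm B, hB, mul_one])

theorem expect_od {A B : F[X]} (hA : A.Monic) (hB : od (A * B) = 1) {l : ℕ} (hl : A.natDegree ≤ l)
    (G : F[X] → ℝ) : 𝔼 g : degreeLT F l, G (od (g.1 * A)) =
      𝔼 w : degreeLT F ((l + A.natDegree) / 2), G w.1 := by
  let f : degreeLT F l →+ degreeLT F ((l + A.natDegree) / 2) :=
    { toFun := fun g => ⟨od (g.1 * A), mem_degreeLT.2 (degree_od_lt (by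
        rw [mul_comm]
        exact mem_degreeLT.1 (mul_mem_degreeLT (Q := A) (le_of_eq (add_comm _ _)) g)))⟩
      map_zero' := Subtype.ext (by simp [od_zero])
      map_add' := fun a b => Subtype.ext (by simp [add_mul, od_add]) }
  refine expect_surj f (fun w => ?_) fun w => G w.1
  obtain ⟨g, h1, h2⟩ := od_surj hA hB hl (mem_degreeLT.1 w.2)
  exact ⟨⟨g, mem_degreeLT.2 h1⟩, Subtype.ext h2⟩

theorem exists_comp {A : F[X]} (hA : A.Monic) (hi : Irreducible A) :
    ∃ B : F[X], B.degree < A.degree ∧ od (B * A) = 1 := by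
  have h2 : (2 : F[X]) = 0 := by exact_mod_cast CharP.cast_eq_zero F[X] 2
  have hs : IsCoprime A (derivative A) := PerfectField.separable_of_irreducible hi
  obtain ⟨s, hσ⟩ := exists_od A
  rw [← od_sq] at hs
  obtain ⟨u, v, huv⟩ : IsCoprime s (od A) := by
    have h1 : IsCoprime (s ^ 2 + od A * (X * od A)) (od A) := by
      rw [show s ^ 2 + od A * (X * od A) = A by linear_combination -hσ]
      exact (IsCoprime.pow_right_iff two_pos).1 hs
    exact (IsCoprime.pow_left_iff two_pos).1 h1.of_add_mul_left_left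
  have hB : od (A * (v ^ 2 + X * u ^ 2)) = 1 := by
    refine od_eq ?_
    rw [derivative_mul, derivative_odd, ← od_sq, ← huv]
    linear_combination u ^ 2 * hσ + (X * u ^ 2 * od A ^ 2 - u * s * v * od A) * h2
  have hpos := hi.natDegree_pos
  obtain ⟨g, h1, h3⟩ := od_surj hA hB le_rfl (w := 1) (by
    rw [degree_one]
    exact_mod_cast (by omega))
  exact ⟨g, by rwa [degree_eq_natDegree hA.ne_zero], h3⟩

theorem eq_zero_of_od {A B g : F[X]} (hB : od (A * B) = 1) (hg : g.degree < A.degree)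
    (h : od (g * A) = 0) : g = 0 := by
  have h1 := od_sq (A * B)
  have h2 := od_sq (g * A)
  rw [hB, derivative_mul] at h1
  rw [h, derivative_mul] at h2
  have h3 : IsCoprime A (derivative A) := ⟨derivative B, B, by linear_combination -h1⟩
  exact eq_zero_of_dvd_of_degree_lt
    (h3.dvd_of_dvd_mul_right ⟨-derivative g, by linear_combination -h2⟩) hg

namespace SBox

theorem abs_le_sq {x θ : ℝ} (hθ : 0 < θ) : |x| ≤ θ + x ^ 2 / θ := by
  rw [← sq_abs, ← sub_le_iff_le_add', le_div_iff₀ hθ]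
  nlinarith [sq_nonneg (|x| - θ), abs_nonneg x]

theorem expect_diag {Y : Type*} [Fintype Y] [Nonempty Y] :
    𝔼 y : Y, 𝔼 y' : Y, ind (y = y') = 1 / Fintype.card Y := by
  classical
  have : ∀ y : Y, 𝔼 y' : Y, ind (y = y') = 1 / Fintype.card Y := by
    intro y
    rw [Fintype.expect_eq_sum_div_card, Finset.sum_eq_single_of_mem y (mem_univ y)
      fun y' _ h => ind_neg (Ne.symm h), ind_pos rfl]
  simp only [this, Fintype.expect_const]

omit [Fintype F] [CharP F 2] in
theorem sq_mul_mem {A : F[X]} {l L : ℕ} (hl : A.natDegree + 2 * L ≤ l) (x : degreeLT F L) :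
    x.1 ^ 2 * A ∈ degreeLT F l := by
  rw [mem_degreeLT]
  by_cases hx : (x : F[X]) = 0
  · rw [hx, zero_pow two_ne_zero, zero_mul, degree_zero]; exact WithBot.bot_lt_coe _
  have h1 := (natDegree_lt_iff_degree_lt hx).2 (mem_degreeLT.1 x.2)
  refine degree_le_natDegree.trans_lt ?_
  have h2 := natDegree_mul_le (p := x.1 ^ 2) (q := A)
  have h3 := natDegree_pow_le (p := x.1) (n := 2)
  exact_mod_cast (by omega)

theorem cross {A A' B' : F[X]} (hA' : A'.Monic) (hB' : od (A' * B') = 1) {l L : ℕ}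
    (hl : A.natDegree + 2 * L ≤ l) (hl' : A'.natDegree ≤ l) (w : F[X] → ℝ)
    (hw : ∀ W, 0 ≤ w W ∧ w W ≤ 1) {ρ : ℝ} (hρ : 0 ≤ ρ) (hρ' : ρ ≤ 1) (F₀ : F[X]) :
    𝔼 g : degreeLT F l, (w (od ((F₀ + g.1) * A)) - ρ) * (w (od ((F₀ + g.1) * A')) - ρ) ≤
      𝔼 z : degreeLT F ((l + A'.natDegree) / 2),
        |𝔼 x : degreeLT F L, w (od (F₀ * A') + z.1 + od (A * A') * x.1) - ρ| := by
  rw [← expect_od hA' hB' hl' fun z =>
      |𝔼 x : degreeLT F L, w (od (F₀ * A') + z + od (A * A') * x.1) - ρ|,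
    expect_avg _ fun x : degreeLT F L => (⟨x.1 ^ 2 * A, sq_mul_mem hl x⟩ : degreeLT F l)]
  refine Finset.expect_le_expect fun g _ => ?_
  have e1 : ∀ x : F[X], od ((F₀ + (g.1 + x ^ 2 * A)) * A) = od ((F₀ + g.1) * A) := fun x => by
    rw [← add_assoc, add_mul, od_add, mul_assoc, ← sq, ← mul_pow, od_of_sq, add_zero]
  have e2 : ∀ x : F[X], od ((F₀ + (g.1 + x ^ 2 * A)) * A') =
      od (F₀ * A') + od (g.1 * A') + od (A * A') * x := fun x => by
    rw [← add_assoc, add_mul, add_mul, od_add, od_add, mul_assoc, od_sq_mul, mul_comm x]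
  simp only [Submodule.coe_add, e1, e2]
  rw [← Finset.mul_expect, Finset.expect_sub_distrib, Fintype.expect_const]
  refine (le_abs_self _).trans ?_
  rw [abs_mul]
  refine mul_le_of_le_one_left (abs_nonneg _) (abs_le.2 ?_)
  obtain ⟨h1, h2⟩ := hw (od ((F₀ + g.1) * A))
  constructor <;> linarith

end SBox

theorem box {Y : Type*} [Fintype Y] [Nonempty Y] (A B : Y → F[X]) (Δ : Y → Y → F[X]) {a l L : ℕ}
    (hA : ∀ y, (A y).Monic ∧ (A y).natDegree = a ∧ od (A y * B y) = 1)
    (hΔ : ∀ y y', od (A y * A y') = Δ y y') (hl : a + 2 * L ≤ l) (φ w : F[X] → ℝ)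
    (hφ : ∀ g, |φ g| ≤ 1) (hw : ∀ W, 0 ≤ w W ∧ w W ≤ 1) {ρ ε θ : ℝ} (hρ : 0 ≤ ρ) (hρ' : ρ ≤ 1)
    (hθ : 0 < θ) (F₀ : F[X])
    (hline : ∀ y, |𝔼 g : degreeLT F l, φ g.1 * w (od ((F₀ + g.1) * A y))| ≤ ε) :
    ρ * |𝔼 g : degreeLT F l, φ g.1| ≤ ε + θ + (1 / Fintype.card Y + 𝔼 y, 𝔼 y', ind (y ≠ y') *
      𝔼 z : degreeLT F ((l + a) / 2),
        |𝔼 x : degreeLT F L, w (od (F₀ * A y') + z.1 + Δ y y' * x.1) - ρ|) / θ := by
  set W : Y → degreeLT F l → ℝ := fun y g => w (od ((F₀ + g.1) * A y)) with hW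
  have h1 : ρ * 𝔼 g : degreeLT F l, φ g.1 = 𝔼 y, 𝔼 g : degreeLT F l, φ g.1 * W y g +
      𝔼 g : degreeLT F l, φ g.1 * (ρ - 𝔼 y, W y g) := by
    rw [Finset.expect_comm, ← Finset.expect_add_distrib, Finset.mul_expect]
    refine Finset.expect_congr rfl fun g _ => ?_
    rw [← Finset.mul_expect]
    ring
  have h2 : |𝔼 y, 𝔼 g : degreeLT F l, φ g.1 * W y g| ≤ ε :=
    (Finset.abs_expect_le _ _).trans (Finset.expect_le univ_nonempty fun y _ => hline y)
  have h3 : |𝔼 g : degreeLT F l, φ g.1 * (ρ - 𝔼 y, W y g)| ≤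
      θ + (𝔼 g : degreeLT F l, (𝔼 y, (W y g - ρ)) ^ 2) / θ := by
    refine (Finset.abs_expect_le _ _).trans ((Finset.expect_le_expect
      (g := fun g => θ + (𝔼 y, (W y g - ρ)) ^ 2 / θ) fun g _ => ?_).trans_eq ?_)
    · rw [abs_mul, Finset.expect_sub_distrib, Fintype.expect_const, abs_sub_comm]
      exact (mul_le_of_le_one_left (abs_nonneg _) (hφ _)).trans (SBox.abs_le_sq hθ)
    · rw [Finset.expect_add_distrib, Fintype.expect_const, Finset.expect_div]
  have h4 : 𝔼 g : degreeLT F l, (𝔼 y, (W y g - ρ)) ^ 2 ≤ 1 / Fintype.card Y +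
      𝔼 y, 𝔼 y', ind (y ≠ y') * 𝔼 z : degreeLT F ((l + a) / 2),
        |𝔼 x : degreeLT F L, w (od (F₀ * A y') + z.1 + Δ y y' * x.1) - ρ| := by
    simp only [sq, Fintype.expect_mul_expect]
    rw [Finset.expect_comm, ← SBox.expect_diag, ← Finset.expect_add_distrib]
    refine Finset.expect_le_expect fun y _ => ?_
    rw [Finset.expect_comm, ← Finset.expect_add_distrib]
    refine Finset.expect_le_expect fun y' _ => ?_
    by_cases e : y = y'
    · rw [ind_pos e, ind_neg (not_not.2 e), zero_mul, add_zero]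
      refine Finset.expect_le univ_nonempty fun g _ => ?_
      obtain ⟨h5, h6⟩ := hw (od ((F₀ + g.1) * A y))
      obtain ⟨h7, h8⟩ := hw (od ((F₀ + g.1) * A y'))
      refine (le_abs_self _).trans ?_
      rw [abs_mul]
      exact mul_le_one₀ (abs_le.2 ⟨by simp only [hW]; linarith, by simp only [hW]; linarith⟩)
        (abs_nonneg _) (abs_le.2 ⟨by simp only [hW]; linarith, by simp only [hW]; linarith⟩)
    · rw [ind_neg e, ind_pos e, one_mul, zero_add, ← hΔ, ← (hA y').2.1]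
      exact SBox.cross (hA y').1 (hA y').2.2 (by rw [(hA y).2.1]; exact hl)
        (by rw [(hA y').2.1]; omega) w hw hρ hρ' F₀
  rw [← abs_of_nonneg hρ, ← abs_mul, abs_of_nonneg hρ, h1, add_assoc]
  refine (abs_add_le _ _).trans (add_le_add h2 (h3.trans ?_))
  gcongr

end Pool.Agent.MP_c853c5_nt
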