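import Mathlib
import Pool.Agent.MP_c853c5_nt.SFour

set_option autoImplicit false

namespace Pool.Agent.MP_c853c5_nt

open Polynomial Finset Pool.Agent.MP_4fffd4_nt
open scoped BigOperators

variable {F : Type*} [Field F] [Fintype F]

namespace SEquiA

theorem sum_LT (n : ℕ) (G : F[X] → ℝ) : ∑ g ∈ ltF F n, G g = ∑ y : degreeLT F n, G y.1 :=
  Finset.sum_map _ _ _

theorem sum_ind_LT {l N : ℕ} (h : l ≤ N) (G : F[X] → ℝ) :
    ∑ W : degreeLT F N, G W.1 * ind (W.1.degree < l) = ∑ z : degreeLT F l, G z.1 := by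
  rw [← sum_LT N fun W => G W * ind (W.degree < l), ← sum_LT l G]
  refine (Finset.sum_subset (s₁ := ltF F l) (fun g hg => mem_ltF.2 ((mem_ltF.1 hg).trans_le
    (by exact_mod_cast h))) fun g _ hg => ?_).symm.trans (Finset.sum_congr rfl fun g hg => ?_)
  · rw [ind_neg fun h' => hg (mem_ltF.2 h'), mul_zero]
  · rw [ind_pos (mem_ltF.1 hg), mul_one]

theorem expand [CharP F 2] {e : F → ℝ} (he : Chr e) (l k : ℕ) (v : F[X] → ℝ)
    (w : degreeLT F (l + k)) :
    𝔼 z : degreeLT F l, v (w.1 + z.1) = 𝔼 W : degreeLT F (l + k), v W.1 *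
      ∑ y : degreeLT F k, e ((y.1 * W.1).coeff (l + k - 1)) * e ((y.1 * w.1).coeff (l + k - 1)) := by
  have hq := card_pos' (F := F)
  have h1 : ∀ W : degreeLT F (l + k), ∑ y : degreeLT F k, e ((y.1 * W.1).coeff (l + k - 1)) *
      e ((y.1 * w.1).coeff (l + k - 1)) =
      (Fintype.card F : ℝ) ^ k * ind ((W + w).1.degree < l) := by
    intro W
    rw [← expect_chr he (mem_degreeLT.1 (W + w).2), expect_LT, mul_div_cancel₀ _ (by positivity)]
    refine Finset.sum_congr rfl fun y _ => ?_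
    rw [← he.add, ← coeff_add, ← mul_add, Submodule.coe_add]
  simp only [h1]
  rw [← expect_shift (fun W : degreeLT F (l + k) =>
    v W.1 * ((Fintype.card F : ℝ) ^ k * ind ((W + w).1.degree < l))) w]
  simp only [Submodule.coe_add, add_assoc, CharTwo.add_self_eq_zero, add_zero]
  rw [expect_LT, expect_LT, ← sum_ind_LT (Nat.le_add_right l k) fun z => v (w.1 + z), pow_add,
    div_eq_div_iff (by positivity) (by positivity), Finset.sum_mul, Finset.sum_mul]
  refine Finset.sum_congr rfl fun W _ => ?_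
  rw [add_comm W.1]
  ring

theorem parseval [CharP F 2] {e : F → ℝ} (he : Chr e) {k N : ℕ} (h : k ≤ N)
    (φ : degreeLT F k → ℝ) :
    𝔼 W : degreeLT F N, (∑ y : degreeLT F k, e ((y.1 * W.1).coeff (N - 1)) * φ y) ^ 2 =
      ∑ y, φ y ^ 2 := by
  classical
  have h1 : ∀ y y' : degreeLT F k, 𝔼 W : degreeLT F N, e ((y.1 * W.1).coeff (N - 1)) *
      e ((y'.1 * W.1).coeff (N - 1)) = if y = y' then 1 else 0 := by
    intro y y'
    have h2 := expect_chr he (l := 0) (k := N) (u := y.1 + y'.1)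
      ((mem_degreeLT.1 (y + y').2).trans_le (by exact_mod_cast by omega))
    simp only [zero_add, mul_add, coeff_add, he.add, mul_comm _ y.1, mul_comm _ y'.1] at h2
    rw [h2]
    split_ifs with h3
    · exact ind_pos (by simp [h3, CharTwo.add_self_eq_zero])
    · refine ind_neg fun h4 => h3 (Subtype.ext ?_)
      rw [Nat.cast_zero, Nat.WithBot.lt_zero_iff, degree_eq_bot] at h4
      exact CharTwo.add_eq_zero.1 h4
  simp only [sq, Finset.sum_mul_sum, Finset.expect_sum_comm]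
  refine Finset.sum_congr rfl fun y _ => ?_
  have h5 : ∀ y' : degreeLT F k, 𝔼 W : degreeLT F N, e ((y.1 * W.1).coeff (N - 1)) * φ y *
      (e ((y'.1 * W.1).coeff (N - 1)) * φ y') = if y = y' then φ y * φ y' else 0 := by
    intro y'
    simp only [mul_mul_mul_comm _ (φ y), ← Finset.expect_mul, h1]
    split_ifs <;> simp
  simp [h5]

/-- The coefficients of `y ^ 2 * G` just below `2 * N` vanish. -/
def Ann (N a : ℕ) (G y : F[X]) : Prop :=
  ∀ p, 2 * N - a ≤ p → p < 2 * N → (y ^ 2 * G).coeff p = 0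

theorem abs_expect_le_ann [CharP F 2] {e : F → ℝ} (he : Chr e) (N a : ℕ) (G y s : F[X]) :
    |𝔼 A : degreeLT F a, e ((y * (s + od (G * (X ^ a + A.1)))).coeff (N - 1))| ≤
      ind (Ann N a G y) := by
  have h1 : Sgn fun A : degreeLT F a => e ((y * od (G * A.1)).coeff (N - 1)) :=
    he.toSgn.comp (fun A : degreeLT F a => (y * od (G * A.1)).coeff (N - 1)) fun A B => by
      simp only [Submodule.coe_add, mul_add, od_add, coeff_add]
  simp only [mul_add G, od_add, ← add_assoc s, mul_add y (s + _), coeff_add, he.add,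
    ← Finset.mul_expect]
  rw [abs_mul, he.abs_eq, one_mul, h1.expect_eq_ind, abs_of_nonneg (ind_nonneg _)]
  refine ind_mono fun h p hp hp' => he.eq_zero fun c => ?_
  have h2 := h ⟨C c * X ^ (2 * N - 1 - p), mem_degreeLT.2 ((degree_C_mul_X_pow_le _ _).trans_lt
    (by exact_mod_cast by omega))⟩
  rw [chr_od he, show 2 * (N - 1) + 1 = p + (2 * N - 1 - p) by omega] at h2
  rw [← h2]
  congr 1
  change _ = (y ^ 2 * (G * (C c * X ^ (2 * N - 1 - p)))).coeff _
  rw [show y ^ 2 * (G * (C c * X ^ (2 * N - 1 - p))) = C c * (y ^ 2 * G) * X ^ (2 * N - 1 - p) by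
    ring, coeff_mul_X_pow, coeff_C_mul]

theorem sum_ann [CharP F 2] {N a k : ℕ} {G : F[X]} (hG : G.Monic)
    (h : G.natDegree + a = 2 * N + 1) :
    ∑ y : degreeLT F k, ind (Ann N a G y.1) ≤ (Fintype.card F : ℝ) ^ (k - a / 2) := by
  have hq := card_pos' (F := F)
  refine (Finset.sum_le_sum fun y _ => ind_mono fun hy t _ ht => hy _ (by omega) ?_).trans
    ((card_ann hG (t₁ := 0) (min_le_right (a / 2) k)).trans_eq ?_)
  · have := lt_min_iff.1 ht
    omega
  · rw [div_eq_iff (by positivity), ← pow_add]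
    congr 1
    omega

omit [Fintype F] in
theorem degree_mul_lt' {p q : F[X]} {a b c : ℕ} (hp : p.natDegree ≤ a) (hq : q.degree < b)
    (h : a + b ≤ c) : (p * q).degree < c :=
  mem_degreeLT.1 (mul_mem_degreeLT (Q := p) (ρ := b) (by omega) ⟨q, mem_degreeLT.2 hq⟩)

omit [Fintype F] in
theorem exists_dvd {n j a N k : ℕ} {f M y : F[X]} (hn : f.natDegree = n)
    (hj : j ≤ n) (hN : n - j + a = 2 * N + 1) (hk : 2 * k + a ≤ 2 * N) (hM : M.Monic)
    (hMj : M.natDegree = j) (hy : y ≠ 0) (hyk : y.degree < k) (h : Ann N a (f /ₘ M) y) :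
    ∃ r : F[X], r.degree < (j - a : ℕ) ∧ (y ^ 2 * f) /ₘ X ^ (2 * N) - r ≠ 0 ∧
      ((y ^ 2 * f) /ₘ X ^ (2 * N) - r).natDegree ≤ n ∧ M ∣ (y ^ 2 * f) /ₘ X ^ (2 * N) - r := by
  have hX : (X ^ (2 * N) : F[X]).Monic := monic_X_pow _
  have hG : (f /ₘ M).natDegree = n - j := by rw [natDegree_divByMonic f hM, hn, hMj]
  have hG0 : f /ₘ M ≠ 0 := by
    rintro h0
    rw [h0, natDegree_zero] at hG
    omega
  have hρ : (f %ₘ M).degree < j := by
    have := degree_modByMonic_lt f hM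
    rwa [degree_eq_natDegree hM.ne_zero, hMj] at this
  have hf' := modByMonic_add_div f M
  generalize f /ₘ M = G at h hG hG0 hf'
  generalize f %ₘ M = ρ at hρ hf'
  have hy' : y.natDegree < k := (natDegree_lt_iff_degree_lt hy).2 hyk
  have hyG : (y ^ 2 * G).natDegree = 2 * y.natDegree + (n - j) := by
    rw [natDegree_mul (pow_ne_zero _ hy) hG0, natDegree_pow, hG]
  have hb : ((y ^ 2 * G) /ₘ X ^ (2 * N)).natDegree ≤ n - j := by
    rw [natDegree_divByMonic _ hX, natDegree_X_pow, hyG]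
    omega
  have hu := degree_modByMonic_lt (y ^ 2 * G) hX
  have hd := modByMonic_add_div (y ^ 2 * G) (X ^ (2 * N))
  generalize (y ^ 2 * G) /ₘ X ^ (2 * N) = b at hb hd
  generalize (y ^ 2 * G) %ₘ X ^ (2 * N) = u at hu hd
  have hu' : u.degree < (2 * N - a : ℕ) := by
    rw [degree_X_pow, degree_lt_iff_coeff_zero] at hu
    rw [degree_lt_iff_coeff_zero]
    intro p hp
    by_cases hp' : p < 2 * N
    · have := h p hp hp'
      rwa [← hd, coeff_add, coeff_X_pow_mul', if_neg (by omega), add_zero] at this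
    · exact hu p (by omega)
  have hb0 : b ≠ 0 := by
    rintro rfl
    rw [mul_zero, add_zero] at hd
    rw [hd, ← natDegree_lt_iff_degree_lt (mul_ne_zero (pow_ne_zero _ hy) hG0), hyG] at hu'
    omega
  have hs : (y ^ 2 * ρ + M * u).degree < (2 * N - a + j : ℕ) :=
    (degree_add_le _ _).trans_lt (max_lt
      (degree_mul_lt' (a := 2 * y.natDegree) natDegree_pow_le hρ (by omega))
      (degree_mul_lt' hMj.le hu' (by omega)))
  have he : (y ^ 2 * f) /ₘ X ^ (2 * N) - (y ^ 2 * ρ + M * u) /ₘ X ^ (2 * N) = b * M := by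
    rw [sub_eq_iff_eq_add]
    refine (div_modByMonic_unique _ ((y ^ 2 * ρ + M * u) %ₘ X ^ (2 * N)) hX
      ⟨?_, degree_modByMonic_lt _ hX⟩).1
    linear_combination y ^ 2 * hf' + M * hd + modByMonic_add_div (y ^ 2 * ρ + M * u) (X ^ (2 * N))
  refine ⟨(y ^ 2 * ρ + M * u) /ₘ X ^ (2 * N), ?_, ?_⟩
  · generalize y ^ 2 * ρ + M * u = s at hs
    by_cases h0 : s /ₘ X ^ (2 * N) = 0
    · rw [h0, degree_zero]
      exact WithBot.bot_lt_coe _
    have hs0 : s ≠ 0 := by
      rintro rfl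
      exact h0 (zero_divByMonic _)
    rw [← natDegree_lt_iff_degree_lt h0, natDegree_divByMonic _ hX, natDegree_X_pow]
    rw [divByMonic_eq_zero_iff hX, degree_X_pow, ← natDegree_lt_iff_degree_lt hs0] at h0
    rw [← natDegree_lt_iff_degree_lt hs0] at hs
    omega
  · rw [he]
    exact ⟨mul_ne_zero hb0 hM.ne_zero, natDegree_mul_le.trans (by omega), dvd_mul_left _ _⟩

theorem expect_ann {n j a N k : ℕ} {f y : F[X]} (hn : f.natDegree = n)
    (hj : j ≤ n) (hN : n - j + a = 2 * N + 1) (hk : 2 * k + a ≤ 2 * N) {τ : ℝ}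
    (hτ : ∀ Z : F[X], Z ≠ 0 → Z.natDegree ≤ n → ((divs Z).card : ℝ) ≤ τ)
    (hy : y ≠ 0) (hyk : y.degree < k) :
    𝔼 m : degreeLT F j, ind (Ann N a (f /ₘ (X ^ j + m.1)) y) ≤
      τ / (Fintype.card F : ℝ) ^ min a j := by
  have hq := card_pos' (F := F)
  have hτ0 : 0 ≤ τ := (Nat.cast_nonneg _).trans (hτ 1 one_ne_zero (by simp))
  generalize hZ : (y ^ 2 * f) /ₘ X ^ (2 * N) = Z
  have h1 : ∑ m : degreeLT F j, ind (Ann N a (f /ₘ (X ^ j + m.1)) y) ≤
      ∑ m : degreeLT F j, ∑ r ∈ ltF F (j - a),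
        ind (Z - r ≠ 0 ∧ (Z - r).natDegree ≤ n ∧ X ^ j + m.1 ∣ Z - r) := by
    refine Finset.sum_le_sum fun m _ => ind_le_sum fun h => ?_
    obtain ⟨r, h1, h2⟩ := exists_dvd hn hj hN hk (monic_add_LT m).1 (monic_add_LT m).2 hy hyk h
    exact ⟨r, mem_ltF.2 h1, hZ ▸ h2⟩
  rw [Finset.sum_comm] at h1
  have h2 := h1.trans (Finset.sum_le_card_nsmul _ _ τ fun r _ => by
    by_cases h : Z - r ≠ 0 ∧ (Z - r).natDegree ≤ n
    · refine (sum_ind_le (divs (Z - r)) (fun m : degreeLT F j => X ^ j + m.1)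
        (fun _ _ _ _ e => Subtype.ext (add_left_cancel e)) fun m hm => ?_).trans (hτ _ h.1 h.2)
      exact (mem_divs h.1).2 ⟨(monic_add_LT m).1, hm.2.2⟩
    · rw [Finset.sum_eq_zero fun m _ => ind_neg fun h' => h ⟨h'.1, h'.2.1⟩]
      exact hτ0)
  rw [expect_LT, div_le_div_iff₀ (by positivity) (by positivity)]
  refine (mul_le_mul_of_nonneg_right h2 (by positivity)).trans_eq ?_
  rw [card_ltF, nsmul_eq_mul, Nat.cast_pow, mul_right_comm, ← pow_add, mul_comm]
  congr 2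
  omega

end SEquiA

open SEquiA in
theorem equi_a [CharP F 2] {n j a N l k : ℕ} {f : F[X]} (hf : f.Monic) (hn : f.natDegree = n)
    (hj : j ≤ n) (hN : n - j + a = 2 * N + 1) (hk : l + k = N) (ha : a ≤ 2 * l) {τ : ℝ}
    (hτ : ∀ Z : F[X], Z ≠ 0 → Z.natDegree ≤ n → ((divs Z).card : ℝ) ≤ τ) (v : F[X] → ℝ) :
    (𝔼 m : degreeLT F j, 𝔼 A : degreeLT F a, 𝔼 z : degreeLT F l,
      v (od (f /ₘ (X ^ j + m.1) * (X ^ a + A.1)) + z.1)) ^ 2 ≤
      (𝔼 W : degreeLT F N, v (X ^ N + W.1) ^ 2) *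
        (1 + τ * (Fintype.card F : ℝ) ^ (k - a / 2) / (Fintype.card F : ℝ) ^ min a j) := by
  subst hk
  have hq := card_pos' (F := F)
  have hτ0 : 0 ≤ τ := (Nat.cast_nonneg _).trans (hτ 1 one_ne_zero (by simp))
  obtain ⟨e, he⟩ := exists_chr (F := F)
  have hG : ∀ m : degreeLT F j, (f /ₘ (X ^ j + m.1)).Monic ∧
      (f /ₘ (X ^ j + m.1)).natDegree = n - j := fun m => by
    obtain ⟨h1, h2⟩ := monic_add_LT m
    refine ⟨?_, by rw [natDegree_divByMonic f h1, hn, h2]⟩
    rw [Monic, leadingCoeff_divByMonic_of_monic h1 (by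
      rw [degree_eq_natDegree h1.ne_zero, degree_eq_natDegree hf.ne_zero, hn, h2]
      exact_mod_cast hj)]
    exact hf
  set φ : degreeLT F k → ℝ := fun y => 𝔼 m : degreeLT F j, 𝔼 A : degreeLT F a,
    e ((y.1 * (X ^ (l + k) + od (f /ₘ (X ^ j + m.1) * (X ^ a + A.1)))).coeff (l + k - 1)) with hφ
  have h1 : ∀ (m : degreeLT F j) (A : degreeLT F a), 𝔼 z : degreeLT F l,
      v (od (f /ₘ (X ^ j + m.1) * (X ^ a + A.1)) + z.1) =
      𝔼 W : degreeLT F (l + k), v (X ^ (l + k) + W.1) * ∑ y : degreeLT F k,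
        e ((y.1 * W.1).coeff (l + k - 1)) * e ((y.1 * (X ^ (l + k) +
          od (f /ₘ (X ^ j + m.1) * (X ^ a + A.1)))).coeff (l + k - 1)) := by
    intro m A
    obtain ⟨w, -, hw⟩ := Finset.mem_map.1 (mem_monF.2 (monic_od ((hG m).1.mul (monic_add_LT A).1)
      (N := l + k) (by rw [(hG m).1.natDegree_mul (monic_add_LT A).1, (hG m).2,
        (monic_add_LT A).2, hN])))
    have hw' : X ^ (l + k) + w.1 = od (f /ₘ (X ^ j + m.1) * (X ^ a + A.1)) := hw
    rw [← hw', ← add_assoc, CharTwo.add_self_eq_zero, zero_add,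
      ← expand he l k (fun g => v (X ^ (l + k) + g)) w]
    simp only [add_assoc]
  have h2 : 𝔼 m : degreeLT F j, 𝔼 A : degreeLT F a, 𝔼 z : degreeLT F l,
      v (od (f /ₘ (X ^ j + m.1) * (X ^ a + A.1)) + z.1) =
      𝔼 W : degreeLT F (l + k), v (X ^ (l + k) + W.1) * ∑ y : degreeLT F k,
        e ((y.1 * W.1).coeff (l + k - 1)) * φ y := by
    simp only [h1, hφ]
    rw [Finset.expect_congr rfl fun m _ => Finset.expect_comm _ _ _, Finset.expect_comm]
    simp only [← Finset.mul_expect, Finset.expect_sum_comm]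
  rw [h2]
  refine (Finset.expect_mul_sq_le_sq_mul_sq _ _ _).trans (mul_le_mul_of_nonneg_left ?_
    (Finset.expect_nonneg fun _ _ => sq_nonneg _))
  rw [parseval he (Nat.le_add_left k l)]
  set p : degreeLT F k → ℝ := fun y => 𝔼 m : degreeLT F j,
    ind (Ann (l + k) a (f /ₘ (X ^ j + m.1)) y.1) with hp
  have hp0 : ∀ y, 0 ≤ p y := fun y => Finset.expect_nonneg fun _ _ => ind_nonneg _
  have h3 : ∀ y, φ y ^ 2 ≤ ind (y = 0) + τ / (Fintype.card F : ℝ) ^ min a j * p y := by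
    intro y
    have h4 : |φ y| ≤ p y := (Finset.abs_expect_le _ _).trans
      (Finset.expect_le_expect fun m _ => abs_expect_le_ann he _ _ _ _ _)
    refine (sq_le_sq' (abs_le.1 h4).1 (abs_le.1 h4).2).trans ?_
    by_cases hy : y = 0
    · rw [ind_pos hy]
      refine le_add_of_le_of_nonneg (pow_le_one₀ (hp0 y) ?_) (mul_nonneg (by positivity) (hp0 y))
      exact Finset.expect_le univ_nonempty fun _ _ => ind_le_one _
    · rw [ind_neg hy, zero_add, sq]
      exact mul_le_mul_of_nonneg_right (expect_ann hn hj hN (by omega) hτ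
        (fun h => hy (Subtype.ext h)) (mem_degreeLT.1 y.2)) (hp0 y)
  refine (Finset.sum_le_sum fun y _ => h3 y).trans ?_
  rw [Finset.sum_add_distrib, ← Finset.mul_sum, mul_div_right_comm]
  refine add_le_add ?_ (mul_le_mul_of_nonneg_left ?_ (by positivity))
  · simpa using sum_ind_le (P := fun y : degreeLT F k => y = 0) {0} id (fun _ _ _ _ h => h)
      fun y hy => by simpa using hy
  · rw [hp, ← Finset.expect_sum_comm]
    exact Finset.expect_le univ_nonempty fun m _ => sum_ann (hG m).1 (by rw [(hG m).2, hN])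

end Pool.Agent.MP_c853c5_nt
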