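import Mathlib
import Pool.Agent.MP_c853c5_nt.SFour

set_option autoImplicit false

namespace Pool.Agent.MP_c853c5_nt

open Polynomial Finset Pool.Agent.MP_4fffd4_nt
open scoped BigOperators

variable {F : Type*} [Field F] [Fintype F]

namespace SEquiB

theorem sum_LT (n : ℕ) (G : F[X] → ℝ) : ∑ g ∈ ltF F n, G g = ∑ y : degreeLT F n, G y.1 :=
  Finset.sum_map _ _ _

omit [Fintype F] in
theorem deg_add_lt [CharP F 2] {a b : F[X]} {N : ℕ} (ha : a.Monic) (ha' : a.natDegree = N)
    (hb : b.Monic) (hb' : b.natDegree = N) : (a + b).degree < N := by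
  rw [← CharTwo.sub_eq_add, ← ha', ← degree_eq_natDegree ha.ne_zero]
  exact degree_sub_lt_left (by rw [degree_eq_natDegree ha.ne_zero, degree_eq_natDegree hb.ne_zero, ha',
    hb']) ha.ne_zero (by rw [ha.leadingCoeff, hb.leadingCoeff])

omit [Fintype F] in
theorem deg_mul_lt {a b : F[X]} {i d : ℕ} (ha : a.natDegree ≤ i) (hb : b.degree < d) :
    (a * b).degree < (d + i : ℕ) :=
  mem_degreeLT.1 (mul_mem_degreeLT (Q := a) (ρ := d) (by omega) ⟨b, mem_degreeLT.2 hb⟩)

/-- The average over a short interval as an average over all monic polynomials. -/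
theorem step1 [CharP F 2] {N l k : ℕ} (hk : l + k = N) {c : F[X]} (hc : c.Monic)
    (hc' : c.natDegree = N) (v : F[X] → ℝ) (hv : ∀ W, 0 ≤ v W) :
    𝔼 z : degreeLT F l, v (c + z.1) ≤ 𝔼 W : degreeLT F N,
      v (X ^ N + W.1) * ((Fintype.card F : ℝ) ^ k * ind (degree (X ^ N + W.1 + c) < l)) := by
  classical
  have hq := card_pos' (F := F)
  have h1 : ∑ z ∈ ltF F l, v (c + z) ≤ ∑ τ ∈ monF F N, v τ * ind ((τ + c).degree < l) := by
    have e : ∀ z ∈ ltF F l, v (c + z) = v (c + z) * ind ((c + z + c).degree < l) := fun z hz => by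
      rw [add_right_comm, CharTwo.add_self_eq_zero, zero_add, ind_pos (mem_ltF.1 hz), mul_one]
    rw [Finset.sum_congr rfl e, ← Finset.sum_image (g := fun z => c + z)
      (f := fun τ => v τ * ind ((τ + c).degree < l)) fun _ _ _ _ h => add_left_cancel h]
    refine Finset.sum_le_sum_of_subset_of_nonneg (fun τ hτ => ?_)
      fun τ _ _ => mul_nonneg (hv _) (ind_nonneg _)
    obtain ⟨z, hz, rfl⟩ := mem_image.1 hτ
    have hz' : z.degree < c.degree := by
      rw [degree_eq_natDegree hc.ne_zero, hc']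
      exact (mem_ltF.1 hz).trans_le (by exact_mod_cast (by omega))
    exact mem_monF.2 ⟨hc.add_of_left hz', by rw [natDegree_add_eq_left_of_degree_lt hz', hc']⟩
  rw [sum_LT, sum_monF] at h1
  rw [expect_LT, expect_LT]
  simp only [mul_left_comm _ ((Fintype.card F : ℝ) ^ k)]
  have e : (Fintype.card F : ℝ) ^ N = Fintype.card F ^ k * Fintype.card F ^ l := by
    rw [← pow_add, add_comm, hk]
  rw [← Finset.mul_sum, e, mul_div_mul_left _ _ (by positivity)]
  exact div_le_div_of_nonneg_right h1 (by positivity)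

/-- The dual condition. -/
def Ann (G : F[X]) (N j : ℕ) (τ y : F[X]) : Prop :=
  ∀ p, N ≤ p → p < N + j → (y * τ).coeff p = (y ^ 2 * G).coeff (p + N + j)

theorem ann_of [CharP F 2] {e : F → ℝ} (he : Chr e) {G τ y : F[X]} {N j : ℕ}
    (h : ∀ m : degreeLT F j, e ((y * (m.1 * τ + od (G * m.1))).coeff (N + j - 1)) = 1) :
    Ann G N j τ y := by
  intro p h1 h2
  obtain ⟨t, ht⟩ : ∃ t, N + j - 1 = p + t := ⟨N + j - 1 - p, by omega⟩
  rw [← sub_eq_zero, CharTwo.sub_eq_add]
  refine he.eq_zero fun c => ?_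
  have := h ⟨C c * X ^ t, mem_degreeLT.2 ((degree_C_mul_X_pow_le t c).trans_lt
    (by exact_mod_cast (by omega)))⟩
  rw [mul_add, coeff_add, he.add, chr_od he, ← he.add] at this
  rw [← this]
  congr 1
  have e1 : y * (C c * X ^ t * τ) = C c * (y * τ) * X ^ t := by ring
  have e2 : y ^ 2 * (G * (C c * X ^ t)) = C c * (y ^ 2 * G) * X ^ t := by ring
  have e3 : 2 * (p + t) + 1 = p + N + j + t := by omega
  simp only [e1, e2, ht, e3, coeff_mul_X_pow, coeff_C_mul]
  rw [mul_add]

theorem step2 [CharP F 2] {n j N l k : ℕ} {f A τ : F[X]} (hf : f.Monic) (hn : f.natDegree = n)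
    (hA : A.Monic) (hj : j ≤ n) (hN : n - j + A.natDegree = 2 * N + 1) (hk : l + k = N)
    (ha : A.natDegree ≤ 2 * l) (hτ : τ.Monic) (hτ' : τ.natDegree = N) :
    (Fintype.card F : ℝ) ^ k *
      𝔼 m : degreeLT F j, ind ((τ + od (f /ₘ (X ^ j + m.1) * A)).degree < l) ≤
      ∑ y : degreeLT F k, ind (Ann (A * f) N j τ y.1) := by
  obtain ⟨e, he⟩ := exists_chr (F := F)
  have hq := card_pos' (F := F)
  have key : ∀ m : degreeLT F j, ind ((τ + od (f /ₘ (X ^ j + m.1) * A)).degree < l) ≤
      𝔼 y : degreeLT F k, e ((y.1 * (X ^ j * τ + od (A * f * X ^ j))).coeff (N + j - 1)) *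
        e ((y.1 * (m.1 * τ + od (A * f * m.1))).coeff (N + j - 1)) := by
    intro m
    obtain ⟨m1, m2⟩ := monic_add_LT m
    have eU : X ^ j * τ + od (A * f * X ^ j) + (m.1 * τ + od (A * f * m.1)) =
        (X ^ j + m.1) * τ + od (A * f * (X ^ j + m.1)) := by
      rw [mul_add, od_add]; ring
    simp only [← he.add, ← coeff_add, ← mul_add, eU]
    generalize X ^ j + m.1 = M at m1 m2
    have d0 : (f /ₘ M).natDegree = n - j := by rw [natDegree_divByMonic _ m1, hn, m2]
    have d1 : (f /ₘ M).Monic := by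
      have := leadingCoeff_divByMonic_of_monic m1 (p := f) (by
        rw [degree_eq_natDegree m1.ne_zero, degree_eq_natDegree hf.ne_zero, hn, m2]
        exact_mod_cast hj)
      rw [Monic, this, hf.leadingCoeff]
    obtain ⟨c1, c2⟩ := monic_od (d1.mul hA) (N := N) (by rw [d1.natDegree_mul hA, d0, hN])
    have e1 : M * τ + od (A * f * M) = M * (τ + od (f /ₘ M * A)) + od (A * M * (f %ₘ M)) := by
      have : A * f * M = M ^ 2 * (f /ₘ M * A) + A * M * (f %ₘ M) := by
        conv_lhs => rw [← modByMonic_add_div f M]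
        ring
      rw [this, od_add, od_sq_mul]
      ring
    have e2 : (od (A * M * (f %ₘ M))).degree < (l + j : ℕ) := by
      have b1 : (f %ₘ M).degree < j := by
        rw [← m2, ← degree_eq_natDegree m1.ne_zero]
        exact degree_modByMonic_lt _ m1
      have := degree_od_lt (deg_mul_lt (a := A * M) (i := 2 * l + j)
        (by rw [hA.natDegree_mul m1, m2]; omega) b1)
      rwa [show (j + (2 * l + j)) / 2 = l + j by omega] at this
    have e3 : ∀ d : ℕ, l ≤ d → (τ + od (f /ₘ M * A)).degree < d →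
        (M * τ + od (A * f * M)).degree < (d + j : ℕ) := fun d h1 h2 => by
      rw [e1]
      exact (degree_add_le _ _).trans_lt (max_lt (deg_mul_lt m2.le h2)
        (e2.trans_le (by exact_mod_cast (by omega))))
    have e4 := expect_chr he (l := l + j) (k := k) (u := M * τ + od (A * f * M)) (by
      rw [show l + j + k = N + j by omega]
      exact e3 N (by omega) (deg_add_lt hτ hτ' c1 c2))
    rw [show l + j + k = N + j by omega] at e4
    rw [e4]
    exact ind_mono (e3 l le_rfl)
  have h2 := Finset.expect_le_expect (s := univ) fun m _ => key m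
  rw [Finset.expect_comm, expect_LT k] at h2
  rw [← le_div_iff₀' (by positivity)]
  refine h2.trans (div_le_div_of_nonneg_right (Finset.sum_le_sum fun y _ => ?_) (by positivity))
  have hs : Sgn fun m : degreeLT F j =>
      e ((y.1 * (m.1 * τ + od (A * f * m.1))).coeff (N + j - 1)) :=
    he.toSgn.comp _ fun a b => by
      rw [← coeff_add, Submodule.coe_add, mul_add (A * f), od_add]
      congr 1
      ring
  rw [← Finset.mul_expect, hs.expect_eq_ind]
  refine le_trans (mul_le_of_le_one_left (ind_nonneg _) ?_) (ind_mono (ann_of he))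
  exact (le_abs_self _).trans (he.toSgn.abs_eq _).le

/-- The condition on the dual variable alone. -/
def Bad (G : F[X]) (j b : ℕ) (y : F[X]) : Prop :=
  j / 2 ≤ b ∧ ∀ t, (b + 1) / 2 ≤ t → t < j / 2 → (y ^ 2 * G).coeff (2 * t + G.natDegree) = 0

omit [Fintype F] in
theorem bad_of {G τ y : F[X]} {N j : ℕ} (hG : G.Monic) (hG' : G.natDegree = 2 * N + 1 + j)
    (hτ : τ.natDegree = N) (hy : y ≠ 0) (h : Ann G N j τ y) : Bad G j y.natDegree y := by
  have H : ∀ t, (y.natDegree + 1) / 2 ≤ t → t < j / 2 →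
      (y ^ 2 * G).coeff (2 * t + G.natDegree) = 0 := fun t h1 h2 => by
    rw [hG', show 2 * t + (2 * N + 1 + j) = N + 2 * t + 1 + N + j by omega,
      ← h _ (by omega) (by omega)]
    exact coeff_eq_zero_of_natDegree_lt (natDegree_mul_le.trans_lt (by omega))
  refine ⟨not_lt.1 fun hb => ?_, H⟩
  have := H _ (by omega) hb
  rw [← natDegree_pow, ← natDegree_mul (pow_ne_zero 2 hy) hG.ne_zero, coeff_natDegree,
    leadingCoeff_eq_zero] at this
  exact mul_ne_zero (pow_ne_zero 2 hy) hG.ne_zero this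

theorem count_W {G y : F[X]} {N j : ℕ} (hG : G.Monic) (hG' : G.natDegree = 2 * N + 1 + j)
    (hy : y ≠ 0) (h1 : y.natDegree ≤ j) (h2 : y.natDegree ≤ N) :
    𝔼 W : degreeLT F N, ind (Ann G N j (X ^ N + W.1) y) ≤
      ind (Bad G j y.natDegree y) / (Fintype.card F : ℝ) ^ y.natDegree := by
  have hq := card_pos' (F := F)
  by_cases h : ∃ W : degreeLT F N, Ann G N j (X ^ N + W.1) y
  · obtain ⟨W0, h0⟩ := h
    rw [ind_pos (bad_of hG hG' (monic_add_LT W0).2 hy h0), expect_LT]
    have := sum_ind_le (P := fun W : degreeLT F N => Ann G N j (X ^ N + W.1) y)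
      (ltF F (N - y.natDegree)) (fun W => W.1 - W0.1)
      (fun a b _ _ e => Subtype.ext (sub_left_injective e)) fun W hW => by
        have b1 : (y * (W - W0).1).degree < (N + y.natDegree : ℕ) :=
          deg_mul_lt le_rfl (mem_degreeLT.1 (W - W0).2)
        rw [Submodule.coe_sub] at b1
        have b2 : (y * (W.1 - W0.1)).degree < N := by
          rw [degree_lt_iff_coeff_zero] at b1 ⊢
          intro p hp
          by_cases hp' : p < N + j
          · have e : y * (W.1 - W0.1) = y * (X ^ N + W.1) - y * (X ^ N + W0.1) := by ring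
            rw [e, coeff_sub, hW p hp hp', h0 p hp hp', sub_self]
          · exact b1 p (by omega)
        rw [mem_ltF]
        by_cases hz : W.1 - W0.1 = 0
        · rw [hz, degree_zero]; exact WithBot.bot_lt_coe _
        · rw [← natDegree_lt_iff_degree_lt (mul_ne_zero hy hz), natDegree_mul hy hz] at b2
          exact (natDegree_lt_iff_degree_lt hz).1 (by omega)
    rw [card_ltF, Nat.cast_pow] at this
    rw [div_le_div_iff₀ (by positivity) (by positivity), one_mul]
    refine (mul_le_mul_of_nonneg_right this (by positivity)).trans_eq ?_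
    rw [← pow_add, Nat.sub_add_cancel h2]
  · push Not at h
    simp only [ind_neg (h _), Fintype.expect_const]
    exact div_nonneg (ind_nonneg _) (by positivity)

theorem count_y [CharP F 2] {G : F[X]} (hG : G.Monic) {j k s b : ℕ} (hs : 2 * s + k + 3 ≤ j)
    (hb : b < k) : ∑ y : degreeLT F k, ind (y.1.degree < (b + 1 : ℕ) ∧ Bad G j b y.1) /
      (Fintype.card F : ℝ) ^ b ≤ 1 / (Fintype.card F : ℝ) ^ s := by
  classical
  have hq := card_pos' (F := F)
  have hq1 : (1 : ℝ) ≤ Fintype.card F := one_le_two.trans two_le_card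
  rw [← Finset.sum_div]
  by_cases h : j / 2 ≤ b
  · have h1 := card_ann hG (k := b + 1) (t₁ := (b + 1) / 2) (t₂ := j / 2) (by omega)
    have h2 : ∑ y ∈ ltF F k, ind (y.degree < (b + 1 : ℕ) ∧ Bad G j b y) ≤
        ∑ y ∈ ltF F (b + 1), ind (∀ t, (b + 1) / 2 ≤ t → t < j / 2 →
          (y ^ 2 * G).coeff (2 * t + G.natDegree) = 0) := by
      refine le_trans (Finset.sum_le_sum fun y _ => ?_) ((Finset.sum_ite_mem _ _ _).trans_le
        (Finset.sum_le_sum_of_subset_of_nonneg (inter_subset_right (s₁ := ltF F k))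
          fun _ _ _ => ind_nonneg _))
      split_ifs with hy
      · exact ind_mono fun h => h.2.2
      · exact (ind_neg fun h => hy (mem_ltF.2 h.1)).le
    rw [sum_LT, sum_LT] at h2
    refine (div_le_div_of_nonneg_right (h2.trans h1) (by positivity)).trans ?_
    rw [div_div, div_le_div_iff₀ (by positivity) (by positivity), one_mul, ← pow_add, ← pow_add]
    exact pow_le_pow_right₀ hq1 (by omega)
  · simp only [ind_neg fun h' : _ ∧ Bad G j b _ => h h'.2.1, Finset.sum_const_zero, zero_div]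
    positivity

end SEquiB

open SEquiB in
theorem equi_b [CharP F 2] {n j N l k s : ℕ} {f A : F[X]} (hf : f.Monic) (hn : f.natDegree = n)
    (hA : A.Monic) (hj : j ≤ n) (hN : n - j + A.natDegree = 2 * N + 1) (hk : l + k = N)
    (ha : A.natDegree ≤ 2 * l) (hs : 2 * s + k + 3 ≤ j) (v : F[X] → ℝ)
    (hv : ∀ W, 0 ≤ v W ∧ v W ≤ 1) :
    𝔼 m : degreeLT F j, 𝔼 z : degreeLT F l, v (od (f /ₘ (X ^ j + m.1) * A) + z.1) ≤
      𝔼 W : degreeLT F N, v (X ^ N + W.1) + k / (Fintype.card F : ℝ) ^ s := by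
  classical
  have hq := card_pos' (F := F)
  have hG := hA.mul hf
  have hG' : (A * f).natDegree = 2 * N + 1 + j := by rw [hA.natDegree_mul hf]; omega
  have h1 : ∀ m : degreeLT F j, (od (f /ₘ (X ^ j + m.1) * A)).Monic ∧
      (od (f /ₘ (X ^ j + m.1) * A)).natDegree = N := fun m => by
    obtain ⟨m1, m2⟩ := monic_add_LT m
    generalize X ^ j + m.1 = M at m1 m2
    have d0 : (f /ₘ M).natDegree = n - j := by rw [natDegree_divByMonic _ m1, hn, m2]
    have d1 : (f /ₘ M).Monic := by
      have := leadingCoeff_divByMonic_of_monic m1 (p := f) (by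
        rw [degree_eq_natDegree m1.ne_zero, degree_eq_natDegree hf.ne_zero, hn, m2]
        exact_mod_cast hj)
      rw [Monic, this, hf.leadingCoeff]
    exact monic_od (d1.mul hA) (by rw [d1.natDegree_mul hA, d0, hN])
  refine (Finset.expect_le_expect fun m _ =>
    step1 hk (h1 m).1 (h1 m).2 v fun W => (hv W).1).trans ?_
  rw [Finset.expect_comm]
  have h2 : ∀ W : degreeLT F N, 𝔼 m : degreeLT F j, v (X ^ N + W.1) * ((Fintype.card F : ℝ) ^ k *
      ind (degree (X ^ N + W.1 + od (f /ₘ (X ^ j + m.1) * A)) < l)) ≤ v (X ^ N + W.1) +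
      ∑ y ∈ (univ : Finset (degreeLT F k)).erase 0, ind (Ann (A * f) N j (X ^ N + W.1) y.1) := by
    intro W
    rw [← Finset.mul_expect, ← Finset.mul_expect]
    refine (mul_le_mul_of_nonneg_left (step2 hf hn hA hj hN hk ha (monic_add_LT W).1
      (monic_add_LT W).2) (hv _).1).trans ?_
    rw [← Finset.add_sum_erase _ _ (mem_univ 0), mul_add]
    exact add_le_add (mul_le_of_le_one_right (hv _).1 (ind_le_one _))
      (mul_le_of_le_one_left (Finset.sum_nonneg fun _ _ => ind_nonneg _) (hv _).2)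
  refine (Finset.expect_le_expect fun W _ => h2 W).trans ?_
  rw [Finset.expect_add_distrib, Finset.expect_sum_comm]
  refine add_le_add le_rfl ?_
  have h3 : ∀ y ∈ (univ : Finset (degreeLT F k)).erase 0,
      𝔼 W : degreeLT F N, ind (Ann (A * f) N j (X ^ N + W.1) y.1) ≤ ∑ b ∈ range k,
        ind (y.1.degree < (b + 1 : ℕ) ∧ Bad (A * f) j b y.1) / (Fintype.card F : ℝ) ^ b := by
    intro y hy
    have y0 : y.1 ≠ 0 := fun e => (mem_erase.1 hy).1 (Subtype.ext e)
    have y1 : y.1.natDegree < k := (natDegree_lt_iff_degree_lt y0).2 (mem_degreeLT.1 y.2)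
    refine (count_W hG hG' y0 (by omega) (by omega)).trans (le_trans ?_ (Finset.single_le_sum
      (f := fun b => ind (y.1.degree < (b + 1 : ℕ) ∧ Bad (A * f) j b y.1) /
        (Fintype.card F : ℝ) ^ b)
      (fun b _ => div_nonneg (ind_nonneg _) (by positivity)) (mem_range.2 y1)))
    exact div_le_div_of_nonneg_right (ind_mono fun h =>
      ⟨(natDegree_lt_iff_degree_lt y0).1 (Nat.lt_succ_self _), h⟩) (by positivity)
  refine (Finset.sum_le_sum h3).trans ((Finset.sum_le_sum_of_subset_of_nonneg (erase_subset _ _)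
    fun _ _ _ => Finset.sum_nonneg fun _ _ => div_nonneg (ind_nonneg _) (by positivity)).trans ?_)
  rw [Finset.sum_comm]
  refine (Finset.sum_le_sum fun b hb => count_y hG hs (mem_range.1 hb)).trans_eq ?_
  rw [Finset.sum_const, card_range, nsmul_eq_mul, mul_one_div]

end Pool.Agent.MP_c853c5_nt
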