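import Mathlib
import Pool.Agent.MP_c853c5_nt.SDefs

set_option autoImplicit false

namespace Pool.Agent.MP_c853c5_nt

open Polynomial Finset Pool.Agent.MP_4fffd4_nt
open scoped BigOperators

variable {F : Type*} [Field F] [Fintype F]

namespace SConv

omit [Fintype F] in
theorem eq_of_dvd_pow {P R : F[X]} (hP : P.Monic) (hPi : Irreducible P) (hR : R.Monic)
    (hRi : Irreducible R) {a : ℕ} (h : P ∣ R ^ a) : P = R :=
  eq_of_monic_of_associated hP hR (hPi.associated_of_dvd hRi (hPi.prime.dvd_of_dvd_pow h))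

omit [Fintype F] in
theorem vm_pow {P : F[X]} (hP : P.Monic) (hPi : Irreducible P) {a : ℕ} (ha : 0 < a) :
    vm (P ^ a) = P.natDegree := by
  have h : ∃ R : F[X], R.Monic ∧ Irreducible R ∧ ∃ b, 0 < b ∧ P ^ a = R ^ b :=
    ⟨P, hP, hPi, a, ha, rfl⟩
  unfold vm
  rw [dif_pos h]
  obtain ⟨h1, h2, b, -, e⟩ := h.choose_spec
  rw [← eq_of_dvd_pow hP hPi h1 h2 (e ▸ dvd_pow_self P ha.ne')]

omit [Fintype F] in
theorem vm_cases (g : F[X]) : vm g = 0 ∨
    ∃ P : F[X], P.Monic ∧ Irreducible P ∧ ∃ a, 0 < a ∧ g = P ^ a ∧ vm g = P.natDegree := by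
  by_cases h : ∃ P : F[X], P.Monic ∧ Irreducible P ∧ ∃ a, 0 < a ∧ g = P ^ a
  · obtain ⟨P, h1, h2, a, ha, rfl⟩ := h
    exact Or.inr ⟨P, h1, h2, a, ha, rfl, vm_pow h1 h2 ha⟩
  · left
    unfold vm
    rw [dif_neg h]

omit [Fintype F] in
theorem vm_one : vm (1 : F[X]) = 0 := by
  rcases vm_cases (1 : F[X]) with h | ⟨P, -, h2, a, ha, e, -⟩
  · exact h
  · exact absurd (isUnit_of_dvd_one (e ▸ dvd_pow_self P ha.ne')) h2.not_isUnit

open Classical in
omit [Fintype F] in
theorem vm_mul {P : F[X]} (hP : P.Monic) (hPi : Irreducible P) (d : F[X]) :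
    vm (P * d) = (if P ∣ d then vm d else 0) + if d = 1 then (P.natDegree : ℝ) else 0 := by
  have h1 : ¬ P ∣ 1 := fun h => hPi.not_isUnit (isUnit_of_dvd_one h)
  by_cases h : ∃ a, d = P ^ a
  · obtain ⟨a, rfl⟩ := h
    rw [← pow_succ', vm_pow hP hPi a.succ_pos]
    rcases a.eq_zero_or_pos with rfl | ha
    · simp [h1]
    · have h2 := dvd_pow_self P ha.ne'
      rw [if_pos h2, vm_pow hP hPi ha, if_neg fun e : P ^ a = 1 => h1 (e ▸ h2), add_zero]
  · rw [if_neg (c := d = 1) fun e => h ⟨0, by simp [e]⟩, add_zero]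
    have h2 : vm (P * d) = 0 := by
      rcases vm_cases (P * d) with h' | ⟨R, a, b, c, hc, e, -⟩
      · exact h'
      · obtain rfl := eq_of_dvd_pow hP hPi a b (e ▸ dvd_mul_right P d)
        obtain ⟨c, rfl⟩ := Nat.exists_eq_succ_of_ne_zero hc.ne'
        rw [pow_succ'] at e
        exact absurd ⟨c, mul_left_cancel₀ hP.ne_zero e⟩ h
    rw [h2]
    split_ifs with h3
    · rcases vm_cases d with h' | ⟨R, a, b, c, -, e, -⟩
      · exact h'.symm
      · obtain rfl := eq_of_dvd_pow hP hPi a b (e ▸ h3)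
        exact absurd ⟨c, e⟩ h
    · rfl

open Classical in
omit [Fintype F] in
theorem mu_mul {P : F[X]} (hPi : Irreducible P) {d : F[X]} (hd : d ≠ 0) :
    mu (P * d) = if P ∣ d then 0 else -mu d := by
  unfold mu
  by_cases h : P ∣ d
  · rw [if_pos h, if_neg fun hs => hPi.not_isUnit (hs P (mul_dvd_mul_left P h))]
  · have h1 : Squarefree (P * d) ↔ Squarefree d := by
      rw [squarefree_mul_iff]
      exact ⟨fun h => h.2.2, fun h' => ⟨hPi.isRelPrime_iff_not_dvd.2 h, hPi.squarefree, h'⟩⟩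
    have h2 : liou P = -1 := by
      unfold liou
      rw [UniqueFactorizationMonoid.card_factors_of_irreducible hPi, pow_one]
    rw [if_neg h, h1, liou_mul hPi.ne_zero hd, h2]
    split_ifs <;> simp

omit [Fintype F] in
theorem mu_one : mu (1 : F[X]) = 1 := by
  unfold mu liou
  rw [if_pos squarefree_one, UniqueFactorizationMonoid.factors_one]
  simp

theorem divs_one : divs (1 : F[X]) = {1} := by
  ext d
  rw [mem_divs one_ne_zero, mem_singleton]
  exact ⟨fun h => h.1.eq_one_of_isUnit (isUnit_of_dvd_one h.2), fun h => by simp [h]⟩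

open Classical in
theorem sum_divs_mul {P g : F[X]} (hP : P.Monic) (hPi : Irreducible P) (hg : g ≠ 0)
    (φ : F[X] → ℝ) : ∑ d ∈ divs (P * g), φ d =
      ∑ d ∈ divs g, (φ (P * d) + if P ∣ d then 0 else φ d) := by
  have hPg := mul_ne_zero hP.ne_zero hg
  rw [← sum_filter_add_sum_filter_not _ (P ∣ ·), sum_add_distrib]
  congr 1
  · symm
    refine sum_bij (fun d _ => P * d) (fun d hd => ?_) (fun _ _ _ _ e => mul_left_cancel₀
      hP.ne_zero e) (fun d hd => ?_) fun _ _ => rfl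
    · rw [mem_divs hg] at hd
      rw [mem_filter, mem_divs hPg]
      exact ⟨⟨hP.mul hd.1, mul_dvd_mul_left P hd.2⟩, dvd_mul_right _ _⟩
    · rw [mem_filter, mem_divs hPg] at hd
      obtain ⟨⟨h1, h2⟩, e, rfl⟩ := hd
      exact ⟨e, (mem_divs hg).2 ⟨hP.of_mul_monic_left h1,
        (mul_dvd_mul_iff_left hP.ne_zero).1 h2⟩, rfl⟩
  · simp only [← ite_not (_ ∣ _)]
    rw [← sum_filter]
    refine sum_congr ?_ fun _ _ => rfl
    ext d
    simp only [mem_filter, mem_divs hg, mem_divs hPg]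
    exact ⟨fun ⟨⟨a, b⟩, c⟩ => ⟨⟨a,
      (hPi.isRelPrime_iff_not_dvd.2 c).symm.dvd_of_dvd_mul_left b⟩, c⟩,
      fun ⟨⟨a, b⟩, c⟩ => ⟨⟨a, b.mul_left P⟩, c⟩⟩

omit [Fintype F] in
theorem exists_fac {g : F[X]} (hg : g.Monic) (h : g ≠ 1) :
    ∃ P g' : F[X], P.Monic ∧ Irreducible P ∧ g'.Monic ∧ g = P * g' := by
  obtain ⟨P, h1, h2, g', rfl⟩ := exists_monic_irreducible_factor g fun hu =>
    h (hg.eq_one_of_isUnit hu)
  exact ⟨P, g', h1, h2, h1.of_mul_monic_left hg, rfl⟩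

theorem swap (n : ℕ) (φ : F[X] → ℝ) : ∑ g ∈ monF F n, ∑ d ∈ divs g, φ d =
    ∑ i ∈ range (n + 1), (∑ d ∈ monF F i, φ d) * (Fintype.card F : ℝ) ^ (n - i) := by
  classical
  have h1 : ∀ g ∈ monF F n, ∑ d ∈ divs g, φ d =
      ∑ i ∈ range (n + 1), ∑ d ∈ monF F i, if d ∣ g then φ d else 0 := fun g hg => by
    unfold divs
    rw [sum_filter, sum_biUnion, (mem_monF.1 hg).2]
    · intro i _ j _ hij
      exact disjoint_left.2 fun d a b => hij ((mem_monF.1 a).2.symm.trans (mem_monF.1 b).2)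
  rw [sum_congr rfl h1, sum_comm]
  refine sum_congr rfl fun i hi => ?_
  rw [sum_comm, sum_mul]
  refine sum_congr rfl fun d hd => ?_
  obtain ⟨h2, h3⟩ := mem_monF.1 hd
  have hi' := mem_range.1 hi
  rw [← sum_filter, sum_const, nsmul_eq_mul, mul_comm, ← Nat.cast_pow, ← card_monF]
  congr 2
  symm
  refine card_bij (fun e _ => d * e) (fun e he => ?_)
    (fun _ _ _ _ e => mul_left_cancel₀ h2.ne_zero e) fun g hg => ?_
  · obtain ⟨h4, h5⟩ := mem_monF.1 he
    rw [mem_filter, mem_monF, h2.natDegree_mul h4]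
    exact ⟨⟨h2.mul h4, by omega⟩, dvd_mul_right _ _⟩
  · rw [mem_filter, mem_monF] at hg
    obtain ⟨⟨h4, h5⟩, e, rfl⟩ := hg
    have h6 := h2.of_mul_monic_left h4
    rw [h2.natDegree_mul h6] at h5
    exact ⟨e, mem_monF.2 ⟨h6, by omega⟩, rfl⟩

theorem swap_zero (φ : F[X] → ℝ) :
    ∑ d ∈ monF F 0, φ d = ∑ g ∈ monF F 0, ∑ d ∈ divs g, φ d := by
  rw [swap]; simp

theorem swap_succ (n : ℕ) (φ : F[X] → ℝ) : ∑ d ∈ monF F (n + 1), φ d =
    ∑ g ∈ monF F (n + 1), ∑ d ∈ divs g, φ d -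
      Fintype.card F * ∑ g ∈ monF F n, ∑ d ∈ divs g, φ d := by
  rw [swap, swap, sum_range_succ, mul_sum, Nat.sub_self, pow_zero, mul_one,
    sum_congr rfl (g := fun i => (Fintype.card F : ℝ) *
      ((∑ d ∈ monF F i, φ d) * (Fintype.card F : ℝ) ^ (n - i))) fun i hi => ?_]
  · ring
  · have := mem_range.1 hi
    rw [show n + 1 - i = n - i + 1 by omega]
    ring

end SConv

open SConv

theorem vm_nonneg (g : F[X]) : 0 ≤ vm g := by
  rcases vm_cases g with h | ⟨P, -, -, a, -, -, h⟩ <;> rw [h]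
  positivity

theorem vm_pow {P : F[X]} (hP : P.Monic) (hPi : Irreducible P) {a : ℕ} (ha : 0 < a) :
    vm (P ^ a) = P.natDegree := SConv.vm_pow hP hPi ha

theorem vm_le (g : F[X]) : vm g ≤ g.natDegree := by
  rcases vm_cases g with h | ⟨P, h1, -, a, ha, rfl, h⟩ <;> rw [h]
  · positivity
  · rw [h1.natDegree_pow]
    exact_mod_cast Nat.le_mul_of_pos_left _ ha

theorem sum_mu_divs {g : F[X]} (hg : g.Monic) : ∑ d ∈ divs g, mu d = ind (g = 1) := by
  by_cases h : g = 1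
  · rw [ind_pos h, h, divs_one, sum_singleton, mu_one]
  · obtain ⟨P, g', h1, h2, h3, rfl⟩ := exists_fac hg h
    rw [ind_neg h, sum_divs_mul h1 h2 h3.ne_zero]
    refine sum_eq_zero fun d hd => ?_
    rw [mu_mul h2 ((mem_divs h3.ne_zero).1 hd).1.ne_zero]
    split_ifs <;> simp

theorem sum_vm_divs {g : F[X]} (hg : g.Monic) : ∑ e ∈ divs g, vm e = g.natDegree := by
  classical
  induction hn : g.natDegree using Nat.strong_induction_on generalizing g with
  | _ n ih =>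
    by_cases h : g = 1
    · rw [← hn, h, divs_one, sum_singleton, vm_one]; simp
    · obtain ⟨P, g', h1, h2, h3, rfl⟩ := exists_fac hg h
      rw [h1.natDegree_mul h3] at hn
      have h4 := ih g'.natDegree (by have := h2.natDegree_pos; omega) h3 rfl
      rw [sum_divs_mul h1 h2 h3.ne_zero, sum_congr rfl
        (g := fun d => vm d + if d = 1 then (P.natDegree : ℝ) else 0) fun d _ => ?_,
        sum_add_distrib, h4, sum_ite_eq', if_pos ((mem_divs h3.ne_zero).2 ⟨monic_one, one_dvd _⟩),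
        ← hn]
      · push_cast; ring
      · rw [vm_mul h1 h2]
        split_ifs <;> ring

theorem SConv.sum_sum_mu (n : ℕ) : ∑ g ∈ monF F n, ∑ d ∈ divs g, mu d = ind (n = 0) := by
  rw [sum_congr rfl (g := fun _ => ind (n = 0)) fun g hg => ?_]
  · rcases n with _ | n
    · simp [card_monF]
    · rw [ind_neg n.succ_ne_zero, sum_const_zero]
  · obtain ⟨h1, rfl⟩ := mem_monF.1 hg
    rw [sum_mu_divs h1, h1.natDegree_eq_zero]

theorem sum_mu_monF (i : ℕ) : ∑ d ∈ monF F i, mu d =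
    if i = 0 then 1 else if i = 1 then -(Fintype.card F : ℝ) else 0 := by
  rcases i with _ | _ | i
  · rw [swap_zero, sum_sum_mu, ind_pos rfl, if_pos rfl]
  · rw [swap_succ, sum_sum_mu, sum_sum_mu, ind_pos rfl, ind_neg (by omega)]; simp
  · rw [swap_succ, sum_sum_mu, sum_sum_mu, ind_neg (by omega), ind_neg (by omega)]; simp

theorem SConv.sum_sum_vm (n : ℕ) :
    ∑ g ∈ monF F n, ∑ d ∈ divs g, vm d = n * (Fintype.card F : ℝ) ^ n := by
  rw [sum_congr rfl (g := fun _ => (n : ℝ)) fun g hg => ?_, sum_const, card_monF, nsmul_eq_mul]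
  · push_cast; ring
  · obtain ⟨h1, rfl⟩ := mem_monF.1 hg
    exact sum_vm_divs h1

theorem SConv.sum_vm_succ (n : ℕ) :
    ∑ e ∈ monF F (n + 1), vm e = (Fintype.card F : ℝ) ^ (n + 1) := by
  rw [swap_succ, sum_sum_vm, sum_sum_vm]
  push_cast; ring

theorem sum_vm_monF (n : ℕ) : ∑ e ∈ monF F n, vm e ≤ (Fintype.card F : ℝ) ^ n := by
  rcases n with _ | n
  · rw [swap_zero, sum_sum_vm]; simp
  · exact (sum_vm_succ n).le

theorem SConv.card_irrF_le (d : ℕ) : (d : ℝ) * (irrF F d).card ≤ (Fintype.card F : ℝ) ^ d := by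
  classical
  refine le_trans ?_ (sum_vm_monF d)
  refine le_trans (le_of_eq ?_) (sum_le_sum_of_subset_of_nonneg (s := irrF F d)
    (fun g hg => mem_monF.2 ⟨(mem_irrF.1 hg).1, (mem_irrF.1 hg).2.1⟩) fun _ _ _ => vm_nonneg _)
  rw [sum_congr rfl (g := fun _ => (d : ℝ)) fun g hg => ?_, sum_const, nsmul_eq_mul, mul_comm]
  obtain ⟨h1, rfl, h2⟩ := mem_irrF.1 hg
  simpa using vm_pow h1 h2 one_pos

theorem SConv.geom (m : ℕ) :
    ∑ d ∈ range (m + 1), (Fintype.card F : ℝ) ^ d ≤ 2 * (Fintype.card F : ℝ) ^ m := by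
  have hq := two_le_card (F := F)
  induction m with
  | zero => simp
  | succ m ih =>
    rw [sum_range_succ, pow_succ]
    nlinarith [pow_pos (card_pos' (F := F)) m]

theorem card_irrF {n : ℕ} (hn : 4 ≤ n) :
    (Fintype.card F : ℝ) ^ n / (2 * n) ≤ (irrF F n).card := by
  classical
  have hq := two_le_card (F := F)
  have h0 : ∑ e ∈ monF F n, vm e = (Fintype.card F : ℝ) ^ n := by
    obtain ⟨m, rfl⟩ : ∃ m, n = m + 1 := ⟨n - 1, by omega⟩
    exact sum_vm_succ m
  have h1 : ∀ g ∈ monF F n, vm g ≤ (if Irreducible g then (n : ℝ) else 0) +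
      ∑ d ∈ range (n / 2 + 1), ∑ P ∈ irrF F d, if g = P ^ (n / d) then (d : ℝ) else 0 := by
    intro g hg
    have a1 : (0 : ℝ) ≤ if Irreducible g then (n : ℝ) else 0 := by positivity
    have a2 : ∀ d, ∀ P ∈ irrF F d, (0 : ℝ) ≤ if g = P ^ (n / d) then (d : ℝ) else 0 :=
      fun d P _ => by positivity
    have a3 : ∀ d ∈ range (n / 2 + 1),
        (0 : ℝ) ≤ ∑ P ∈ irrF F d, if g = P ^ (n / d) then (d : ℝ) else 0 :=
      fun d _ => sum_nonneg (a2 d)
    rcases vm_cases g with h | ⟨P, b1, b2, a, ha, e, h⟩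
    · rw [h]; exact add_nonneg a1 (sum_nonneg a3)
    have b3 := (mem_monF.1 hg).2
    rw [e, b1.natDegree_pow] at b3
    rcases Nat.eq_or_lt_of_le (Nat.succ_le_of_lt ha) with h2 | h2
    · rw [← h2] at e b3
      simp only [Nat.succ_eq_add_one, zero_add, pow_one, one_mul] at e b3
      rw [h, b3, if_pos (e ▸ b2)]
      exact le_add_of_nonneg_right (sum_nonneg a3)
    · have b4 := b2.natDegree_pos
      have b5 : P.natDegree ∈ range (n / 2 + 1) := by
        rw [mem_range, Nat.lt_succ_iff, Nat.le_div_iff_mul_le two_pos, ← b3, mul_comm]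
        exact Nat.mul_le_mul_right _ h2
      refine le_add_of_nonneg_of_le a1 (le_trans ?_ (single_le_sum a3 b5))
      refine le_trans ?_ (single_le_sum (a2 _) (mem_irrF.2 ⟨b1, rfl, b2⟩))
      rw [h, if_pos (by rw [← b3, Nat.mul_div_cancel _ b4, e])]
  have h2 := sum_le_sum h1
  rw [h0, sum_add_distrib, ← sum_filter, sum_const, nsmul_eq_mul, sum_comm] at h2
  have h3 : ∑ d ∈ range (n / 2 + 1), ∑ g ∈ monF F n, ∑ P ∈ irrF F d,
      (if g = P ^ (n / d) then (d : ℝ) else 0) ≤ 2 * (Fintype.card F : ℝ) ^ (n / 2) := by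
    refine (sum_le_sum fun d _ => ?_).trans (geom _)
    rw [sum_comm]
    refine (sum_le_card_nsmul _ _ (d : ℝ) fun P _ => ?_).trans ?_
    · rw [sum_ite_eq']
      split_ifs
      · exact le_rfl
      · positivity
    · rw [nsmul_eq_mul, mul_comm]
      exact card_irrF_le d
  have h4 : 4 * (Fintype.card F : ℝ) ^ (n / 2) ≤ (Fintype.card F : ℝ) ^ n := by
    calc _ ≤ (Fintype.card F : ℝ) ^ 2 * (Fintype.card F : ℝ) ^ (n / 2) := by
          gcongr; nlinarith
      _ ≤ _ := by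
          rw [← pow_add]
          exact pow_le_pow_right₀ (by linarith) (by omega)
  have h5 : ((monF F n).filter Irreducible).card = (irrF F n).card := by
    unfold irrF; congr
  have hn' : (0 : ℝ) < n := by exact_mod_cast (by omega : 0 < n)
  rw [h5] at h2
  rw [div_le_iff₀ (by positivity)]
  nlinarith

end Pool.Agent.MP_c853c5_nt
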