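import Mathlib
import Pool.Agent.MP_c853c5_nt.SConv

set_option autoImplicit false

namespace Pool.Agent.MP_c853c5_nt

open Polynomial Finset Pool.Agent.MP_4fffd4_nt
open scoped BigOperators

variable {F : Type*} [Field F] [Fintype F]

namespace SDiv

open UniqueFactorizationMonoid

theorem eventually_pow_le (L c : ℕ) (hL : 0 < L) :
    ∃ k₀ : ℕ, ∀ k, k₀ ≤ k → (L * (k + 1)) ^ c ≤ 2 ^ k := by
  have h := isLittleO_pow_const_const_pow_of_one_lt (R := ℝ) c (r := 2) one_lt_two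
  have hL' : (0 : ℝ) < L := by exact_mod_cast hL
  have hε : (0 : ℝ) < 1 / (2 * (L : ℝ) ^ c) := by positivity
  obtain ⟨k₀, hk⟩ := Filter.eventually_atTop.1 (h.bound hε)
  refine ⟨k₀, fun k hk' => ?_⟩
  have h1 := hk (k + 1) (by omega)
  rw [Real.norm_of_nonneg (by positivity), Real.norm_of_nonneg (by positivity)] at h1
  have h2 : ((L : ℝ) * (k + 1)) ^ c ≤ 2 ^ k := by
    rw [mul_pow]
    push_cast at h1
    calc (L : ℝ) ^ c * (k + 1) ^ c ≤ (L : ℝ) ^ c * (1 / (2 * (L : ℝ) ^ c) * 2 ^ (k + 1)) := by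
          gcongr
      _ = 2 ^ k := by field_simp; ring
  exact_mod_cast h2

theorem card_divs_le {g : F[X]} (hg : g ≠ 0) (L : ℕ) (hL : 0 < L) {n : ℕ} (hn : g.natDegree ≤ n) :
    (divs g).card ≤ (n + 1) ^ (Fintype.card F ^ L) * 2 ^ (n / L) := by
  classical
  set s := normalizedFactors g with hs
  have hmem : ∀ P ∈ s, Irreducible P ∧ P.Monic ∧ P ∣ g := fun P hP =>
    (Polynomial.mem_normalizedFactors_iff hg).1 hP
  have h1 : (divs g).card ≤ (Finset.Iic s).card := by
    refine Finset.card_le_card_of_injOn normalizedFactors (fun d hd => ?_) fun d hd e he hde => ?_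
    · obtain ⟨hm, hdv⟩ := (mem_divs hg).1 (Finset.mem_coe.1 hd)
      exact Finset.mem_coe.2 (Finset.mem_Iic.2
        ((dvd_iff_normalizedFactors_le_normalizedFactors hm.ne_zero hg).1 hdv))
    · obtain ⟨hm, -⟩ := (mem_divs hg).1 (Finset.mem_coe.1 hd)
      obtain ⟨hm', -⟩ := (mem_divs hg).1 (Finset.mem_coe.1 he)
      have e1 := prod_normalizedFactors_eq hm.ne_zero
      have e2 := prod_normalizedFactors_eq hm'.ne_zero
      rw [hm.normalize_eq_self] at e1
      rw [hm'.normalize_eq_self] at e2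
      rw [← e1, ← e2, hde]
  have hdeg : ∑ P ∈ s.toFinset, s.count P * P.natDegree ≤ n := by
    have e1 := prod_normalizedFactors_eq hg
    have e2 := natDegree_multiset_prod_of_monic s fun P hP => (hmem P hP).2.1
    rw [Finset.sum_multiset_map_count, e1,
      natDegree_eq_of_degree_eq (degree_normalize (p := g))] at e2
    simpa [← e2] using hn.trans' (by rw [e2]; simp)
  rw [Multiset.card_Iic,
    ← Finset.prod_filter_mul_prod_filter_not s.toFinset (fun P => P.natDegree < L)] at h1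
  refine h1.trans (Nat.mul_le_mul ?_ ?_)
  · refine (Finset.prod_le_pow_card _ _ (n + 1) fun P hP => ?_).trans
      (Nat.pow_le_pow_right (Nat.succ_pos _) ?_)
    · have hP' := (Finset.mem_filter.1 hP).1
      have h2 := Finset.single_le_sum (f := fun P => s.count P * P.natDegree)
        (fun _ _ => Nat.zero_le _) hP'
      have h3 := (hmem P (Multiset.mem_toFinset.1 hP')).1.natDegree_pos
      have h4 : s.count P ≤ s.count P * P.natDegree := Nat.le_mul_of_pos_right _ h3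
      omega
    · rw [← card_ltF]
      refine Finset.card_le_card fun P hP => ?_
      obtain ⟨hP1, hP2⟩ := Finset.mem_filter.1 hP
      rw [mem_ltF]
      exact (natDegree_lt_iff_degree_lt
        (hmem P (Multiset.mem_toFinset.1 hP1)).1.ne_zero).1 hP2
  · calc ∏ P ∈ s.toFinset with ¬ P.natDegree < L, (s.count P + 1)
        ≤ ∏ P ∈ s.toFinset with ¬ P.natDegree < L, 2 ^ s.count P :=
          Finset.prod_le_prod' fun P _ => Nat.lt_two_pow_self
      _ = 2 ^ ∑ P ∈ s.toFinset with ¬ P.natDegree < L, s.count P := Finset.prod_pow_eq_pow_sum _ _ _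
      _ ≤ 2 ^ (n / L) := by
          refine Nat.pow_le_pow_right two_pos ((Nat.le_div_iff_mul_le hL).2 ?_)
          rw [Finset.sum_mul]
          refine le_trans ?_ hdeg
          refine (Finset.sum_le_sum fun P hP => ?_).trans
            (Finset.sum_le_sum_of_subset (Finset.filter_subset (fun P : F[X] => ¬ P.natDegree < L) _))
          exact Nat.mul_le_mul_left _ (not_lt.1 (Finset.mem_filter.1 hP).2)

omit [Fintype F] in
theorem good_inj {d u : ℕ} {P P' : Fin (u + 1) → F[X]}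
    (hP : ∀ i, (P i).Monic ∧ (P i).natDegree = d + i ∧ Irreducible (P i))
    (hP' : ∀ i, (P' i).Monic ∧ (P' i).natDegree = d + i ∧ Irreducible (P' i))
    {s s' : F[X]} (hs' : s' ≠ 0) (hd : s'.natDegree < d)
    (h : (∏ i, P i) * s = (∏ i, P' i) * s') : P = P' := by
  funext i
  obtain ⟨hm, hdeg, hi⟩ := hP i
  have h1 : P i ∣ (∏ i, P' i) * s' :=
    h ▸ (Finset.dvd_prod_of_mem P (Finset.mem_univ i)).mul_right s
  rcases hi.prime.dvd_or_dvd h1 with h2 | h2
  · obtain ⟨j, -, hj⟩ := (Prime.dvd_finsetProd_iff hi.prime _).1 h2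
    obtain ⟨hm', hdeg', hi'⟩ := hP' j
    have e := eq_of_monic_of_associated hm hm' (hi.associated_of_dvd hi' hj)
    have hij : i = j := by
      rw [e, hdeg'] at hdeg
      exact Fin.ext (by omega)
    rw [e, hij]
  · have := natDegree_le_of_dvd h2 hs'
    omega

end SDiv

open Pool.Agent.MP_c853c5_nt.SDiv

theorem divs_bound (M : ℕ) (hM : 0 < M) : ∃ n₀ : ℕ, ∀ n, n₀ ≤ n → ∀ g : F[X], g ≠ 0 →
    g.natDegree ≤ n → ((divs g).card : ℝ) ≤ (Fintype.card F : ℝ) ^ (n / M) := by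
  have hL : 0 < 2 * M := by omega
  obtain ⟨k₀, hk⟩ := eventually_pow_le (2 * M) (Fintype.card F ^ (2 * M)) hL
  refine ⟨k₀ * (2 * M), fun n hn g hg hdeg => ?_⟩
  have h1 := card_divs_le hg (2 * M) hL hdeg
  have h2 := hk (n / (2 * M)) ((Nat.le_div_iff_mul_le hL).2 hn)
  have h3 : n + 1 ≤ 2 * M * (n / (2 * M) + 1) := Nat.lt_mul_div_succ n hL
  have h4 : n / (2 * M) + n / (2 * M) ≤ n / M := by
    rw [Nat.le_div_iff_mul_le hM]
    have := Nat.div_mul_le_self n (2 * M)
    nlinarith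
  have h5 : (divs g).card ≤ Fintype.card F ^ (n / M) :=
    calc (divs g).card ≤ 2 ^ (n / (2 * M)) * 2 ^ (n / (2 * M)) :=
          h1.trans (Nat.mul_le_mul_right _ ((Nat.pow_le_pow_left h3 _).trans h2))
      _ ≤ 2 ^ (n / M) := by rw [← pow_add]; exact Nat.pow_le_pow_right two_pos h4
      _ ≤ Fintype.card F ^ (n / M) := Nat.pow_le_pow_left Fintype.one_lt_card _
  exact_mod_cast h5

theorem goodV_spec {d u : ℕ} {v : F[X]} (hv : v ∈ goodV F d u) :
    v.Monic ∧ v.natDegree = ∑ i : Fin (u + 1), (d + i) ∧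
      ∀ Δ : F[X], Δ ≠ 0 → Δ.natDegree < d → IsCoprime v Δ := by
  obtain ⟨P, hP, rfl⟩ := mem_goodV.1 hv
  refine ⟨monic_prod_of_monic _ _ fun i _ => (hP i).1, ?_, fun Δ hΔ hd => ?_⟩
  · rw [natDegree_prod_of_monic _ _ fun i _ => (hP i).1]
    exact Finset.sum_congr rfl fun i _ => (hP i).2.1
  · refine IsCoprime.prod_left fun i _ => ((hP i).2.2.coprime_iff_not_dvd).2 fun h => ?_
    have h1 := natDegree_le_of_dvd h hΔ
    have h2 := (hP i).2.1
    omega

theorem card_goodV {d u : ℕ} (hd : 4 ≤ d) :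
    (Fintype.card F : ℝ) ^ (∑ i : Fin (u + 1), (d + i)) / (2 * (d + u)) ^ (u + 1) ≤
      (goodV F d u).card := by
  classical
  have h1 : (goodV F d u).card = ∏ i : Fin (u + 1), (irrF F (d + i)).card := by
    rw [goodV, Finset.card_image_of_injOn, Fintype.card_piFinset]
    intro P hP P' hP' h
    simp only [Finset.mem_coe, Fintype.mem_piFinset, mem_irrF] at hP hP'
    exact good_inj hP hP' (s := 1) one_ne_zero (by simp; omega) (by simpa using h)
  rw [h1, ← Finset.prod_pow_eq_pow_sum]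
  push_cast
  have h2 : (2 * ((d : ℝ) + u)) ^ (u + 1) = ∏ _i : Fin (u + 1), (2 * ((d : ℝ) + u)) := by simp
  rw [h2, ← Finset.prod_div_distrib]
  have hd' : (0 : ℝ) < d := by exact_mod_cast (by omega : 0 < d)
  refine Finset.prod_le_prod (fun i _ => by positivity) fun i _ => ?_
  refine le_trans ?_ (card_irrF (F := F) (n := d + i) (by omega))
  have h3 : ((i : ℕ) : ℝ) ≤ u := by exact_mod_cast Nat.lt_succ_iff.1 i.2
  push_cast
  gcongr

theorem gw_le_one {d u r : ℕ} (hr : r < d) (W : F[X]) : gw (goodV F d u) r W ≤ 1 := by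
  unfold gw
  by_cases h : ∃ v ∈ goodV F d u, ∃ s ∈ monF F r, v * s = W
  · obtain ⟨v, hv, s, hs, e⟩ := h
    rw [Finset.sum_eq_single_of_mem v hv, Finset.sum_eq_single_of_mem s hs]
    · exact ind_le_one _
    · intro s' _ hne
      refine ind_neg fun e' => hne ?_
      exact mul_left_cancel₀ (goodV_spec hv).1.ne_zero (e'.trans e.symm)
    · intro v' hv' hne
      refine Finset.sum_eq_zero fun s' _ => ind_neg fun e' => hne ?_
      obtain ⟨P, hP, rfl⟩ := mem_goodV.1 hv
      obtain ⟨P', hP', rfl⟩ := mem_goodV.1 hv'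
      obtain ⟨hm, hdeg⟩ := mem_monF.1 hs
      rw [good_inj hP' hP hm.ne_zero (by omega) (e'.trans e.symm)]
  · push Not at h
    rw [Finset.sum_eq_zero fun v hv => Finset.sum_eq_zero fun s hs => ind_neg (h v hv s hs)]
    exact zero_le_one

namespace SDiv

theorem sum_sq_le [CharP F 2] (h : ℕ) (f : F[X]) :
    ∑ y : degreeLT F h, ind (∃ s : F[X], f + y.1 = s ^ 2) ≤
      (Fintype.card F : ℝ) ^ ((h + 1) / 2) := by
  by_cases h0 : ∃ y : degreeLT F h, ∃ s : F[X], f + y.1 = s ^ 2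
  · obtain ⟨y₀, s₀, e₀⟩ := h0
    have hc : ∀ y : degreeLT F h, ∃ σ : F[X], (∃ s : F[X], f + y.1 = s ^ 2) → f + y.1 = σ ^ 2 := by
      intro y
      by_cases hy : ∃ s : F[X], f + y.1 = s ^ 2
      · exact ⟨hy.choose, fun _ => hy.choose_spec⟩
      · exact ⟨0, fun h' => absurd h' hy⟩
    choose σ hσ using hc
    have h1 := sum_ind_le (P := fun y : degreeLT F h => ∃ s : F[X], f + y.1 = s ^ 2)
      (ltF F ((h + 1) / 2)) (fun y => σ y + s₀) (fun x y hx hy e => ?_) fun y hy => ?_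
    · rw [card_ltF] at h1
      exact_mod_cast h1
    · have e1 : σ x = σ y := add_right_cancel e
      have e2 := hσ x hx
      rw [e1, ← hσ y hy] at e2
      exact Subtype.ext (add_left_cancel e2)
    · rw [mem_ltF]
      by_cases hz : σ y + s₀ = 0
      · rw [hz, degree_zero]
        exact WithBot.bot_lt_coe _
      have e1 : (σ y + s₀) ^ 2 = (y + y₀).1 := by
        rw [CharTwo.add_sq, ← hσ y hy, ← e₀, add_add_add_comm, CharTwo.add_self_eq_zero, zero_add]
        rfl
      have e2 := mem_degreeLT.1 (y + y₀).2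
      rw [← e1, ← natDegree_lt_iff_degree_lt (pow_ne_zero 2 hz), natDegree_pow] at e2
      exact (natDegree_lt_iff_degree_lt hz).1 (by omega)
  · push Not at h0
    rw [Finset.sum_eq_zero fun y _ => ind_neg fun ⟨s, hs⟩ => h0 y s hs]
    positivity

theorem sum_cube_le {n h : ℕ} (f : F[X]) (hn : ∀ y : degreeLT F h, (f + y.1).natDegree = n) :
    ∑ y : degreeLT F h,
      ind (∃ P : F[X], P.Monic ∧ Irreducible P ∧ ∃ a, 3 ≤ a ∧ f + y.1 = P ^ a) ≤
      (n + 1) * (Fintype.card F : ℝ) ^ (n / 3) := by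
  classical
  have hc : ∀ y : degreeLT F h, ∃ π : F[X],
      (∃ P : F[X], P.Monic ∧ Irreducible P ∧ ∃ a, 3 ≤ a ∧ f + y.1 = P ^ a) →
      π.Monic ∧ Irreducible π ∧ ∃ a, 3 ≤ a ∧ f + y.1 = π ^ a := by
    intro y
    by_cases hy : ∃ P : F[X], P.Monic ∧ Irreducible P ∧ ∃ a, 3 ≤ a ∧ f + y.1 = P ^ a
    · exact ⟨hy.choose, fun _ => hy.choose_spec⟩
    · exact ⟨0, fun h' => absurd h' hy⟩
  choose π hπ using hc
  have h1 := sum_ind_le (P := fun y : degreeLT F h =>
      ∃ P : F[X], P.Monic ∧ Irreducible P ∧ ∃ a, 3 ≤ a ∧ f + y.1 = P ^ a)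
    ((range (n / 3 + 1)).biUnion (monF F)) π (fun x y hx hy e => ?_) fun y hy => ?_
  · refine h1.trans ?_
    have h2 : ((range (n / 3 + 1)).biUnion (monF F)).card ≤ (n + 1) * Fintype.card F ^ (n / 3) := by
      refine (Finset.card_biUnion_le_card_mul _ _ (Fintype.card F ^ (n / 3)) fun i hi => ?_).trans
        (Nat.mul_le_mul_right _ ?_)
      · rw [card_monF]
        exact Nat.pow_le_pow_right Fintype.card_pos (Nat.lt_succ_iff.1 (Finset.mem_range.1 hi))
      · rw [Finset.card_range]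
        omega
    exact_mod_cast h2
  · obtain ⟨-, hi, a, -, ea⟩ := hπ x hx
    obtain ⟨-, -, b, -, eb⟩ := hπ y hy
    have d1 := hn x
    have d2 := hn y
    rw [ea, natDegree_pow] at d1
    rw [eb, natDegree_pow, ← e] at d2
    have hab : a = b := Nat.eq_of_mul_eq_mul_right hi.natDegree_pos (d1.trans d2.symm)
    rw [e, hab, ← eb] at ea
    exact Subtype.ext (add_left_cancel ea)
  · obtain ⟨hm, -, a, ha, ea⟩ := hπ y hy
    have d1 := hn y
    rw [ea, natDegree_pow] at d1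
    refine Finset.mem_biUnion.2 ⟨(π y).natDegree, Finset.mem_range.2 (Nat.lt_succ_iff.2 ?_),
      mem_monF.2 ⟨hm, rfl⟩⟩
    rw [Nat.le_div_iff_mul_le (by norm_num)]
    nlinarith

theorem pointwise {g : F[X]} (hg : g.Monic) :
    |(g.natDegree : ℝ) * ind (Irreducible g) - vm g| ≤
      g.natDegree * (ind (∃ s : F[X], g = s ^ 2) +
        ind (∃ P : F[X], P.Monic ∧ Irreducible P ∧ ∃ a, 3 ≤ a ∧ g = P ^ a)) := by
  have hnn := mul_nonneg (Nat.cast_nonneg (α := ℝ) g.natDegree)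
    (add_nonneg (ind_nonneg (∃ s : F[X], g = s ^ 2))
      (ind_nonneg (∃ P : F[X], P.Monic ∧ Irreducible P ∧ ∃ a, 3 ≤ a ∧ g = P ^ a)))
  by_cases hi : Irreducible g
  · have := vm_pow hg hi one_pos
    rw [pow_one] at this
    rwa [ind_pos hi, this, mul_one, sub_self, abs_zero]
  rw [ind_neg hi, mul_zero, zero_sub, abs_neg, abs_of_nonneg (vm_nonneg g)]
  by_cases hP : ∃ P : F[X], P.Monic ∧ Irreducible P ∧ ∃ a, 0 < a ∧ g = P ^ a
  · obtain ⟨P, hm, hPi, a, ha, e⟩ := hP
    have h1 : (1 : ℝ) ≤ ind (∃ s : F[X], g = s ^ 2) +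
        ind (∃ P : F[X], P.Monic ∧ Irreducible P ∧ ∃ a, 3 ≤ a ∧ g = P ^ a) := by
      rw [← ind_pos (P := True) trivial]
      refine ind_le_add fun _ => ?_
      rcases (by omega : a = 1 ∨ a = 2 ∨ 3 ≤ a) with rfl | rfl | h3
      · exact absurd (by rwa [e, pow_one]) hi
      · exact Or.inl ⟨P, e⟩
      · exact Or.inr ⟨P, hm, hPi, a, h3, e⟩
    exact (vm_le g).trans (le_mul_of_one_le_right (Nat.cast_nonneg _) h1)
  · rwa [vm, dif_neg hP]

end SDiv

theorem prime_of_psi [CharP F 2] {n h : ℕ} {f : F[X]} (hf : f.Monic) (hn : f.natDegree = n)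
    (hh : h ≤ n) :
    |(n : ℝ) * ∑ y : degreeLT F h, ind (Irreducible (f + y.1)) - ∑ y : degreeLT F h, vm (f + y.1)| ≤
      n * ((Fintype.card F : ℝ) ^ ((h + 1) / 2) + (n + 1) * (Fintype.card F : ℝ) ^ (n / 3)) := by
  have hd : ∀ y : degreeLT F h, y.1.degree < f.degree := fun y => by
    rw [degree_eq_natDegree hf.ne_zero, hn]
    exact (mem_degreeLT.1 y.2).trans_le (by exact_mod_cast hh)
  have hm : ∀ y : degreeLT F h, (f + y.1).Monic := fun y => hf.add_of_left (hd y)
  have hdeg : ∀ y : degreeLT F h, (f + y.1).natDegree = n := fun y => by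
    rw [natDegree_add_eq_left_of_degree_lt (hd y), hn]
  rw [Finset.mul_sum, ← Finset.sum_sub_distrib]
  refine (Finset.abs_sum_le_sum_abs _ _).trans ?_
  refine (Finset.sum_le_sum fun y _ => (hdeg y) ▸ pointwise (hm y)).trans ?_
  rw [← Finset.mul_sum, Finset.sum_add_distrib]
  exact mul_le_mul_of_nonneg_left (add_le_add (sum_sq_le h f) (sum_cube_le f hdeg))
    (Nat.cast_nonneg _)

end Pool.Agent.MP_c853c5_nt
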