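import Mathlib
import Pool.Agent.MP_c853c5_nt.SKey
import Pool.Agent.MP_c853c5_nt.SDiv

/- The Moebius function along lines `F + x ^ 2 * A`. -/

set_option autoImplicit false

namespace Pool.Agent.MP_c853c5_nt

open Polynomial Finset Pool.Agent.MP_4fffd4_nt
open scoped BigOperators

variable {F : Type*} [Field F] [Fintype F]

namespace SLine

theorem expect_dvd (F₀ : F[X]) {δ : F[X]} (hδ : δ.Monic) {l : ℕ} (h : δ.natDegree ≤ l) :
    𝔼 g : degreeLT F l, ind (δ ∣ F₀ + g.1) ≤ 1 / (Fintype.card F : ℝ) ^ δ.natDegree := by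
  have hq := card_pos' (F := F)
  have h1 := sum_dvd_lt (fun g : degreeLT F l => F₀ %ₘ δ + g.1)
    (fun a b e => Subtype.ext (add_left_cancel e)) (n := l) (fun g => (degree_add_le _ _).trans_lt
      (max_lt ((degree_modByMonic_lt _ hδ).trans_le (degree_le_natDegree.trans
        (by exact_mod_cast h))) (mem_degreeLT.1 g.2))) hδ h
  rw [expect_LT, div_le_iff₀ (by positivity), one_div_mul_eq_div]
  refine le_trans (Finset.sum_le_sum fun g _ => ind_mono fun ⟨c, hc⟩ => ⟨c - F₀ /ₘ δ, ?_⟩) h1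
  linear_combination hc + modByMonic_add_div F₀ δ

omit [Fintype F] in
theorem card_le_natDegree {A : F[X]} (hA : A ≠ 0) (S : Finset F[X])
    (hS : ∀ P ∈ S, P.Monic ∧ Irreducible P ∧ P ∣ A) : S.card ≤ A.natDegree := by
  have h1 : ∏ P ∈ S, P ∣ A := by
    refine Finset.prod_dvd_of_coprime (fun P hP Q hQ hne => ?_) fun P hP => (hS P hP).2.2
    refine (hS P hP).2.1.coprime_iff_not_dvd.2 fun h => hne ?_
    exact eq_of_monic_of_associated (hS P hP).1 (hS Q hQ).1
      ((hS P hP).2.1.associated_of_dvd (hS Q hQ).2.1 h)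
  refine le_trans ?_ (natDegree_le_of_dvd h1 hA)
  rw [natDegree_prod_of_monic _ _ fun P hP => (hS P hP).1, Finset.card_eq_sum_ones]
  exact Finset.sum_le_sum fun P hP => (hS P hP).2.1.natDegree_pos

/-- A square of a prime of medium degree divides `g`. -/
def Bad (d u : ℕ) (g : F[X]) : Prop :=
  ∃ P : F[X], P.Monic ∧ Irreducible P ∧ d ≤ P.natDegree ∧ P.natDegree ≤ d + u ∧ P ^ 2 ∣ g

variable [CharP F 2]

theorem expect_bad {d u l : ℕ} {A B : F[X]} (F₀ : F[X]) (hA : A ≠ 0) (hB : od (A * B) = 1)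
    (hl : 2 * (d + u) ≤ l) : 𝔼 g : degreeLT F l, ind (Bad d u ((F₀ + g.1) * A)) ≤
      (u + 1 + A.natDegree) / (Fintype.card F : ℝ) ^ d := by
  classical
  have hq := card_pos' (F := F)
  have hq1 : (1 : ℝ) ≤ Fintype.card F := one_le_two.trans two_le_card
  set S := (divs A).filter fun P => Irreducible P ∧ d ≤ P.natDegree ∧ P.natDegree ≤ d + u with hS
  have hSc : (S.card : ℝ) ≤ A.natDegree := by
    exact_mod_cast card_le_natDegree hA S fun P hP => by
      rw [hS, mem_filter, mem_divs hA] at hP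
      exact ⟨hP.1.1, hP.2.1, hP.1.2⟩
  calc _ ≤ 𝔼 g : degreeLT F l, (∑ j ∈ range (u + 1), ∑ P ∈ monF F (d + j), ind (P ^ 2 ∣ F₀ + g.1) +
        ∑ P ∈ S, ind (P ∣ F₀ + g.1)) := by
        refine Finset.expect_le_expect fun g _ => ?_
        rw [Finset.sum_sigma']
        refine le_trans (ind_le_add (Q := ∃ p ∈ (range (u + 1)).sigma fun j => monF F (d + j),
          p.2 ^ 2 ∣ F₀ + g.1) (R := ∃ P ∈ S, P ∣ F₀ + g.1) ?_)
          (add_le_add (ind_le_sum id) (ind_le_sum id))
        rintro ⟨P, h1, h2, h3, h4, h5⟩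
        by_cases hPA : P ∣ A
        · right
          refine ⟨P, by rw [hS, mem_filter, mem_divs hA]; exact ⟨⟨h1, hPA⟩, h2, h3, h4⟩, ?_⟩
          by_contra hPF
          have := (h2.coprime_iff_not_dvd.2 hPF).pow_left (m := 2) |>.dvd_of_dvd_mul_left h5
          exact h2.not_isUnit (isUnit_of_dvd_one (hB ▸ dvd_od (this.mul_right B)))
        · left
          exact ⟨⟨P.natDegree - d, P⟩, by simp [mem_monF, h1]; omega,
            (h2.coprime_iff_not_dvd.2 hPA).pow_left (m := 2) |>.dvd_of_dvd_mul_right h5⟩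
    _ ≤ ∑ _j ∈ range (u + 1), 1 / (Fintype.card F : ℝ) ^ d +
        ∑ _P ∈ S, 1 / (Fintype.card F : ℝ) ^ d := by
        rw [Finset.expect_add_distrib, Finset.expect_sum_comm, Finset.expect_sum_comm]
        refine add_le_add (Finset.sum_le_sum fun j hj => ?_) (Finset.sum_le_sum fun P hP => ?_)
        · rw [Finset.expect_sum_comm]
          refine (Finset.sum_le_card_nsmul _ _ (1 / (Fintype.card F : ℝ) ^ (2 * (d + j)))
            fun P hP => ?_).trans ?_
          · obtain ⟨h1, h2⟩ := mem_monF.1 hP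
            have := expect_dvd F₀ (h1.pow 2) (l := l) (by
              rw [h1.natDegree_pow, h2]; have := mem_range.1 hj; omega)
            rwa [h1.natDegree_pow, h2] at this
          · rw [card_monF, nsmul_eq_mul, mul_one_div, div_le_div_iff₀ (by positivity)
              (by positivity), one_mul]
            push_cast
            rw [← pow_add]
            exact pow_le_pow_right₀ hq1 (by omega)
        · rw [hS, mem_filter, mem_divs hA] at hP
          refine (expect_dvd F₀ hP.1.1 (by omega)).trans ?_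
          exact one_div_le_one_div_of_le (by positivity) (pow_le_pow_right₀ hq1 hP.2.2.1)
    _ ≤ _ := by
        rw [Finset.sum_const, Finset.sum_const, card_range, nsmul_eq_mul, nsmul_eq_mul, ← add_mul,
          mul_one_div]
        push_cast
        gcongr

theorem local_line {d u r b i : ℕ} {A G v s : F[X]} (hu : 1 ≤ u) (hr : r < d) (hA : A.Monic)
    (hG : G.Monic) (hi : G.natDegree = i) (hv : v ∈ goodV F d u) (hs : s ∈ monF F r)
    (hN : i + A.natDegree = 2 * (v.natDegree + r) + 1) (hW : v * s = od (G * A))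
    (hl : A.natDegree + 4 * r + 4 * (d + u) ≤ i) (hb : 2 * b * 8 ^ u + 3 * u + 4 ≤ d)
    {χ : degreeLT F (2 * (d + u)) → ℝ} (hχ : Sgn χ) :
    |𝔼 x : degreeLT F (2 * (d + u)), mu (G + (s ^ 2 * x.1) ^ 2 * A) * χ x| ≤
      4 * 𝔼 x : degreeLT F (2 * (d + u)), ind (Bad d u ((G + (s ^ 2 * x.1) ^ 2 * A) * A)) +
        1 / (Fintype.card F : ℝ) ^ b := by
  have hq := card_pos' (F := F)
  have hq2 := two_le_card (F := F)
  have hq1 : (1 : ℝ) ≤ Fintype.card F := one_le_two.trans hq2
  obtain ⟨hvm, -, -⟩ := goodV_spec hv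
  obtain ⟨P, hP, hPv⟩ := mem_goodV.1 hv
  obtain ⟨hs1, hs2⟩ := mem_monF.1 hs
  obtain ⟨σ, hσ⟩ := exists_od (G * A)
  rw [← hW] at hσ
  have e1 : ∀ x : F[X], (G + (s ^ 2 * x) ^ 2 * A) * A =
      (s ^ 2 * A * x + σ) ^ 2 + X * (s * v) ^ 2 := fun x => by
    rw [add_mul, hσ, CharTwo.add_sq]; ring
  have hPd : ∀ j, P j ∣ v := fun j => hPv ▸ Finset.dvd_prod_of_mem _ (mem_univ j)
  have hbad : ∀ (x : F[X]) j, P j ∣ s ^ 2 * A * x + σ →
      Bad d u ((G + (s ^ 2 * x) ^ 2 * A) * A) := fun x j h =>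
    ⟨P j, (hP j).1, (hP j).2.2, by rw [(hP j).2.1]; omega, by rw [(hP j).2.1]; omega, by
      rw [e1]
      exact dvd_add (pow_dvd_pow_of_dvd h 2)
        ((pow_dvd_pow_of_dvd ((hPd j).mul_left s) 2).mul_left _)⟩
  have hle : ∀ x : degreeLT F (2 * (d + u)), |mu (G + (s ^ 2 * x.1) ^ 2 * A) * χ x| ≤ 1 :=
    fun x => by rw [abs_mul, hχ.abs_eq, mul_one]; exact abs_mu_le _
  by_cases h0 : P 0 ∣ A
  · have : ∀ x : degreeLT F (2 * (d + u)),
        ind (Bad d u ((G + (s ^ 2 * x.1) ^ 2 * A) * A)) = 1 := fun x => by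
      refine ind_pos (hbad x.1 0 ((hP 0).2.2.prime.dvd_of_dvd_pow (n := 2) ?_))
      have h1 : P 0 ∣ (G + (s ^ 2 * x.1) ^ 2 * A) * A := h0.mul_left _
      rw [e1] at h1
      exact (dvd_add_left ((dvd_pow ((hPd 0).mul_left s) two_ne_zero).mul_left _)).1 h1
    simp only [this, Fintype.expect_const]
    refine ((Finset.abs_expect_le _ _).trans (Finset.expect_le univ_nonempty
      fun x _ => hle x)).trans ?_
    have : 0 ≤ 1 / (Fintype.card F : ℝ) ^ b := by positivity
    linarith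
  have hns : ∀ j, ¬ P j ∣ s := fun j h => by
    have := natDegree_le_of_dvd h hs1.ne_zero
    rw [(hP j).2.1] at this
    omega
  have hne : ∀ j j', P j ∣ P j' → j = j' := fun j j' h => by
    have := eq_of_monic_of_associated (hP j).1 (hP j').1
      ((hP j).2.2.associated_of_dvd (hP j').2.2 h)
    have := congrArg natDegree this
    rw [(hP j).2.1, (hP j').2.1] at this
    exact Fin.ext (by omega)
  have hmon : ∀ x : degreeLT F (2 * (d + u)), (G + (s ^ 2 * x.1) ^ 2 * A).Monic ∧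
      (G + (s ^ 2 * x.1) ^ 2 * A).natDegree = i := fun x => by
    have : ((s ^ 2 * x.1) ^ 2 * A).degree < G.degree := by
      by_cases hx : x.1 = 0
      · rw [hx, mul_zero, zero_pow two_ne_zero, zero_mul, degree_zero]
        exact bot_lt_iff_ne_bot.2 (degree_ne_bot.2 hG.ne_zero)
      have h1 := (natDegree_lt_iff_degree_lt hx).2 (mem_degreeLT.1 x.2)
      refine degree_lt_degree ?_
      rw [mul_comm _ A, hA.natDegree_mul' (pow_ne_zero _
        (mul_ne_zero (pow_ne_zero _ hs1.ne_zero) hx)), natDegree_pow,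
        (hs1.pow 2).natDegree_mul' hx, natDegree_pow]
      omega
    exact ⟨hG.add_of_left this, by rw [natDegree_add_eq_left_of_degree_lt this, hi]⟩
  have h8 : 2 ^ (Fintype.card (Fin u) * 3) = 8 ^ u := by
    rw [Fintype.card_fin, mul_comm, pow_mul]; norm_num
  have : Nonempty (Fin u) := ⟨⟨0, hu⟩⟩
  have hk := key_tw (J := Fin u) (α := s ^ 2 * A) (σ := σ) hs1 hvm
    (hPv ▸ separable_prod (fun j j' h => (hP j).2.2.coprime_iff_not_dvd.2 fun e => h (hne _ _ e))
      fun j => PerfectField.separable_of_irreducible (hP j).2.2)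
    (hPv ▸ IsCoprime.prod_right fun j _ => ((hP j).2.2.coprime_iff_not_dvd.2 (hns j)).symm)
    (dvd_mul_right _ _) (hP 0).1 (hP 0).2.2 (hPd 0)
    (fun h => ((hP 0).2.2.prime.dvd_or_dvd h).elim
      (fun h => hns 0 ((hP 0).2.2.prime.dvd_of_dvd_pow h)) h0)
    (fun j => P j.succ) (fun j h => Fin.succ_ne_zero j (hne _ _ h).symm) (ρ := d + u)
    (n := 2 * (d + u)) (fun j => by rw [(hP _).2.1]; have := j.succ.2; omega)
    (by rw [(hP 0).2.1]; simp) (by rw [(hP 0).2.1]; simp; omega)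
    (fun R hR h => by
      rw [← hPv, Fin.prod_univ_succ] at h
      refine (hR.prime.dvd_or_dvd h).imp_right fun h => ?_
      obtain ⟨j, -, hj⟩ := (hR.prime.dvd_finsetProd_iff _).1 h
      exact ⟨j, hj⟩)
    (fun x => by
      have h1 : (s ^ 2 * A * x.1 + σ) ^ 2 =
          (G + (s ^ 2 * x.1) ^ 2 * A) * A - X * (s * v) ^ 2 := by rw [e1]; ring
      have h2 := natDegree_sub_le ((G + (s ^ 2 * x.1) ^ 2 * A) * A) (X * (s * v) ^ 2)
      rw [← h1, natDegree_pow, (hmon x).1.natDegree_mul hA, (hmon x).2,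
        monic_X.natDegree_mul ((hs1.mul hvm).pow 2), natDegree_X, natDegree_pow,
        hs1.natDegree_mul hvm] at h2
      rw [hs1.natDegree_mul hvm]
      omega)
    (η := 1 / (2 * (Fintype.card F : ℝ) ^ (b * 8 ^ u))) (B := 1 / (Fintype.card F : ℝ) ^ b)
    (by positivity)
    (by
      rw [(hP 0).2.1, div_pow, div_le_div_iff₀ (by positivity) (by positivity), mul_pow, ← pow_mul]
      calc _ = 2 ^ 4 * (Fintype.card F : ℝ) ^ (b * 8 ^ u * 2) := by ring
        _ ≤ (Fintype.card F : ℝ) ^ 4 * (Fintype.card F : ℝ) ^ (b * 8 ^ u * 2) := by gcongr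
        _ ≤ _ := by
          rw [← pow_add, one_pow, one_mul]
          exact pow_le_pow_right₀ hq1 (by simp; nlinarith))
    (by positivity)
    (by
      rw [h8, (hP 0).2.1, Fintype.card_fin, one_div_pow, ← pow_mul]
      have : 4 * 2 ^ (u * 3) / (Fintype.card F : ℝ) ^ (d + ((0 : Fin (u + 1)) : ℕ)) ≤
          1 / (2 * (Fintype.card F : ℝ) ^ (b * 8 ^ u)) := by
        rw [div_le_div_iff₀ (by positivity) (by positivity)]
        calc _ = 2 ^ (u * 3 + 3) * (Fintype.card F : ℝ) ^ (b * 8 ^ u) := by ring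
          _ ≤ (Fintype.card F : ℝ) ^ (u * 3 + 3) * (Fintype.card F : ℝ) ^ (b * 8 ^ u) := by gcongr
          _ ≤ _ := by
            rw [← pow_add, one_mul]
            rw [mul_assoc] at hb
            exact pow_le_pow_right₀ hq1 (by simp; omega)
      refine (add_le_add this le_rfl).trans_eq ?_
      field_simp
      norm_num)
    hχ
  have hcop : ∀ x : degreeLT F (2 * (d + u)), ind (¬ IsCoprime (s ^ 2 * A * x.1 + σ) v) ≤
      ind (Bad d u ((G + (s ^ 2 * x.1) ^ 2 * A) * A)) := fun x => ind_mono fun h => by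
    by_contra hb
    exact h (hPv ▸ IsCoprime.prod_right fun j _ =>
      ((hP j).2.2.coprime_iff_not_dvd.2 fun e => hb (hbad _ j e)).symm)
  set c : ℝ := ind (∀ R : F[X], Irreducible R → R ∣ s → ¬ R * R ∣ G) * liou A with hc
  have hc1 : |c| ≤ 1 := by
    rw [hc, abs_mul, abs_of_nonneg (ind_nonneg _)]
    refine mul_le_one₀ (ind_le_one _) (abs_nonneg _) ?_
    rcases liou_cases A with h | h <;> simp [h]
  clear_value c
  have hpt : ∀ x : degreeLT F (2 * (d + u)), |mu (G + (s ^ 2 * x.1) ^ 2 * A) * χ x -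
      c * ((liou ((s ^ 2 * A * x.1 + σ) ^ 2 + X * (s * v) ^ 2) : ℝ) * χ x)| ≤
      2 * ind (¬ IsCoprime (s ^ 2 * A * x.1 + σ) v) := fun x => by
    by_cases hx : IsCoprime (s ^ 2 * A * x.1 + σ) v
    · rw [ind_neg (not_not.2 hx), mul_zero, abs_nonpos_iff, ← e1,
        liou_mul (hmon x).1.ne_zero hA.ne_zero, hc, mu]
      have h1 : Squarefree (G + (s ^ 2 * x.1) ^ 2 * A) ↔
          ∀ R : F[X], Irreducible R → R ∣ s → ¬ R * R ∣ G := by
        rw [squarefree_iff_irreducible_sq_not_dvd_of_ne_zero (hmon x).1.ne_zero]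
        have h2 : ∀ R : F[X], R ∣ s → R * R ∣ (s ^ 2 * x.1) ^ 2 * A := fun R h =>
          (mul_dvd_mul h h).trans ⟨s ^ 2 * x.1 ^ 2 * A, by ring⟩
        refine ⟨fun h R hR hRs hRG => h R hR (dvd_add hRG (h2 R hRs)), fun h R hR hRG => ?_⟩
        have h3 : R ^ 2 ∣ (G + (s ^ 2 * x.1) ^ 2 * A) * A := sq R ▸ hRG.mul_right A
        have h4 : R ∣ v * s := by
          have := dvd_od h3
          rwa [e1, od_eq (derivative_odd _ _), mul_comm] at this
        have h5 : R ∣ s ^ 2 * A * x.1 + σ := by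
          rw [e1, mul_comm s v] at h3
          exact hR.prime.dvd_of_dvd_pow (n := 2) ((dvd_add_left
            ((dvd_pow h4 two_ne_zero).mul_left _)).1 ((dvd_pow_self R two_ne_zero).trans h3))
        rcases hR.prime.dvd_or_dvd h4 with h6 | h6
        · exact hR.not_isUnit (hx.isUnit_of_dvd' h5 h6)
        · exact h R hR h6 ((dvd_add_left (h2 R h6)).1 hRG)
      split_ifs with h
      · rw [ind_pos (h1.1 h)]
        rcases liou_cases A with h | h <;> simp [h]
      · rw [ind_neg (mt h1.2 h)]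
        simp
    · rw [ind_pos hx]
      refine (abs_sub _ _).trans ?_
      have : |c * ((liou ((s ^ 2 * A * x.1 + σ) ^ 2 + X * (s * v) ^ 2) : ℝ) * χ x)| ≤ 1 := by
        rw [abs_mul c, abs_mul, hχ.abs_eq, mul_one]
        refine mul_le_one₀ hc1 (abs_nonneg _) ?_
        rcases liou_cases ((s ^ 2 * A * x.1 + σ) ^ 2 + X * (s * v) ^ 2) with h | h <;> simp [h]
      linarith [hle x]
  have h1 := (Finset.abs_expect_le _ _).trans
    (Finset.expect_le_expect (s := univ) fun x _ => hpt x)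
  rw [Finset.expect_sub_distrib, ← Finset.mul_expect, ← Finset.mul_expect] at h1
  have h2 := Finset.expect_le_expect (s := univ) fun x _ => hcop x
  have h3 := abs_sub_abs_le_abs_sub
    (𝔼 x : degreeLT F (2 * (d + u)), mu (G + (s ^ 2 * x.1) ^ 2 * A) * χ x)
    (c * 𝔼 x : degreeLT F (2 * (d + u)),
      (liou ((s ^ 2 * A * x.1 + σ) ^ 2 + X * (s * v) ^ 2) : ℝ) * χ x)
  rw [abs_mul] at h3
  have h4 := mul_le_of_le_one_left (abs_nonneg (𝔼 x : degreeLT F (2 * (d + u)),
      (liou ((s ^ 2 * A * x.1 + σ) ^ 2 + X * (s * v) ^ 2) : ℝ) * χ x)) hc1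
  linarith

end SLine

open SLine in
theorem line [CharP F 2] {d u r b i l : ℕ} {A B F₀ : F[X]} (hu : 1 ≤ u) (hr : r < d) (hA : A.Monic)
    (hB : od (A * B) = 1) (hF : F₀.Monic) (hi : F₀.natDegree = i)
    (hN : i + A.natDegree = 2 * (∑ j : Fin (u + 1), (d + j) + r) + 1) (hl : l ≤ i)
    (hl' : A.natDegree + 4 * r + 4 * (d + u) ≤ l) (hb : 2 * b * 8 ^ u + 3 * u + 4 ≤ d)
    {ψ : F[X] → ℝ} (hψ : Sgn ψ) :
    |𝔼 g : degreeLT F l, mu (F₀ + g.1) * ψ g.1 * gw (goodV F d u) r (od ((F₀ + g.1) * A))| ≤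
      4 * (u + 1 + A.natDegree) / (Fintype.card F : ℝ) ^ d + 1 / (Fintype.card F : ℝ) ^ b := by
  have hq := card_pos' (F := F)
  have key : ∀ v ∈ goodV F d u, ∀ s ∈ monF F r,
      |𝔼 g : degreeLT F l, mu (F₀ + g.1) * ψ g.1 * ind (v * s = od ((F₀ + g.1) * A))| ≤
      𝔼 g : degreeLT F l, ind (v * s = od ((F₀ + g.1) * A)) *
        (4 * ind (Bad d u ((F₀ + g.1) * A)) + 1 / (Fintype.card F : ℝ) ^ b) := by
    intro v hv s hs
    obtain ⟨hs1, hs2⟩ := mem_monF.1 hs
    have hmem : ∀ x : degreeLT F (2 * (d + u)), (s ^ 2 * x.1) ^ 2 * A ∈ degreeLT F l := fun x => by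
      rw [mem_degreeLT]
      by_cases hx : x.1 = 0
      · rw [hx, mul_zero, zero_pow two_ne_zero, zero_mul, degree_zero]
        exact WithBot.bot_lt_coe _
      have h1 := (natDegree_lt_iff_degree_lt hx).2 (mem_degreeLT.1 x.2)
      refine degree_le_natDegree.trans_lt (Nat.cast_lt.2 ?_)
      rw [mul_comm _ A, hA.natDegree_mul' (pow_ne_zero _
        (mul_ne_zero (pow_ne_zero _ hs1.ne_zero) hx)), natDegree_pow,
        (hs1.pow 2).natDegree_mul' hx, natDegree_pow]
      omega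
    have hod : ∀ g x : F[X], od ((F₀ + (g + (s ^ 2 * x) ^ 2 * A)) * A) = od ((F₀ + g) * A) := by
      intro g x
      rw [show (F₀ + (g + (s ^ 2 * x) ^ 2 * A)) * A = (F₀ + g) * A + (s ^ 2 * x * A) ^ 2 by ring,
        od_add, od_of_sq, add_zero]
    rw [expect_avg _ fun x : degreeLT F (2 * (d + u)) => (⟨_, hmem x⟩ : degreeLT F l),
      expect_avg (fun g : degreeLT F l => ind (v * s = od ((F₀ + g.1) * A)) *
        (4 * ind (Bad d u ((F₀ + g.1) * A)) + 1 / (Fintype.card F : ℝ) ^ b))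
        fun x : degreeLT F (2 * (d + u)) => (⟨_, hmem x⟩ : degreeLT F l)]
    refine (Finset.abs_expect_le _ _).trans (Finset.expect_le_expect fun g _ => ?_)
    simp only [Submodule.coe_add, hod, hψ.add]
    by_cases hW : v * s = od ((F₀ + g.1) * A)
    · have hg : g.1.degree < F₀.degree := by
        rw [degree_eq_natDegree hF.ne_zero, hi]
        exact (mem_degreeLT.1 g.2).trans_le (by exact_mod_cast hl)
      have h1 := local_line (b := b) hu hr hA (hF.add_of_left hg)
        ((natDegree_add_eq_left_of_degree_lt hg).trans hi) hv hs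
        (by rw [(goodV_spec hv).2.1]; exact hN) hW (by omega) hb
        (χ := fun x => ψ ((s ^ 2 * x.1) ^ 2 * A))
        (hψ.comp _ fun x y => by rw [Submodule.coe_add, mul_add, CharTwo.add_sq, add_mul])
      simp only [ind_pos hW, mul_one, one_mul, ← add_assoc]
      rw [Finset.expect_add_distrib, Fintype.expect_const, ← Finset.mul_expect]
      refine le_trans (le_of_eq ?_) h1
      rw [← mul_one |𝔼 x : degreeLT F (2 * (d + u)), mu (F₀ + g.1 + (s ^ 2 * x.1) ^ 2 * A) *
        ψ ((s ^ 2 * x.1) ^ 2 * A)|, ← hψ.abs_eq g.1, ← abs_mul, Finset.expect_mul]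
      congr 1
      exact Finset.expect_congr rfl fun x _ => by ring
    · simp [ind_neg hW]
  simp only [gw, Finset.mul_sum, Finset.expect_sum_comm]
  refine (Finset.abs_sum_le_sum_abs _ _).trans ((Finset.sum_le_sum fun v hv =>
    (Finset.abs_sum_le_sum_abs _ _).trans (Finset.sum_le_sum fun s hs => key v hv s hs)).trans ?_)
  simp only [← Finset.expect_sum_comm, ← Finset.sum_mul]
  refine (Finset.expect_le_expect (g := fun g : degreeLT F l =>
    4 * ind (Bad d u ((F₀ + g.1) * A)) + 1 / (Fintype.card F : ℝ) ^ b) fun g _ =>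
      mul_le_of_le_one_left (by have := ind_nonneg (Bad d u ((F₀ + g.1) * A)); positivity)
        (gw_le_one hr _)).trans ?_
  rw [Finset.expect_add_distrib, Fintype.expect_const, ← Finset.mul_expect, mul_div_assoc]
  gcongr
  exact expect_bad F₀ hA.ne_zero hB (by omega)

end Pool.Agent.MP_c853c5_nt
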