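import Mathlib
import Pool.Agent.MP_c853c5_nt.SDefs

/- Short character sums to a powerful modulus, by van der Corput differencing. -/

set_option autoImplicit false

namespace Pool.Agent.MP_c853c5_nt

open Polynomial Finset Pool.Agent.MP_4fffd4_nt
open scoped BigOperators ComplexConjugate

namespace SChar

section Group

variable {V H : Type*} [AddCommGroup V] [Fintype V]

theorem shiftC (g : V → ℂ) (v : V) : 𝔼 x, g (x + v) = 𝔼 x, g x :=
  Fintype.expect_equiv (Equiv.addRight v) _ _ fun _ => rfl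

theorem avgC [Fintype H] [Nonempty H] (g : V → ℂ) (θ : H → V) :
    𝔼 x, g x = 𝔼 x, 𝔼 u, g (x + θ u) := by
  rw [Finset.expect_comm]
  simp only [shiftC]
  rw [Fintype.expect_const]

theorem mul_avg (g g' : V → ℂ) :
    (𝔼 x, g x) * (𝔼 x, g' x) = 𝔼 u, 𝔼 x, g (x + u) * g' x := by
  rw [Finset.expect_comm, Finset.mul_expect]
  refine Finset.expect_congr rfl fun x _ => ?_
  rw [← Finset.expect_mul, ← shiftC g x]
  simp only [add_comm x]

theorem zero_of_shift (g : V → ℂ) (v : V) {ζ : ℂ} (hζ : ζ ≠ 1) (h : ∀ x, g (x + v) = g x * ζ) :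
    𝔼 x, g x = 0 := by
  have h1 := shiftC g v
  simp only [h, ← Finset.expect_mul] at h1
  have h2 : (𝔼 x, g x) * (ζ - 1) = 0 := by linear_combination h1
  exact (mul_eq_zero.1 h2).resolve_right (sub_ne_zero.2 hζ)

theorem vdcC {ι : Type*} [Fintype ι] [DecidableEq ι] (φ : V → ℂ) (s : Finset ι) :
    ‖𝔼 x, φ x‖ ^ 2 ^ s.card ≤
      𝔼 y : ι → V, ‖𝔼 x, ∏ ω ∈ s.powerset, φ (x + ∑ j ∈ ω, y j)‖ := by
  induction s using Finset.induction with
  | empty => simp
  | insert a s ha IH =>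
    rw [card_insert_of_notMem ha, pow_succ, pow_mul]
    refine (pow_le_pow_left₀ (by positivity) IH 2).trans ((sq_expect_le _).trans ?_)
    rw [expect_avg (fun y : ι → V => ‖𝔼 x, ∏ ω ∈ (insert a s).powerset, φ (x + ∑ j ∈ ω, y j)‖)
      (fun u : V => Pi.single a u)]
    refine Finset.expect_le_expect fun y _ => ?_
    rw [← norm_pow, sq, mul_avg]
    refine (RCLike.norm_expect_le (K := ℝ)).trans ?_
    rw [← expect_shift (fun u => ‖𝔼 x, (∏ ω ∈ s.powerset, φ (x + u + ∑ j ∈ ω, y j)) *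
      ∏ ω ∈ s.powerset, φ (x + ∑ j ∈ ω, y j)‖) (y a)]
    refine Finset.expect_le_expect fun u _ => le_of_eq ?_
    congr 1
    refine Finset.expect_congr rfl fun x _ => ?_
    have hc : ∀ ω ∈ s.powerset, ∑ j ∈ ω, (y + Pi.single a u : ι → V) j = ∑ j ∈ ω, y j :=
      fun ω hω => Finset.sum_congr rfl fun j hj => by
        rw [Pi.add_apply, Pi.single_eq_of_ne
          (fun e : j = a => ha (e ▸ mem_powerset.1 hω hj)), add_zero]
    rw [Finset.prod_powerset_insert ha, mul_comm]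
    congr 1
    · exact Finset.prod_congr rfl fun ω hω => by rw [hc ω hω]
    · refine Finset.prod_congr rfl fun ω hω => ?_
      rw [Finset.sum_insert (fun e => ha (mem_powerset.1 hω e)), hc ω hω, Pi.add_apply,
        Pi.single_eq_same]
      congr 1
      abel

theorem last_step (g : V → ℂ) :
    ‖𝔼 x, g x‖ ^ 2 ≤ 𝔼 u, ‖𝔼 x, g (x + u) * conj (g x)‖ := by
  have h1 : conj (𝔼 x, g x) = 𝔼 x, conj (g x) := by
    simp only [Fintype.expect_eq_sum_div_card, map_div₀, map_sum, map_natCast]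
  have h2 : ‖𝔼 x, g x‖ ^ 2 = ‖(𝔼 x, g x) * conj (𝔼 x, g x)‖ := by
    rw [norm_mul, Complex.norm_conj, sq]
  rw [h2, h1, mul_avg]
  exact RCLike.norm_expect_le (K := ℝ)

end Group

section Add

variable {R ι : Type*} [CommRing R] [DecidableEq ι]

/-- The product of `z + ∑ h` over the cube spanned by the `h j`, `j ∈ s`. -/
def PP (s : Finset ι) (h : ι → R) (z : R) : R := ∏ ω ∈ s.powerset, (z + ∑ j ∈ ω, h j)

theorem PP_insert {s : Finset ι} {a : ι} (ha : a ∉ s) (h : ι → R) (z : R) :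
    PP (insert a s) h z = PP s h z * PP s h (z + h a) := by
  unfold PP
  rw [Finset.prod_powerset_insert ha]
  congr 1
  refine Finset.prod_congr rfl fun ω hω => ?_
  rw [Finset.sum_insert (fun e => ha (mem_powerset.1 hω e)), add_assoc]

theorem PP_add (h2 : (2 : R) = 0) (s : Finset ι) (h : ι → R) :
    ∀ z z' : R, PP s h (z + z') = PP s h z + PP s h z' := by
  induction s using Finset.induction with
  | empty => simp [PP]
  | insert a s ha IH =>
    intro z z'
    simp only [PP_insert ha, IH]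
    linear_combination (PP s h z * PP s h z') * h2

omit [DecidableEq ι] in
theorem PP_mul (s : Finset ι) (h : ι → R) (Δ z : R) :
    PP s (fun j => Δ * h j) (Δ * z) = Δ ^ 2 ^ s.card * PP s h z := by
  simp only [PP, ← Finset.mul_sum, ← mul_add, Finset.prod_mul_distrib, Finset.prod_const,
    card_powerset]

end Add

variable {F : Type*} [Field F]

theorem chi_one {K : ℕ} {χ : F[X] → ℂ} (hχ : IsDepth K χ) : χ 1 = 1 := by
  have h1 := hχ.mul 1 X monic_one monic_X
  rw [one_mul, hχ.X, mul_one] at h1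
  exact h1.symm

theorem chi_prod {K : ℕ} {χ : F[X] → ℂ} (hχ : IsDepth K χ) {ι : Type*} (s : Finset ι)
    (g : ι → F[X]) (hg : ∀ i ∈ s, (g i).Monic) : χ (∏ i ∈ s, g i) = ∏ i ∈ s, χ (g i) := by
  classical
  induction s using Finset.induction with
  | empty => simpa using chi_one hχ
  | insert a s ha IH =>
    rw [prod_insert ha, prod_insert ha, hχ.mul _ _ (hg _ (mem_insert_self _ _))
      (monic_prod_of_monic _ _ fun i hi => hg i (mem_insert_of_mem hi)),
      IH fun i hi => hg i (mem_insert_of_mem hi)]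

theorem chi_X_pow {K : ℕ} {χ : F[X] → ℂ} (hχ : IsDepth K χ) (n : ℕ) : χ (X ^ n) = 1 := by
  induction n with
  | zero => simpa using chi_one hχ
  | succ n IH => rw [pow_succ, hχ.mul _ _ (monic_X_pow n) monic_X, IH, hχ.X, one_mul]

theorem step {K f : ℕ} {χ : F[X] → ℂ} (hχ : IsDepth K χ) (hf : 0 < f)
    (hinv : ∀ g z : F[X], g.Monic → z.degree + f < g.degree → χ (g + z) = χ g)
    {g z : F[X]} (hg : g.Monic) (hz : z.natDegree + f = g.natDegree) :
    χ (g + z) = χ g * χ (X ^ f + C z.leadingCoeff) := by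
  have hm : (X ^ f + C z.leadingCoeff).Monic := monic_X_pow_add_C _ hf.ne'
  have hgz : (g + z).Monic := hg.add_of_left (degree_lt_degree (by omega))
  have e : (g + z) * X ^ f =
      g * (X ^ f + C z.leadingCoeff) + (z * X ^ f - C z.leadingCoeff * g) := by ring
  have h1 : (z * X ^ f - C z.leadingCoeff * g).degree < (g.natDegree : WithBot ℕ) := by
    rw [degree_lt_iff_coeff_zero]
    intro n hn
    rw [coeff_sub, coeff_C_mul, coeff_mul_X_pow']
    rw [if_pos (by omega)]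
    rcases hn.eq_or_lt with e1 | e1
    · rw [← e1, hg.coeff_natDegree, mul_one, ← hz, Nat.add_sub_cancel, coeff_natDegree, sub_self]
    · rw [coeff_eq_zero_of_natDegree_lt e1, coeff_eq_zero_of_natDegree_lt (by omega)]
      simp
  rw [← hχ.mul _ _ hg hm, ← hinv _ (z * X ^ f - C z.leadingCoeff * g) (hg.mul hm) ?_, ← e,
    hχ.mul _ _ hgz (monic_X_pow f), chi_X_pow hχ, mul_one]
  rw [degree_mul, degree_X_pow_add_C hf, degree_eq_natDegree hg.ne_zero]
  exact WithBot.add_lt_add_right (by simp) h1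

theorem conductor {K : ℕ} {χ : F[X] → ℂ} (hχ : IsDepth K χ)
    (hnt : ∃ g : F[X], g.Monic ∧ χ g ≠ 1) :
    ∃ (f : ℕ) (c : F) (ζ : ℂ), 0 < f ∧ f ≤ K ∧ c ≠ 0 ∧ ζ ≠ 1 ∧ ∀ g z : F[X], g.Monic →
      z.natDegree + f = g.natDegree → z.leadingCoeff = c → χ (g + z) = χ g * ζ := by
  classical
  have hex : ∃ f : ℕ, ∀ g z : F[X], g.Monic → z.degree + f < g.degree → χ (g + z) = χ g :=
    ⟨K, hχ.inv⟩
  have hinv := Nat.find_spec hex
  have hle : Nat.find hex ≤ K := Nat.find_min' hex hχ.inv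
  have hmin := fun m (hm : m < Nat.find hex) => Nat.find_min hex hm
  generalize Nat.find hex = f at hinv hle hmin
  have hf : 0 < f := by
    rcases Nat.eq_zero_or_pos f with rfl | h
    · obtain ⟨g, hg, hg1⟩ := hnt
      have h1 := hinv (X ^ g.natDegree) (g - X ^ g.natDegree) (monic_X_pow _) (by
        have h3 := degree_eq_natDegree hg.ne_zero
        rw [Nat.cast_zero, add_zero, degree_X_pow, ← h3]
        exact degree_sub_lt_left (by rw [h3, degree_X_pow]) hg.ne_zero (by simp [hg]))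
      rw [add_sub_cancel, chi_X_pow hχ] at h1
      exact absurd h1 hg1
    · exact h
  have hc : ∃ c : F, χ (X ^ f + C c) ≠ 1 := by
    by_contra hc
    push Not at hc
    refine hmin (f - 1) (by omega) fun g z hg hz => ?_
    by_cases h0 : z = 0
    · rw [h0, add_zero]
    rw [degree_eq_natDegree h0, degree_eq_natDegree hg.ne_zero] at hz
    have hz' : z.natDegree + (f - 1) < g.natDegree := by exact_mod_cast hz
    rcases (show z.natDegree + f ≤ g.natDegree by omega).eq_or_lt with e | e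
    · rw [step hχ hf hinv hg e, hc, mul_one]
    · refine hinv g z hg ?_
      rw [degree_eq_natDegree h0, degree_eq_natDegree hg.ne_zero]
      exact_mod_cast e
  obtain ⟨c, hc⟩ := hc
  refine ⟨f, c, _, hf, hle, fun e => hc ?_, hc, fun g z hg hz e => ?_⟩
  · rw [e, map_zero, add_zero, chi_X_pow hχ]
  · rw [step hχ hf hinv hg hz, e]

theorem monic_lin {Δ r x : F[X]} (hr : r.Monic) {d : ℕ} (hd : r.natDegree = Δ.natDegree + d)
    (hx : x.degree < d) : (r + Δ * x).Monic ∧ (r + Δ * x).natDegree = Δ.natDegree + d := by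
  have h1 : (Δ * x).degree < r.degree := by
    by_cases h0 : x = 0
    · rw [h0, mul_zero, degree_zero]
      exact bot_lt_iff_ne_bot.2 (degree_ne_bot.2 hr.ne_zero)
    have h2 := (natDegree_lt_iff_degree_lt h0).2 hx
    have h3 := natDegree_mul_le (p := Δ) (q := x)
    exact degree_lt_degree (by omega)
  exact ⟨hr.add_of_left h1, by rw [natDegree_add_eq_left_of_degree_lt h1, hd]⟩

theorem exists_shift {ι : Type*} (T : Finset ι) (β : ι → F[X]) {t : ℕ}
    (hβ : ∀ i ∈ T, t < (β i).natDegree) {R : F[X]} (hR : R ≠ 0) {c : F} (hc : c ≠ 0) :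
    ∃ y : F[X], y.natDegree = t ∧
      (y * (∏ i ∈ T, (y + β i)) * R).natDegree = t + ∑ i ∈ T, (β i).natDegree + R.natDegree ∧
      (y * (∏ i ∈ T, (y + β i)) * R).leadingCoeff = c := by
  have hβ0 : ∀ i ∈ T, β i ≠ 0 := fun i hi e => by simpa [e] using hβ i hi
  set L : F := (∏ i ∈ T, (β i).leadingCoeff) * R.leadingCoeff with hL
  have hL0 : L ≠ 0 := mul_ne_zero
    (Finset.prod_ne_zero_iff.2 fun i hi => leadingCoeff_ne_zero.2 (hβ0 i hi))
    (leadingCoeff_ne_zero.2 hR)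
  set y : F[X] := C (c / L) * X ^ t with hy
  have h1 : y.natDegree = t := natDegree_C_mul_X_pow _ _ (div_ne_zero hc hL0)
  have h2 : y.leadingCoeff = c / L := leadingCoeff_C_mul_X_pow _ _
  have h3 : ∀ i ∈ T, y.degree < (β i).degree := fun i hi => degree_lt_degree (h1 ▸ hβ i hi)
  have h4 : (y * (∏ i ∈ T, (y + β i)) * R).leadingCoeff = c := by
    rw [leadingCoeff_mul, leadingCoeff_mul, leadingCoeff_prod, h2,
      Finset.prod_congr rfl fun i hi => leadingCoeff_add_of_degree_lt (h3 i hi), mul_assoc, ← hL,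
      div_mul_cancel₀ _ hL0]
  have h5 : y * (∏ i ∈ T, (y + β i)) * R ≠ 0 := leadingCoeff_ne_zero.1 (h4 ▸ hc)
  refine ⟨y, h1, ?_, h4⟩
  have h6 := left_ne_zero_of_mul h5
  rw [natDegree_mul h6 hR, natDegree_mul (left_ne_zero_of_mul h6) (right_ne_zero_of_mul h6),
    natDegree_prod _ _ (Finset.prod_ne_zero_iff.1 (right_ne_zero_of_mul h6)), h1,
    Finset.sum_congr rfl fun i hi => natDegree_add_eq_right_of_degree_lt (h3 i hi)]

theorem good_shift {ι : Type*} [DecidableEq ι] (s : Finset ι) (h : ι → F[X]) (h₀ : F[X])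
    {Δ : F[X]} (hΔ : Δ ≠ 0) {c : F} (hc : c ≠ 0) {d f m n : ℕ}
    (hh : ∀ j, (h j).degree < m) (hh₀ : h₀.degree < m)
    (g₁ : ∀ ω ∈ s.powerset, ¬ (h₀ + ∑ j ∈ ω, h j).degree < n)
    (g₂ : ∀ ω ∈ s.powerset, ω ≠ ∅ → ¬ (∑ j ∈ ω, h j).degree < n)
    (i₁ : f + (2 * 2 ^ s.card - 1) * (m - 1) ≤ 2 * 2 ^ s.card * d)
    (i₂ : 2 * 2 ^ s.card * d < f + 2 * 2 ^ s.card * n) :
    ∃ y : F[X], y.natDegree < n ∧
      (PP s (fun j => Δ * h j) (Δ * y) * PP s (fun j => Δ * h j) (Δ * h₀)).natDegree + f =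
        2 * 2 ^ s.card * (Δ.natDegree + d) ∧
      (PP s (fun j => Δ * h j) (Δ * y) * PP s (fun j => Δ * h j) (Δ * h₀)).leadingCoeff = c := by
  have bd : ∀ b : F[X], b.degree < m → ¬ b.degree < n →
      b ≠ 0 ∧ n ≤ b.natDegree ∧ b.natDegree ≤ m - 1 := by
    intro b h1 h2
    have h0 : b ≠ 0 := fun e => h2 (by rw [e, degree_zero]; exact WithBot.bot_lt_coe _)
    rw [← natDegree_lt_iff_degree_lt h0] at h1 h2
    exact ⟨h0, by omega, by omega⟩
  have hs : ∀ ω : Finset ι, (∑ j ∈ ω, h j).degree < m := fun ω =>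
    mem_degreeLT.1 (Submodule.sum_mem _ fun j _ => mem_degreeLT.2 (hh j))
  have b₁ := fun ω hω => bd _ (mem_degreeLT.1 (Submodule.add_mem _ (mem_degreeLT.2 hh₀)
    (mem_degreeLT.2 (hs ω)))) (g₁ ω hω)
  have b₂ := fun ω (hω : ω ∈ s.powerset.erase ∅) =>
    bd _ (hs ω) (g₂ ω (mem_of_mem_erase hω) (ne_of_mem_erase hω))
  set N := 2 ^ s.card with hN
  have hN1 : 1 ≤ N := Nat.one_le_two_pow
  have c₁ : s.powerset.card = N := card_powerset s
  have c₂ : (s.powerset.erase ∅).card = N - 1 := by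
    rw [card_erase_of_mem (empty_mem_powerset s), c₁]
  set A := ∑ ω ∈ s.powerset, (h₀ + ∑ j ∈ ω, h j).natDegree with hA
  set B := ∑ ω ∈ s.powerset.erase ∅, (∑ j ∈ ω, h j).natDegree with hB
  have A₁ : N * n ≤ A := by
    simpa [c₁] using Finset.card_nsmul_le_sum _ _ _ fun ω hω => (b₁ ω hω).2.1
  have A₂ : A ≤ N * (m - 1) := by
    simpa [c₁] using Finset.sum_le_card_nsmul _ _ _ fun ω hω => (b₁ ω hω).2.2
  have B₁ : (N - 1) * n ≤ B := by
    simpa [c₂] using Finset.card_nsmul_le_sum _ _ _ fun ω hω => (b₂ ω hω).2.1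
  have B₂ : B ≤ (N - 1) * (m - 1) := by
    simpa [c₂] using Finset.sum_le_card_nsmul _ _ _ fun ω hω => (b₂ ω hω).2.2
  obtain ⟨N', hN'⟩ : ∃ N', N = N' + 1 := ⟨N - 1, by omega⟩
  have e₁ : 2 * N - 1 = 2 * N' + 1 := by omega
  have e₂ : N - 1 = N' := by omega
  rw [e₁] at i₁
  rw [e₂] at B₁ B₂
  have t₁ : f + A + B ≤ 2 * N * d := by rw [hN'] at A₂; nlinarith
  have t₂ : 2 * N * d - (f + A + B) < n := by
    have : 2 * N * d < f + A + B + n := by rw [hN'] at A₁ i₂ ⊢; nlinarith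
    omega
  have hP : PP s h h₀ ≠ 0 := Finset.prod_ne_zero_iff.2 fun ω hω => (b₁ ω hω).1
  have hPd : (PP s h h₀).natDegree = A := natDegree_prod _ _ fun ω hω => (b₁ ω hω).1
  have hR : Δ ^ N * (Δ ^ N * PP s h h₀) ≠ 0 :=
    mul_ne_zero (pow_ne_zero _ hΔ) (mul_ne_zero (pow_ne_zero _ hΔ) hP)
  obtain ⟨y, y₁, y₂, y₃⟩ := exists_shift (s.powerset.erase ∅) (fun ω => ∑ j ∈ ω, h j)
    (t := 2 * N * d - (f + A + B)) (fun ω hω => t₂.trans_le (b₂ ω hω).2.1) hR hc
  have e : PP s (fun j => Δ * h j) (Δ * y) * PP s (fun j => Δ * h j) (Δ * h₀) =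
      y * (∏ ω ∈ s.powerset.erase ∅, (y + ∑ j ∈ ω, h j)) * (Δ ^ N * (Δ ^ N * PP s h h₀)) := by
    rw [PP_mul, PP_mul, PP, ← Finset.mul_prod_erase _ _ (empty_mem_powerset s), sum_empty,
      add_zero]
    ring
  refine ⟨y, y₁ ▸ t₂, ?_, e ▸ y₃⟩
  rw [e, y₂, natDegree_mul (pow_ne_zero _ hΔ) (mul_ne_zero (pow_ne_zero _ hΔ) hP),
    natDegree_mul (pow_ne_zero _ hΔ) hP, natDegree_pow, hPd, ← hB, mul_add (2 * N),
    mul_assoc 2 N Δ.natDegree]
  omega

variable [Fintype F]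

theorem expect_small {m n : ℕ} (h : n ≤ m) :
    𝔼 u : degreeLT F m, ind (u.1.degree < n) ≤ 1 / (Fintype.card F : ℝ) ^ (m - n) := by
  rw [expect_LT]
  have h1 := sum_ind_le (P := fun u : degreeLT F m => u.1.degree < n) (ltF F n) (fun u => u.1)
    (fun _ _ _ _ e => Subtype.ext e) fun u hu => mem_ltF.2 hu
  rw [card_ltF, Nat.cast_pow] at h1
  have h2 := card_pos' (F := F)
  refine (div_le_div_of_nonneg_right h1 (by positivity)).trans_eq ?_
  rw [pow_sub₀ _ h2.ne' h]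
  field_simp

theorem coset_bound [CharP F 2] {K : ℕ} {χ : F[X] → ℂ} (hχ : IsDepth K χ) {f : ℕ} {c : F} {ζ : ℂ}
    (hc : c ≠ 0) (hζ : ζ ≠ 1) (hf : ∀ g z : F[X], g.Monic →
      z.natDegree + f = g.natDegree → z.leadingCoeff = c → χ (g + z) = χ g * ζ)
    {Δ r : F[X]} (hΔ : Δ ≠ 0) (hr : r.Monic) {d k m n : ℕ}
    (hd : r.natDegree = Δ.natDegree + d) (hmd : m ≤ d) (hnm : n ≤ m)
    (i₁ : f + (2 * 2 ^ k - 1) * (m - 1) ≤ 2 * 2 ^ k * d)
    (i₂ : 2 * 2 ^ k * d < f + 2 * 2 ^ k * n) :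
    ‖𝔼 x : degreeLT F m, χ (r + Δ * x.1)‖ ^ 2 ^ (k + 1) ≤
      2 ^ (k + 1) / (Fintype.card F : ℝ) ^ (m - n) := by
  have h2 : (2 : F[X]) = 0 := by exact_mod_cast CharP.cast_eq_zero F[X] 2
  have hk : (univ : Finset (Fin k)).card = k := by simp
  have hlt : ∀ x : degreeLT F m, x.1.degree < d := fun x =>
    (mem_degreeLT.1 x.2).trans_le (by exact_mod_cast hmd)
  have h1 := vdcC (fun x : degreeLT F m => χ (r + Δ * x.1)) (univ : Finset (Fin k))
  rw [hk] at h1
  rw [pow_succ, pow_mul]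
  refine (pow_le_pow_left₀ (by positivity) h1 2).trans ((sq_expect_le _).trans ?_)
  refine (Finset.expect_le_expect fun y _ => last_step _).trans ?_
  have key : ∀ (y : Fin k → degreeLT F m) (u : degreeLT F m),
      ‖𝔼 x : degreeLT F m,
        (∏ ω ∈ (univ : Finset (Fin k)).powerset, χ (r + Δ * (x + u + ∑ j ∈ ω, y j).1)) *
        conj (∏ ω ∈ (univ : Finset (Fin k)).powerset, χ (r + Δ * (x + ∑ j ∈ ω, y j).1))‖ ≤
      ∑ ω ∈ (univ : Finset (Fin k)).powerset, ind ((u + ∑ j ∈ ω, y j).1.degree < n) +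
      ∑ ω ∈ (univ : Finset (Fin k)).powerset, ind (ω ≠ ∅ ∧ (∑ j ∈ ω, y j).1.degree < n) := by
    intro y u
    set A : degreeLT F m → F[X] := fun x => PP univ (fun j => Δ * (y j).1) (r + Δ * x.1) with hA
    have eA : ∀ x : degreeLT F m, A x =
        ∏ ω ∈ (univ : Finset (Fin k)).powerset, (r + Δ * (x + ∑ j ∈ ω, y j).1) := fun x =>
      Finset.prod_congr rfl fun ω _ => by
        rw [Submodule.coe_add, Submodule.coe_sum, mul_add, Finset.mul_sum, add_assoc]
    have mA : ∀ x, (A x).Monic := fun x => eA x ▸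
      monic_prod_of_monic _ _ fun ω _ => (monic_lin hr hd (hlt _)).1
    have dA : ∀ x, (A x).natDegree = 2 ^ k * (Δ.natDegree + d) := fun x => by
      rw [eA, natDegree_prod_of_monic _ _ fun ω _ => (monic_lin hr hd (hlt _)).1,
        Finset.sum_congr rfl fun ω _ => (monic_lin hr hd (hlt _)).2, sum_const, card_powerset, hk,
        smul_eq_mul]
    have cA : ∀ x : degreeLT F m, ∏ ω ∈ (univ : Finset (Fin k)).powerset,
        χ (r + Δ * (x + ∑ j ∈ ω, y j).1) = χ (A x) := fun x => by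
      rw [eA, chi_prod hχ _ _ fun ω _ => (monic_lin hr hd (hlt _)).1]
    have aA : ∀ x v : degreeLT F m,
        A (x + v) = A x + PP univ (fun j => Δ * (y j).1) (Δ * v.1) := fun x v => by
      simp only [hA]
      rw [← PP_add h2, Submodule.coe_add, mul_add, add_assoc]
    simp only [cA]
    have triv : ‖𝔼 x : degreeLT F m, χ (A (x + u)) * conj (χ (A x))‖ ≤ 1 :=
      (RCLike.norm_expect_le (K := ℝ)).trans (Finset.expect_le univ_nonempty fun x _ => by
        rw [norm_mul, Complex.norm_conj, hχ.norm _ (mA _), hχ.norm _ (mA _), mul_one])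
    have n₁ := Finset.sum_nonneg (s := (univ : Finset (Fin k)).powerset)
      fun ω _ => ind_nonneg ((u + ∑ j ∈ ω, y j).1.degree < n)
    have n₂ := Finset.sum_nonneg (s := (univ : Finset (Fin k)).powerset)
      fun ω _ => ind_nonneg (ω ≠ ∅ ∧ (∑ j ∈ ω, y j).1.degree < n)
    by_cases g₁ : ∃ ω ∈ (univ : Finset (Fin k)).powerset, (u + ∑ j ∈ ω, y j).1.degree < n
    · have := (ind_pos trivial).symm.le.trans (ind_le_sum fun _ => g₁)
      linarith
    by_cases g₂ : ∃ ω ∈ (univ : Finset (Fin k)).powerset, ω ≠ ∅ ∧ (∑ j ∈ ω, y j).1.degree < n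
    · have := (ind_pos trivial).symm.le.trans (ind_le_sum fun _ => g₂)
      linarith
    obtain ⟨v, v₁, v₂, v₃⟩ := good_shift (univ : Finset (Fin k)) (fun j => (y j).1) u.1 hΔ hc
      (d := d) (f := f) (m := m) (n := n) (fun j => mem_degreeLT.1 (y j).2) (mem_degreeLT.1 u.2)
      (fun ω hω e => g₁ ⟨ω, hω, by rwa [Submodule.coe_add, Submodule.coe_sum]⟩)
      (fun ω hω h0 e => g₂ ⟨ω, hω, h0, by rwa [Submodule.coe_sum]⟩)
      (by rwa [hk]) (by rwa [hk])
    rw [hk] at v₂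
    have hv : v ∈ degreeLT F m :=
      mem_degreeLT.2 (degree_le_natDegree.trans_lt (by exact_mod_cast v₁.trans_le hnm))
    rw [zero_of_shift _ ⟨v, hv⟩ hζ, norm_zero]
    · positivity
    intro x
    have e₁ : A (x + ⟨v, hv⟩ + u) * A x = A (x + ⟨v, hv⟩) * A (x + u) +
        PP univ (fun j => Δ * (y j).1) (Δ * v) * PP univ (fun j => Δ * (y j).1) (Δ * u.1) := by
      simp only [aA]
      linear_combination (-PP univ (fun j => Δ * (y j).1) (Δ * v) *
        PP univ (fun j => Δ * (y j).1) (Δ * u.1)) * h2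
    have e₂ := congrArg χ e₁
    rw [hf _ _ ((mA _).mul (mA _)) (by rw [v₂, (mA _).natDegree_mul (mA _), dA, dA]; ring) v₃,
      hχ.mul _ _ (mA _) (mA _), hχ.mul _ _ (mA _) (mA _)] at e₂
    have u₁ : χ (A x) * conj (χ (A x)) = 1 := by
      rw [Complex.mul_conj', hχ.norm _ (mA _)]; simp
    have u₂ : χ (A (x + ⟨v, hv⟩)) * conj (χ (A (x + ⟨v, hv⟩))) = 1 := by
      rw [Complex.mul_conj', hχ.norm _ (mA _)]; simp
    linear_combination (conj (χ (A x)) * conj (χ (A (x + ⟨v, hv⟩)))) * e₂ -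
      χ (A (x + ⟨v, hv⟩ + u)) * conj (χ (A (x + ⟨v, hv⟩))) * u₁ +
      χ (A (x + u)) * ζ * conj (χ (A x)) * u₂
  refine (Finset.expect_le_expect fun y _ => Finset.expect_le_expect fun u _ => key y u).trans ?_
  simp only [Finset.expect_add_distrib, Finset.expect_sum_comm, Fintype.expect_const]
  have s₁ : ∀ ω ∈ (univ : Finset (Fin k)).powerset, 𝔼 y : Fin k → degreeLT F m,
      𝔼 u : degreeLT F m, ind ((u + ∑ j ∈ ω, y j).1.degree < n) ≤
        1 / (Fintype.card F : ℝ) ^ (m - n) := fun ω _ =>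
    Finset.expect_le univ_nonempty fun y _ => by
      rw [expect_shift (fun u : degreeLT F m => ind (u.1.degree < n))]
      exact expect_small hnm
  have s₂ : ∀ ω ∈ (univ : Finset (Fin k)).powerset, 𝔼 y : Fin k → degreeLT F m,
      ind (ω ≠ ∅ ∧ (∑ j ∈ ω, y j).1.degree < n) ≤ 1 / (Fintype.card F : ℝ) ^ (m - n) := by
    intro ω _
    by_cases hω : ω = ∅
    · simp only [hω, ne_eq, not_true, false_and, ind_neg, not_false_iff, expect_const_zero]
      positivity
    obtain ⟨l, hl⟩ := Finset.nonempty_iff_ne_empty.2 hω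
    have hs : Function.Surjective (∑ j ∈ ω, Pi.evalAddMonoidHom (fun _ => degreeLT F m) j :
        (Fin k → degreeLT F m) →+ degreeLT F m) := by
      intro z
      refine ⟨Pi.single l z, ?_⟩
      rw [AddMonoidHom.finsetSum_apply, Finset.sum_eq_single_of_mem l hl]
      · simp
      · intro j _ hj
        simp [Pi.single_eq_of_ne hj]
    have := expect_surj _ hs fun z => ind (z.1.degree < n)
    simp only [AddMonoidHom.finsetSum_apply, Pi.evalAddMonoidHom_apply] at this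
    refine le_trans (Finset.expect_le_expect fun y _ => ind_mono fun e => e.2) ?_
    rw [this]
    exact expect_small hnm
  refine (add_le_add (Finset.sum_le_card_nsmul _ _ _ s₁)
    (Finset.sum_le_card_nsmul _ _ _ s₂)).trans_eq ?_
  rw [card_powerset, hk, nsmul_eq_mul]
  push_cast
  ring

end SChar

open SChar

variable {F : Type*} [Field F] [Fintype F]

theorem char_sum [CharP F 2] {K : ℕ} {χ : F[X] → ℂ} (hχ : IsDepth K χ)
    (hnt : ∃ g : F[X], g.Monic ∧ χ g ≠ 1) {Δ r₀ : F[X]} (hΔ : Δ ≠ 0) (hr : r₀.Monic) {d k b : ℕ}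
    (hd : r₀.natDegree = Δ.natDegree + d) (h1 : 2 * K ≤ 2 ^ k * d) (h2 : 2 ^ (2 * k + 3) * b ≤ d) :
    ‖𝔼 x : degreeLT F d, χ (r₀ + Δ * x.1)‖ ≤ 2 / (Fintype.card F : ℝ) ^ b := by
  obtain ⟨f, c, ζ, hf0, hfK, hc, hζ, hf⟩ := conductor hχ hnt
  have hq := card_pos' (F := F)
  have hm := fun x : degreeLT F d => monic_lin hr hd (mem_degreeLT.1 x.2)
  by_cases hfd : f ≤ d
  · have hl : c / Δ.leadingCoeff ≠ 0 := div_ne_zero hc (leadingCoeff_ne_zero.2 hΔ)
    have hy : C (c / Δ.leadingCoeff) * X ^ (d - f) ∈ degreeLT F d := by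
      rw [mem_degreeLT, degree_C_mul_X_pow _ hl]
      exact_mod_cast (by omega)
    rw [zero_of_shift _ ⟨_, hy⟩ hζ, norm_zero]
    · positivity
    intro x
    rw [Submodule.coe_add, mul_add, ← add_assoc]
    refine hf _ _ (hm x).1 ?_ ?_
    · rw [(hm x).2, natDegree_mul hΔ (mul_ne_zero (C_ne_zero.2 hl) (pow_ne_zero _ X_ne_zero)),
        natDegree_C_mul_X_pow _ _ hl]
      omega
    · rw [leadingCoeff_mul, leadingCoeff_C_mul_X_pow,
        mul_div_cancel₀ _ (leadingCoeff_ne_zero.2 hΔ)]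
  obtain ⟨N, hN⟩ : ∃ N, 2 ^ k = N + 1 := ⟨2 ^ k - 1, by have := Nat.one_le_two_pow (n := k); omega⟩
  set e := (f - d - 1) / (2 * N + 1) with he
  have e₁ : (2 * N + 1) * e ≤ f - d - 1 := Nat.mul_div_le _ _
  have e₂ : f - d - 1 < (2 * N + 1) * (e + 1) := Nat.lt_mul_div_succ _ (by omega)
  have h3 : 2 ^ (2 * k + 3) = 8 * ((N + 1) * (N + 1)) := by
    rw [← hN]; ring
  rw [h3] at h2
  rw [hN] at h1
  set g := 2 * (N + 1) * b with hg
  have g₁ : 4 * (N + 1) * g ≤ d := by rw [hg]; nlinarith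
  have e₃ : 2 * e ≤ d := by
    by_contra hh
    have : (2 * N + 1) * (2 * e) ≤ (N + 1) * d := by
      have : (2 * N + 1) * (2 * e) = 2 * ((2 * N + 1) * e) := by ring
      omega
    nlinarith
  have g₂ : 2 * g ≤ d := by nlinarith
  obtain ⟨n, hn⟩ : ∃ n, d = n + g + e := ⟨d - g - e, by omega⟩
  have hmd : n + g ≤ d := by omega
  rw [avgC _ fun u : degreeLT F (n + g) =>
    (⟨u.1, degreeLT_mono hmd u.2⟩ : degreeLT F d)]
  refine (RCLike.norm_expect_le (K := ℝ)).trans (Finset.expect_le univ_nonempty fun x _ => ?_)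
  simp only [Submodule.coe_add, mul_add, ← add_assoc]
  have hb := coset_bound hχ hc hζ hf hΔ (hm x).1 (k := k) (hm x).2 hmd (Nat.le_add_right n g)
    (by
      rw [hN, show 2 * (N + 1) - 1 = 2 * N + 1 by omega]
      rcases Nat.eq_zero_or_pos (n + g) with h0 | h0
      · rw [h0]
        nlinarith
      obtain ⟨p, hp⟩ : ∃ p, n + g = p + 1 := ⟨n + g - 1, by omega⟩
      have hd' : d = p + 1 + e := by omega
      rw [hp, Nat.add_sub_cancel]
      have : f ≤ d + (2 * N + 1) * (e + 1) := by omega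
      nlinarith)
    (by
      rw [hN]
      have : (2 * N + 1) * e + d + 1 ≤ f := by omega
      nlinarith)
  rw [Nat.add_sub_cancel_left] at hb
  refine (pow_le_pow_iff_left₀ (norm_nonneg _) (by positivity)
    (pow_ne_zero (k + 1) two_ne_zero)).1 (hb.trans ?_)
  rw [div_pow, ← pow_mul, show b * 2 ^ (k + 1) = g by rw [hg, pow_succ, hN]; ring]
  gcongr
  · norm_num
  · exact Nat.lt_two_pow_self.le

end Pool.Agent.MP_c853c5_nt
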