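import Mathlib
import Pool.Agent.MP_c853c5_nt.SChar
import Pool.Agent.MP_c853c5_nt.SVarA

/- Variance of products in short progressions. -/

set_option autoImplicit false

namespace Pool.Agent.MP_c853c5_nt

open Polynomial Finset Pool.Agent.MP_4fffd4_nt
open scoped BigOperators

variable {F : Type*} [Field F] [Fintype F]

namespace SVar

theorem sum_one_LT (m : ℕ) : ∑ _x : degreeLT F m, (1 : ℝ) = (Fintype.card F : ℝ) ^ m := by
  rw [Finset.sum_const, card_univ, card_degreeLT, nsmul_eq_mul, mul_one, Nat.cast_pow]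

theorem sum_prog {Δ : F[X]} (hΔ : Δ ≠ 0) (m : ℕ) (W w : F[X]) :
    ∑ x : degreeLT F m, ind (W = w + Δ * x.1) =
      ind (Δ ∣ W - w ∧ (W - w).degree < (m + Δ.natDegree : ℕ)) := by
  by_cases h : Δ ∣ W - w ∧ (W - w).degree < (m + Δ.natDegree : ℕ)
  · rw [ind_pos h]
    obtain ⟨⟨y, hy⟩, h2⟩ := h
    have hy' : y ∈ degreeLT F m := by
      rw [mem_degreeLT]
      by_cases h0 : y = 0
      · rw [h0, degree_zero]; exact WithBot.bot_lt_coe _
      have := (natDegree_lt_iff_degree_lt (mul_ne_zero hΔ h0)).2 (hy ▸ h2)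
      rw [natDegree_mul hΔ h0] at this
      exact (natDegree_lt_iff_degree_lt h0).1 (by omega)
    refine sum_ind_unique ⟨y, hy'⟩ fun x => ⟨fun e => Subtype.ext ?_, fun e => ?_⟩
    · refine mul_left_cancel₀ hΔ ?_
      rw [← hy, e, add_sub_cancel_left]
    · rw [e, ← hy, add_sub_cancel]
  · rw [ind_neg h]
    refine Finset.sum_eq_zero fun x _ => ind_neg fun e => h ?_
    rw [e, add_sub_cancel_left]
    exact ⟨dvd_mul_right _ _, mem_degreeLT.1 (mul_mem_degreeLT (by omega) x)⟩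

theorem fibre_le {Δ : F[X]} (hΔ : Δ ≠ 0) (m : ℕ) (s : Finset F[X]) (P : F[X] → Prop)
    (hP : ∀ g ∈ s, ∀ g' ∈ s, P g → P g' →
      Δ ∣ g - g' ∧ (g - g').degree < (m + Δ.natDegree : ℕ)) :
    ∑ g ∈ s, ind (P g) ≤ (Fintype.card F : ℝ) ^ m := by
  by_cases h : ∃ g' ∈ s, P g'
  · obtain ⟨g', h1, h2⟩ := h
    refine (Finset.sum_le_sum fun g hg =>
      (ind_mono fun h3 => hP g hg g' h1 h3 h2).trans_eq (sum_prog hΔ m g g').symm).trans ?_
    rw [Finset.sum_comm, ← sum_one_LT]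
    exact Finset.sum_le_sum fun x _ => sum_ind_eq_le _ _
  · rw [Finset.sum_eq_zero fun g hg => ind_neg fun h3 => h ⟨g, hg, h3⟩]
    positivity

omit [Fintype F] in
theorem exists_res {Δ : F[X]} (hΔ : Δ ≠ 0) (w : F[X]) :
    ∃ ρ : degreeLT F Δ.natDegree, Δ ∣ w - ρ.1 :=
  ⟨⟨w % Δ, mem_degreeLT.2 (by rw [← degree_eq_natDegree hΔ]; exact degree_mod_lt _ hΔ)⟩,
    w / Δ, by linear_combination -(EuclideanDomain.div_add_mod w Δ)⟩

theorem sum_res {Δ : F[X]} (hΔ : Δ ≠ 0) (w : F[X]) :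
    ∑ ρ : degreeLT F Δ.natDegree, ind (Δ ∣ w - ρ.1) = 1 := by
  obtain ⟨ρ, hρ⟩ := exists_res hΔ w
  refine sum_ind_unique ρ fun x => ⟨fun h => ?_, fun e => e ▸ hρ⟩
  have h1 : Δ ∣ (x - ρ : degreeLT F Δ.natDegree).1 := by
    have := dvd_sub hρ h
    rwa [sub_sub_sub_cancel_left] at this
  have h2 := eq_zero_of_dvd_of_degree_lt h1 (by
    rw [degree_eq_natDegree hΔ]; exact mem_degreeLT.1 (x - ρ).2)
  exact sub_eq_zero.1 (Subtype.ext h2)

theorem sum_res_coprime {Δ v : F[X]} (hΔ : Δ ≠ 0) (hv : IsCoprime v Δ) (τ : F[X]) :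
    ∑ ρ : degreeLT F Δ.natDegree, ind (Δ ∣ v * ρ.1 - τ) = 1 := by
  obtain ⟨a, b, hab⟩ := hv
  rw [← sum_res hΔ (a * τ)]
  refine Finset.sum_congr rfl fun ρ _ => ind_congr ⟨?_, ?_⟩
  · rintro ⟨c, hc⟩
    exact ⟨-(a * c) - b * ρ.1, by linear_combination -a * hc + ρ.1 * hab⟩
  · rintro ⟨c, hc⟩
    exact ⟨-(v * c) - b * τ, by linear_combination -v * hc + τ * hab⟩

theorem exists_prog {Δ : F[X]} (hΔ : Δ ≠ 0) (d : ℕ) (ρ : F[X]) :
    ∃ r₁ : F[X], r₁.Monic ∧ r₁.natDegree = Δ.natDegree + d ∧ ∀ G : F[X] → ℂ,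
      ∑ s ∈ monF F (Δ.natDegree + d), (ind (Δ ∣ s - ρ) : ℂ) * G s =
        ∑ x : degreeLT F d, G (r₁ + Δ * x.1) := by
  obtain ⟨σ, hσ⟩ := exists_res hΔ (ρ - X ^ (Δ.natDegree + d))
  have hσ' : σ.1 ∈ degreeLT F (Δ.natDegree + d) := mem_degreeLT.2
    ((mem_degreeLT.1 σ.2).trans_le (by exact_mod_cast Nat.le_add_right _ _))
  obtain ⟨h1, h2⟩ := monic_add_LT ⟨σ.1, hσ'⟩
  refine ⟨_, h1, h2, fun G => ?_⟩
  have h3 : ∀ s ∈ monF F (Δ.natDegree + d), ind (Δ ∣ s - ρ) =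
      ∑ x : degreeLT F d, ind (s = X ^ (Δ.natDegree + d) + σ.1 + Δ * x.1) := by
    intro s hs
    obtain ⟨y, -, rfl⟩ := mem_map.1 hs
    rw [sum_prog hΔ]
    refine ind_congr ⟨fun h => ⟨?_, ?_⟩, fun h => ?_⟩
    · convert dvd_add h hσ using 1
      ring
    · have := mem_degreeLT.1 (y - ⟨σ.1, hσ'⟩).2
      rw [add_comm d]
      convert this using 2
      simp
    · convert dvd_sub h.1 hσ using 1
      ring
  rw [Finset.sum_congr rfl fun s hs => by rw [h3 s hs, Complex.ofReal_sum, Finset.sum_mul],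
    Finset.sum_comm]
  refine Finset.sum_congr rfl fun x _ => ?_
  have h4 : X ^ (Δ.natDegree + d) + σ.1 + Δ * x.1 ∈ monF F (Δ.natDegree + d) := by
    rw [add_assoc]
    exact mem_monF.2 (monic_add_LT ⟨σ.1 + Δ * x.1, add_mem hσ' (mul_mem_degreeLT le_rfl x)⟩)
  rw [Finset.sum_eq_single_of_mem _ h4 fun s _ hs => by rw [ind_neg hs]; simp, ind_pos rfl]
  simp

variable {K : ℕ} {A : Type*} [AddCommGroup A] [Fintype A] {cls : F[X] → A}

/-- The centred count of a progression in each class. -/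
noncomputable def cnt (K : ℕ) (cls : F[X] → A) (Δ : F[X]) (d : ℕ) (ρ : F[X]) (t : A) : ℝ :=
  ∑ s ∈ monF F (Δ.natDegree + d), ind (Δ ∣ s - ρ) * ind (cls s = t) -
    (Fintype.card F : ℝ) ^ d / (Fintype.card F : ℝ) ^ K

theorem cnt_fourier [CharP F 2] (h : Cls K cls) {Δ : F[X]} (hΔ : Δ ≠ 0) {d k b : ℕ}
    (h1 : 2 * K ≤ 2 ^ k * d) (h2 : 2 ^ (2 * k + 3) * b ≤ d) (ρ : F[X]) (ψ : AddChar A ℂ) :
    ‖∑ t, (cnt K cls Δ d ρ t : ℂ) * ψ t‖ ≤
      (Fintype.card F : ℝ) ^ d * (2 / (Fintype.card F : ℝ) ^ b) := by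
  have hq := card_pos' (F := F)
  obtain ⟨r₁, hr, hr', hG⟩ := exists_prog hΔ d ρ
  have e : ∑ t, (cnt K cls Δ d ρ t : ℂ) * ψ t = ∑ x : degreeLT F d, ψ (cls (r₁ + Δ * x.1)) -
      (Fintype.card F : ℂ) ^ d / (Fintype.card F : ℂ) ^ K * ∑ t, ψ t := by
    rw [← hG fun s => ψ (cls s)]
    simp only [cnt]
    push_cast
    simp only [sub_mul, Finset.sum_sub_distrib, Finset.sum_mul, Finset.mul_sum]
    rw [Finset.sum_comm]
    congr 1
    refine Finset.sum_congr rfl fun s _ => ?_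
    rw [Finset.sum_eq_single_of_mem (cls s) (mem_univ _) fun t _ ht => by
      rw [ind_neg ht.symm]; simp, ind_pos rfl]
    simp
  rw [e]
  by_cases hψ : ψ = 0
  · subst hψ
    simp only [AddChar.zero_apply, Finset.sum_const, card_univ, card_degreeLT, h.card,
      nsmul_eq_mul, mul_one, Nat.cast_pow]
    rw [div_mul_cancel₀ _ (pow_ne_zero _ (by exact_mod_cast hq.ne')), sub_self, norm_zero]
    positivity
  · rw [AddChar.sum_eq_zero_iff_ne_zero.2 hψ, mul_zero, sub_zero]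
    obtain ⟨a, ha⟩ := AddChar.ne_zero_iff.1 hψ
    obtain ⟨g, hg, rfl⟩ := h.surj a
    have := char_sum (h.isDepth ψ) ⟨g, hg, ha⟩ hΔ hr hr' h1 h2
    rw [← Fintype.card_mul_expect, card_degreeLT, norm_mul, Complex.norm_natCast, Nat.cast_pow]
    exact mul_le_mul_of_nonneg_left this (by positivity)

omit [Fintype A] in
theorem sum_gw (h : Cls K cls) {T : Finset F[X]} {Δ : F[X]} {d n : ℕ}
    (hT : ∀ v ∈ T, v.Monic ∧ v.natDegree = n + K ∧ IsCoprime v Δ) (hΔ : Δ ≠ 0) {τ : F[X]}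
    (hτ : τ ∈ monF F (n + K + (Δ.natDegree + d))) :
    ∑ x : degreeLT F (d + n), gw T (Δ.natDegree + d) (τ + Δ * x.1) -
      T.card * ((Fintype.card F : ℝ) ^ d / (Fintype.card F : ℝ) ^ K) =
      ∑ ρ : degreeLT F Δ.natDegree, ∑ v ∈ T,
        ind (Δ ∣ v * ρ.1 - τ) * cnt K cls Δ d ρ.1 (cls τ - cls v) := by
  obtain ⟨t1, t2⟩ := mem_monF.1 hτ
  simp only [gw]
  rw [Finset.sum_comm, Finset.sum_comm (t := T), ← nsmul_eq_mul, ← Finset.sum_const,
    ← Finset.sum_sub_distrib]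
  refine Finset.sum_congr rfl fun v hv => ?_
  obtain ⟨v1, v2, v3⟩ := hT v hv
  simp only [cnt, mul_sub, Finset.sum_sub_distrib, Finset.mul_sum]
  rw [← Finset.sum_mul, sum_res_coprime hΔ v3, one_mul, Finset.sum_comm,
    Finset.sum_comm (t := monF F _)]
  congr 1
  refine Finset.sum_congr rfl fun s hs => ?_
  obtain ⟨s1, s2⟩ := mem_monF.1 hs
  rw [sum_prog hΔ, ind_and, ← h.iff_degree (v1.mul s1) t1
    (by rw [v1.natDegree_mul s1, v2, s2]; omega) (by rw [t2]; omega), h.mul _ _ v1 s1,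
    ← one_mul (_ * _), ← sum_res hΔ s, Finset.sum_mul]
  refine Finset.sum_congr rfl fun ρ _ => ?_
  rw [mul_left_comm (ind (Δ ∣ v * ρ.1 - τ))]
  refine ind_mul_congr fun hρ => ?_
  congr 1
  · refine ind_congr ⟨fun e => ?_, fun e => ?_⟩
    · convert dvd_sub e (hρ.mul_left v) using 1
      ring
    · convert dvd_add e (hρ.mul_left v) using 1
      ring
  · exact ind_congr eq_sub_iff_add_eq'.symm

theorem sum_sq_le (h : Cls K cls) {T : Finset F[X]} {Δ : F[X]} {d n : ℕ}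
    (hT : ∀ v ∈ T, v.Monic ∧ v.natDegree = n + K ∧ IsCoprime v Δ) (hΔ : Δ ≠ 0) (ρ : F[X])
    (c : A → ℝ) {S : ℝ} (hc : ∀ ψ : AddChar A ℂ, ‖∑ t, (c t : ℂ) * ψ t‖ ≤ S) :
    ∑ τ ∈ monF F (n + K + (Δ.natDegree + d)),
      (∑ v ∈ T, ind (Δ ∣ v * ρ - τ) * c (cls τ - cls v)) ^ 2 ≤
      (Fintype.card F : ℝ) ^ (d + n) * (S ^ 2 * ((Fintype.card F : ℝ) ^ n * T.card)) := by
  have hq := card_pos' (F := F)
  calc _ = ∑ τ ∈ monF F (n + K + (Δ.natDegree + d)), ∑ a : degreeLT F Δ.natDegree, ∑ t,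
          ind (Δ ∣ τ - a.1 ∧ cls τ = t) *
            (∑ v ∈ T, ind (Δ ∣ v * ρ - a.1) * c (t - cls v)) ^ 2 := by
        refine Finset.sum_congr rfl fun τ _ => ?_
        rw [← one_mul (_ ^ 2), ← sum_res hΔ τ, Finset.sum_mul]
        refine Finset.sum_congr rfl fun a _ => ?_
        simp only [ind_and, mul_assoc]
        rw [← Finset.mul_sum, sum_ind_eq (mem_univ _)]
        refine ind_mul_congr fun ha => ?_
        congr 1
        refine Finset.sum_congr rfl fun v _ => ?_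
        congr 1
        refine ind_congr ⟨fun e => ?_, fun e => ?_⟩
        · convert dvd_add e ha using 1
          ring
        · convert dvd_sub e ha using 1
          ring
    _ ≤ ∑ a : degreeLT F Δ.natDegree, ∑ t, (Fintype.card F : ℝ) ^ (d + n) *
          (∑ v ∈ T, ind (Δ ∣ v * ρ - a.1) * c (t - cls v)) ^ 2 := by
        rw [Finset.sum_comm]
        refine Finset.sum_le_sum fun a _ => ?_
        rw [Finset.sum_comm]
        refine Finset.sum_le_sum fun t _ => ?_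
        rw [← Finset.sum_mul]
        refine mul_le_mul_of_nonneg_right (fibre_le hΔ _ _ _ fun g hg g' hg' e e' => ⟨?_, ?_⟩)
          (sq_nonneg _)
        · convert dvd_sub e.1 e'.1 using 1
          ring
        · obtain ⟨g1, g2⟩ := mem_monF.1 hg
          obtain ⟨g1', g2'⟩ := mem_monF.1 hg'
          rw [← h.iff_degree g1 g1' (by rw [g2]; omega) (by rw [g2']; omega), e.2, e'.2]
    _ ≤ ∑ a : degreeLT F Δ.natDegree, (Fintype.card F : ℝ) ^ (d + n) * (S ^ 2 *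
          ((Fintype.card F : ℝ) ^ n * ∑ v ∈ T, ind (Δ ∣ v * ρ - a.1))) := by
        refine Finset.sum_le_sum fun a _ => ?_
        rw [← Finset.mul_sum]
        refine mul_le_mul_of_nonneg_left ((conv_le T _ cls c hc).trans
          (mul_le_mul_of_nonneg_left ?_ (sq_nonneg _))) (by positivity)
        rw [Finset.mul_sum]
        refine Finset.sum_le_sum fun v hv => ?_
        simp only [mul_assoc]
        rw [← Finset.mul_sum, mul_comm]
        refine mul_le_mul_of_nonneg_right (le_trans (Finset.sum_le_sum fun v' _ =>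
          mul_le_of_le_one_left (ind_nonneg _) (ind_le_one _))
          (fibre_le one_ne_zero n T (fun v' => cls v = cls v') fun g hg g' hg' e e' =>
            ⟨one_dvd _, ?_⟩)) (ind_nonneg _)
        rw [natDegree_one, add_zero, ← h.iff_degree (hT g hg).1 (hT g' hg').1 (hT g hg).2.1
          (hT g' hg').2.1, ← e, ← e']
    _ = _ := by
        simp only [← Finset.mul_sum]
        rw [Finset.sum_comm]
        simp only [sum_res hΔ, Finset.sum_const, nsmul_eq_mul, mul_one]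

end SVar

open SVar in
theorem variance [CharP F 2] {T : Finset F[X]} {N₁ r L k b : ℕ} {Δ : F[X]}
    (hT : ∀ v ∈ T, v.Monic ∧ v.natDegree = N₁ ∧ IsCoprime v Δ) (hΔ : Δ ≠ 0)
    (h1 : Δ.natDegree ≤ r) (h2 : r ≤ L + Δ.natDegree) (h3 : L + Δ.natDegree ≤ N₁ + r)
    (h4 : 2 * (N₁ + r) ≤ 2 ^ k * (r - Δ.natDegree))
    (h5 : 2 ^ (2 * k + 3) * b ≤ r - Δ.natDegree) :
    𝔼 τ : degreeLT F (N₁ + r), (𝔼 x : degreeLT F L, gw T r (X ^ (N₁ + r) + τ.1 + Δ * x.1) -
      T.card / (Fintype.card F : ℝ) ^ N₁) ^ 2 ≤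
      4 * (Fintype.card F : ℝ) ^ Δ.natDegree / (Fintype.card F : ℝ) ^ (2 * b) := by
  have hq := card_pos' (F := F)
  obtain ⟨d, rfl⟩ := Nat.exists_eq_add_of_le h1
  obtain ⟨n, rfl⟩ := Nat.exists_eq_add_of_le (show d ≤ L by omega)
  obtain ⟨K, rfl⟩ := Nat.exists_eq_add_of_le (show n ≤ N₁ by omega)
  rw [Nat.add_sub_cancel_left] at h4 h5
  obtain ⟨A, _, _, cls, h⟩ := exists_cls F K
  have hTc : (T.card : ℝ) ≤ (Fintype.card F : ℝ) ^ (n + K) := by
    rw [← Nat.cast_pow, ← card_monF, Nat.cast_le]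
    exact card_le_card fun v hv => mem_monF.2 ⟨(hT v hv).1, (hT v hv).2.1⟩
  rw [expect_LT, ← sum_monF (n + K + (Δ.natDegree + d)) fun τ => (𝔼 x : degreeLT F (d + n),
    gw T (Δ.natDegree + d) (τ + Δ * x.1) - T.card / (Fintype.card F : ℝ) ^ (n + K)) ^ 2,
    div_le_iff₀ (by positivity)]
  calc _ ≤ ∑ τ ∈ monF F (n + K + (Δ.natDegree + d)), (Fintype.card F : ℝ) ^ Δ.natDegree /
          ((Fintype.card F : ℝ) ^ (d + n)) ^ 2 * ∑ ρ : degreeLT F Δ.natDegree,
          (∑ v ∈ T, ind (Δ ∣ v * ρ.1 - τ) * cnt K cls Δ d ρ.1 (cls τ - cls v)) ^ 2 := by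
        refine Finset.sum_le_sum fun τ hτ => ?_
        have e : 𝔼 x : degreeLT F (d + n), gw T (Δ.natDegree + d) (τ + Δ * x.1) -
            T.card / (Fintype.card F : ℝ) ^ (n + K) = (∑ ρ : degreeLT F Δ.natDegree, ∑ v ∈ T,
              ind (Δ ∣ v * ρ.1 - τ) * cnt K cls Δ d ρ.1 (cls τ - cls v)) /
              (Fintype.card F : ℝ) ^ (d + n) := by
          rw [← sum_gw h hT hΔ hτ, expect_LT]
          field_simp
          ring
        rw [e, div_pow, div_mul_eq_mul_div]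
        refine div_le_div_of_nonneg_right (sq_sum_le_card_mul_sum_sq.trans_eq ?_) (by positivity)
        rw [card_univ, card_degreeLT, Nat.cast_pow]
    _ ≤ (Fintype.card F : ℝ) ^ Δ.natDegree / ((Fintype.card F : ℝ) ^ (d + n)) ^ 2 *
          ∑ _ρ : degreeLT F Δ.natDegree, (Fintype.card F : ℝ) ^ (d + n) *
            (((Fintype.card F : ℝ) ^ d * (2 / (Fintype.card F : ℝ) ^ b)) ^ 2 *
              ((Fintype.card F : ℝ) ^ n * (Fintype.card F : ℝ) ^ (n + K))) := by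
        rw [← Finset.mul_sum, Finset.sum_comm]
        refine mul_le_mul_of_nonneg_left (Finset.sum_le_sum fun ρ _ => ?_) (by positivity)
        refine (sum_sq_le h hT hΔ ρ.1 _ (cnt_fourier h hΔ (k := k) (by omega) h5 ρ.1)).trans ?_
        gcongr
    _ = _ := by
        rw [Finset.sum_const, card_univ, card_degreeLT, nsmul_eq_mul, Nat.cast_pow]
        field_simp
        ring

end Pool.Agent.MP_c853c5_nt
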