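import Mathlib
import Pool.Agent.MP_c853c5_nt.SLine
import Pool.Agent.MP_c853c5_nt.SVar

/- Choice of the weight: cancellation on lines together with small variance. -/

set_option autoImplicit false

namespace Pool.Agent.MP_c853c5_nt

open Polynomial Finset Filter Pool.Agent.MP_4fffd4_nt
open scoped BigOperators

theorem poly_le (c U C : ℕ) (hC : 0 < C) : ∃ N₀ : ℕ, ∀ N, N₀ ≤ N → (c * N) ^ U ≤ 2 ^ (N / C) := by
  have h1 := tendsto_pow_const_div_const_pow_of_one_lt U (r := 2) one_lt_two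
  have h2 : (0 : ℝ) < 1 / (2 * ((c * C : ℕ) + 1) ^ U) := by positivity
  obtain ⟨m₀, hm⟩ := eventually_atTop.1 (h1.eventually (gt_mem_nhds h2))
  refine ⟨C * m₀, fun N hN => ?_⟩
  have h3 : m₀ ≤ N / C := (Nat.le_div_iff_mul_le hC).2 (by rwa [mul_comm])
  have h4 := hm (N / C + 1) (by omega)
  have h5 : N ≤ C * (N / C + 1) := (Nat.lt_mul_div_succ N hC).le
  generalize N / C = m at h4 h5 ⊢
  rw [div_lt_div_iff₀ (by positivity) (by positivity)] at h4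
  have h6 : ((m + 1) ^ U * (2 * (c * C + 1) ^ U) : ℕ) < 1 * 2 ^ (m + 1) := by exact_mod_cast h4
  have h7 : (c * N) ^ U ≤ (m + 1) ^ U * (c * C + 1) ^ U := by
    rw [← mul_pow]
    exact Nat.pow_le_pow_left (by nlinarith) U
  rw [pow_succ] at h6
  nlinarith

/-- A weight with cancellation on lines and small variance. -/
structure Pack {F : Type*} [Field F] [Fintype F] [CharP F 2] (N L κ : ℕ) (w : F[X] → ℝ) (ρ : ℝ) :
    Prop where
  w01 : ∀ W, 0 ≤ w W ∧ w W ≤ 1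
  le : ρ ≤ 1
  ge : 1 / (Fintype.card F : ℝ) ^ κ ≤ ρ
  line : ∀ (A B F₀ : F[X]) (l : ℕ) (ψ : F[X] → ℝ), A.Monic → od (A * B) = 1 → F₀.Monic →
    F₀.natDegree + A.natDegree = 2 * N + 1 → l ≤ F₀.natDegree → A.natDegree + 2 * L ≤ l → Sgn ψ →
    |𝔼 g : degreeLT F l, mu (F₀ + g.1) * ψ g.1 * w (od ((F₀ + g.1) * A))| ≤
      1 / (Fintype.card F : ℝ) ^ (3 * κ)
  var : ∀ Δ : F[X], Δ ≠ 0 → Δ.natDegree ≤ 6 * κ →
    𝔼 τ : degreeLT F N, (𝔼 x : degreeLT F L, w (X ^ N + τ.1 + Δ * x.1) - ρ) ^ 2 ≤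
      1 / (Fintype.card F : ℝ) ^ (40 * κ)

theorem pack_of {F : Type*} [Field F] [Fintype F] [CharP F 2] {N L κ d u r k : ℕ} (hu : 7 ≤ u)
    (hr : r < d) (hN : ∑ j : Fin (u + 1), (d + j) + r = N) (h1 : 4 * d + 2 * u ≤ L)
    (h2 : 2 * L ≤ N) (h3 : 2 * (4 * κ) * 8 ^ u + 3 * u + 4 ≤ d) (h4 : 6 * κ ≤ r)
    (h5 : 2 * N ≤ 2 ^ k * (r - 6 * κ)) (h6 : 2 ^ (2 * k + 3) * (24 * κ) ≤ r - 6 * κ)
    (h7 : (2 * N) ^ (u + 1) ≤ 2 ^ κ) (h8 : 1 ≤ κ) :
    ∃ (w : F[X] → ℝ) (ρ : ℝ), Pack N L κ w ρ := by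
  have hq := card_pos' (F := F)
  have hq2 := two_le_card (F := F)
  have hq1 : (1 : ℝ) ≤ Fintype.card F := one_le_two.trans hq2
  have h9 : ((2 * N : ℝ)) ^ (u + 1) ≤ (Fintype.card F : ℝ) ^ κ :=
    le_trans (by exact_mod_cast h7) (pow_le_pow_left₀ zero_le_two hq2 κ)
  have h10 : 5 * κ ≤ d := by
    have := Nat.one_le_pow u 8 (by norm_num)
    nlinarith
  refine ⟨gw (goodV F d u) r, (goodV F d u).card /
    (Fintype.card F : ℝ) ^ (∑ j : Fin (u + 1), (d + j)), fun W => ⟨gw_nonneg _ _ _,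
      gw_le_one hr W⟩, ?_, ?_, fun A B F₀ l ψ hA hB hF hd hl hl' hψ => ?_, fun Δ hΔ hd => ?_⟩
  · rw [div_le_one (by positivity), ← Nat.cast_pow, ← card_monF, Nat.cast_le]
    exact Finset.card_le_card fun v hv => mem_monF.2 ⟨(goodV_spec hv).1, (goodV_spec hv).2.1⟩
  · rw [le_div_iff₀ (by positivity), one_div_mul_eq_div]
    refine le_trans ?_ (card_goodV (by omega))
    have : (0 : ℝ) < d := by exact_mod_cast (by omega)
    refine div_le_div_of_nonneg_left (by positivity) (by positivity) (le_trans ?_ h9)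
    have : (d + u : ℝ) ≤ N := by exact_mod_cast (by omega)
    gcongr
  · refine (line (b := 4 * κ) (by omega) hr hA hB hF rfl (by rw [hN, hd]) hl (by omega) h3
      hψ).trans ?_
    have e1 : 4 * ((u : ℝ) + 1 + A.natDegree) ≤ (Fintype.card F : ℝ) ^ κ := by
      refine le_trans ?_ h9
      have : 4 * (u + 1 + A.natDegree) ≤ (2 * N) ^ (u + 1) := by
        have a1 : (2 * N) ^ 2 ≤ (2 * N) ^ (u + 1) := Nat.pow_le_pow_right (by omega) (by omega)
        have a2 : 4 * (u + 1 + A.natDegree) ≤ 16 * N := by omega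
        nlinarith
      exact_mod_cast this
    have e2 : 4 * ((u : ℝ) + 1 + A.natDegree) / (Fintype.card F : ℝ) ^ d ≤
        1 / (Fintype.card F : ℝ) ^ (4 * κ) := by
      rw [div_le_div_iff₀ (by positivity) (by positivity), one_mul]
      refine (mul_le_mul_of_nonneg_right e1 (by positivity)).trans ?_
      rw [← pow_add]
      exact pow_le_pow_right₀ hq1 (by omega)
    refine (add_le_add e2 le_rfl).trans ?_
    rw [← add_div, div_le_div_iff₀ (by positivity) (by positivity), one_mul]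
    calc _ ≤ (Fintype.card F : ℝ) ^ 1 * (Fintype.card F : ℝ) ^ (3 * κ) := by
          gcongr; linarith
      _ ≤ _ := by rw [← pow_add]; exact pow_le_pow_right₀ hq1 (by omega)
  · have := variance (T := goodV F d u) (N₁ := ∑ j : Fin (u + 1), (d + j)) (r := r) (L := L)
      (k := k) (b := 24 * κ) (Δ := Δ) (fun v hv => ⟨(goodV_spec hv).1, (goodV_spec hv).2.1,
        (goodV_spec hv).2.2 Δ hΔ (by omega)⟩) hΔ (by omega) (by omega) (by omega)
      (hN ▸ h5.trans (Nat.mul_le_mul_left _ (by omega))) (by omega)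
    rw [hN] at this
    refine this.trans ?_
    rw [div_le_div_iff₀ (by positivity) (by positivity), one_mul]
    calc _ ≤ (Fintype.card F : ℝ) ^ 2 * (Fintype.card F : ℝ) ^ Δ.natDegree *
          (Fintype.card F : ℝ) ^ (40 * κ) := by
          gcongr; nlinarith
      _ ≤ _ := by rw [← pow_add, ← pow_add]; exact pow_le_pow_right₀ hq1 (by omega)

theorem exists_pack (R : ℕ) (hR : 1 ≤ R) : ∃ C : ℕ, 100 * R ≤ C ∧ ∃ N₀ : ℕ, ∀ N, N₀ ≤ N →
    ∀ L, N ≤ R * L → 2 * L ≤ N → ∀ (F : Type*) [Field F] [Fintype F] [CharP F 2],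
      ∃ (w : F[X] → ℝ) (ρ : ℝ), Pack N L (N / C) w ρ := by
  obtain ⟨u, hu⟩ : ∃ u, u + 1 = 8 * R := ⟨8 * R - 1, by omega⟩
  obtain ⟨k, hk⟩ : ∃ k, 16 * (u + 1) ≤ 2 ^ k := ⟨_, Nat.lt_two_pow_self.le⟩
  obtain ⟨c₀, hc₀⟩ : ∃ c₀ : ℕ, ∀ d : ℕ, ∑ j : Fin (u + 1), (d + j) = (u + 1) * d + c₀ :=
    ⟨∑ j : Fin (u + 1), (j : ℕ), fun d => by rw [Finset.sum_add_distrib]; simp⟩
  set C' := 96 * 2 ^ (2 * k + 3) + 16 * 8 ^ u + 100 with hC'
  have hC : 0 < 2 * (u + 1) * C' := by positivity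
  obtain ⟨N₁, hN₁⟩ := poly_le 2 (u + 1) _ hC
  refine ⟨2 * (u + 1) * C', by
    have : 100 ≤ C' := Nat.le_add_left _ _
    nlinarith, N₁ + 2 * (u + 1) * C' + c₀ +
    (2 * (u + 1) + 1) * (2 * c₀ + 6 * u + 8), fun N hN L hL hL' F _ _ _ => ?_⟩
  obtain ⟨N', rfl⟩ : ∃ N', N = N' + c₀ := ⟨N - c₀, by omega⟩
  have a1 := Nat.div_mul_le_self (2 * N') (2 * (u + 1) + 1)
  have a2 := Nat.lt_mul_div_succ (2 * N') (b := 2 * (u + 1) + 1) (by omega)
  have a3 : 2 * c₀ + 6 * u + 8 ≤ 2 * N' / (2 * (u + 1) + 1) :=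
    (Nat.le_div_iff_mul_le (by omega)).2 (by rw [mul_comm]; omega)
  generalize 2 * N' / (2 * (u + 1) + 1) = d at a1 a2 a3
  obtain ⟨r, hr⟩ : ∃ r, (u + 1) * d + r = N' := ⟨N' - (u + 1) * d, by
    have : (u + 1) * d ≤ N' := by nlinarith
    omega⟩
  have b1 : d ≤ 2 * r := by nlinarith
  have b2 : r < d := by nlinarith
  have b3 : N' + c₀ ≤ 2 * (u + 1) * d := by nlinarith
  have b4 := Nat.div_mul_le_self (N' + c₀) (2 * (u + 1) * C')
  have b5 : 1 ≤ (N' + c₀) / (2 * (u + 1) * C') := (Nat.le_div_iff_mul_le hC).2 (by omega)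
  have b6 := hN₁ (N' + c₀) (by omega)
  generalize (N' + c₀) / (2 * (u + 1) * C') = κ at b4 b5 b6 ⊢
  have b7 : κ * C' ≤ d := Nat.le_of_mul_le_mul_left (c := 2 * (u + 1)) (by nlinarith) (by omega)
  have b8 : 8 * d ≤ L := Nat.le_of_mul_le_mul_left (c := R) (by nlinarith) (by omega)
  rw [hC', mul_add, mul_add] at b7
  refine pack_of (d := d) (u := u) (r := r) (k := k) (by omega) b2 (by rw [hc₀]; omega) (by omega)
    hL' (by
      have : κ * (16 * 8 ^ u) = 2 * (2 * (4 * κ) * 8 ^ u) := by ring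
      omega) (by omega) ?_ (by
      have : κ * (96 * 2 ^ (2 * k + 3)) = 4 * (2 ^ (2 * k + 3) * (24 * κ)) := by ring
      omega) b6 b5
  have b9 : d ≤ 4 * (r - 6 * κ) := by omega
  calc _ ≤ 16 * (u + 1) * (r - 6 * κ) := by nlinarith
    _ ≤ _ := Nat.mul_le_mul_right _ hk

end Pool.Agent.MP_c853c5_nt
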