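import Mathlib
import Pool.Agent.MP_c853c5_nt.SConv

set_option autoImplicit false

namespace Pool.Agent.MP_c853c5_nt

open Polynomial Finset Pool.Agent.MP_4fffd4_nt
open scoped BigOperators

variable {F : Type*} [Field F] [Fintype F]

namespace SPsi

open Classical in
theorem sum_ind_mul {α : Type*} (s : Finset α) (p : α → Prop) (φ : α → ℝ) :
    ∑ x ∈ s, ind (p x) * φ x = ∑ x ∈ s.filter p, φ x := by
  rw [Finset.sum_filter]
  refine Finset.sum_congr rfl fun x _ => ?_
  by_cases h : p x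
  · rw [ind_pos h, if_pos h, one_mul]
  · rw [ind_neg h, if_neg h, zero_mul]

theorem ind_congr {P Q : Prop} (h : P ↔ Q) : ind P = ind Q := by rw [propext h]

theorem sum_LT (n : ℕ) (G : F[X] → ℝ) : ∑ y : degreeLT F n, G y.1 = ∑ g ∈ ltF F n, G g := by
  rw [ltF, Finset.sum_map]
  rfl

theorem sum_divs_lt {m : F[X]} (hm : m ≠ 0) (V : ℕ) (φ : F[X] → ℝ) :
    ∑ e ∈ divs m, ind (e.natDegree < V) * φ e =
      ∑ v ∈ range V, ∑ e ∈ monF F v, ind (e ∣ m) * φ e := by
  classical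
  have h1 : ∀ v, ∑ e ∈ monF F v, ind (e ∣ m) * φ e =
      ∑ e ∈ divs m, ind (e.natDegree = v) * φ e := by
    intro v
    rw [sum_ind_mul, sum_ind_mul]
    refine Finset.sum_congr ?_ fun _ _ => rfl
    ext e
    simp only [mem_filter, mem_monF, mem_divs hm]
    tauto
  simp only [h1]
  rw [Finset.sum_comm]
  refine Finset.sum_congr rfl fun e _ => ?_
  rw [← Finset.sum_mul]
  congr 1
  by_cases h : e.natDegree < V
  · rw [ind_pos h, Finset.sum_eq_single e.natDegree, ind_pos rfl]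
    · exact fun b _ hb => ind_neg fun h' => hb h'.symm
    · exact fun h' => absurd (mem_range.2 h) h'
  · rw [ind_neg h]
    refine (Finset.sum_eq_zero fun v hv => ind_neg fun h' => h ?_).symm
    rw [h']
    exact mem_range.1 hv

theorem sum_divs {m : F[X]} (hm : m ≠ 0) (φ : F[X] → ℝ) :
    ∑ e ∈ divs m, φ e =
      ∑ v ∈ range (m.natDegree + 1), ∑ e ∈ monF F v, ind (e ∣ m) * φ e := by
  rw [← sum_divs_lt hm]
  refine Finset.sum_congr rfl fun e he => ?_
  rw [ind_pos (Nat.lt_succ_of_le (natDegree_le_of_dvd ((mem_divs hm).1 he).2 hm)), one_mul]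

omit [Fintype F] in
theorem monic_div {g d : F[X]} (hg : g.Monic) (hd : d.Monic) (h : d ∣ g) : (g /ₘ d).Monic := by
  obtain ⟨c, rfl⟩ := h
  rw [mul_divByMonic_cancel_left _ hd]
  exact hd.of_mul_monic_left hg

omit [Fintype F] in
theorem dvd_div_iff {g d e : F[X]} (hd : d.Monic) : d ∣ g ∧ e ∣ g /ₘ d ↔ d * e ∣ g := by
  constructor
  · rintro ⟨⟨c, rfl⟩, h⟩
    rw [mul_divByMonic_cancel_left _ hd] at h
    exact mul_dvd_mul_left d h
  · rintro ⟨c, rfl⟩
    rw [mul_assoc, mul_divByMonic_cancel_left _ hd]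
    exact ⟨dvd_mul_right _ _, dvd_mul_right _ _⟩

theorem sum_pairs {g : F[X]} (hg : g.Monic) (φ : F[X] → F[X] → ℝ) :
    ∑ d ∈ divs g, ∑ e ∈ divs (g /ₘ d), φ d e = ∑ e ∈ divs g, ∑ d ∈ divs (g /ₘ e), φ d e := by
  have key : ∀ d e : F[X], d ∈ divs g ∧ e ∈ divs (g /ₘ d) ↔ d.Monic ∧ e.Monic ∧ d * e ∣ g := by
    intro d e
    rw [mem_divs hg.ne_zero]
    constructor
    · rintro ⟨⟨h1, h2⟩, h3⟩
      rw [mem_divs (monic_div hg h1 h2).ne_zero] at h3
      exact ⟨h1, h3.1, (dvd_div_iff h1).1 ⟨h2, h3.2⟩⟩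
    · rintro ⟨h1, h2, h3⟩
      obtain ⟨h4, h5⟩ := (dvd_div_iff h1).2 h3
      exact ⟨⟨h1, h4⟩, (mem_divs (monic_div hg h1 h4).ne_zero).2 ⟨h2, h5⟩⟩
  refine Finset.sum_comm' fun d e => ?_
  rw [key, and_comm (a := d ∈ divs (g /ₘ e)), key, mul_comm e d]
  tauto

/-- The large part of the degree. -/
noncomputable def gg (V : ℕ) (m : F[X]) : ℝ := ∑ e ∈ divs m, ind (V ≤ e.natDegree) * vm e

theorem gg_nonneg (V : ℕ) (m : F[X]) : 0 ≤ gg V m :=
  Finset.sum_nonneg fun e _ => mul_nonneg (ind_nonneg _) (vm_nonneg e)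

theorem gg_le (V : ℕ) {m : F[X]} (hm : m.Monic) : gg V m ≤ m.natDegree := by
  rw [← sum_vm_divs hm]
  exact Finset.sum_le_sum fun e _ => mul_le_of_le_one_left (vm_nonneg e) (ind_le_one _)

theorem gg_eq_zero {V : ℕ} {m : F[X]} (hm : m.Monic) (h : m.natDegree < V) : gg V m = 0 := by
  refine Finset.sum_eq_zero fun e he => ?_
  have := natDegree_le_of_dvd ((mem_divs hm.ne_zero).1 he).2 hm.ne_zero
  rw [ind_neg (by omega), zero_mul]

theorem gg_eq (V : ℕ) {m : F[X]} (hm : m.Monic) :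
    gg V m = m.natDegree - ∑ v ∈ range V, ∑ e ∈ monF F v, ind (e ∣ m) * vm e := by
  rw [← sum_divs_lt hm.ne_zero, ← sum_vm_divs hm, ← Finset.sum_sub_distrib]
  refine Finset.sum_congr rfl fun e _ => ?_
  by_cases h : V ≤ e.natDegree
  · rw [ind_pos h, ind_neg (by omega)]; ring
  · rw [ind_neg h, ind_pos (by omega)]; ring

theorem vm_eq {V : ℕ} {g : F[X]} (hg : g.Monic) (h : V ≤ g.natDegree) :
    vm g = ∑ i ∈ range (g.natDegree + 1), ∑ d ∈ monF F i,
      ind (d ∣ g) * (mu d * gg V (g /ₘ d)) := by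
  rw [← sum_divs hg.ne_zero fun d => mu d * gg V (g /ₘ d)]
  simp only [gg, Finset.mul_sum]
  rw [sum_pairs hg fun d e => mu d * (ind (V ≤ e.natDegree) * vm e)]
  simp only [← Finset.sum_mul]
  rw [Finset.sum_eq_single g]
  · have : g /ₘ g = 1 := by
      have := mul_divByMonic_cancel_left (1 : F[X]) hg
      rwa [mul_one] at this
    rw [this, sum_mu_divs monic_one, ind_pos rfl, ind_pos h, one_mul, one_mul]
  · intro e he hne
    obtain ⟨h1, h2⟩ := (mem_divs hg.ne_zero).1 he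
    rw [sum_mu_divs (monic_div hg h1 h2), ind_neg, zero_mul]
    intro h3
    obtain ⟨c, rfl⟩ := h2
    rw [mul_divByMonic_cancel_left _ h1] at h3
    exact hne (by rw [h3, mul_one])
  · exact fun h' => absurd ((mem_divs hg.ne_zero).2 ⟨hg, dvd_rfl⟩) h'

/-- Multiples of `m` in a short interval. -/
theorem sum_mult {h : ℕ} (f : F[X]) {m : F[X]} (hm : m.Monic) (hj : m.natDegree ≤ h)
    (G : F[X] → ℝ) :
    ∑ y : degreeLT F h, ind (m ∣ f + y.1) * G ((f + y.1) /ₘ m) =
      ∑ g : degreeLT F (h - m.natDegree), G (f /ₘ m + g.1) := by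
  classical
  rw [sum_LT h fun y => ind (m ∣ f + y) * G ((f + y) /ₘ m),
    sum_LT (h - m.natDegree) fun g => G (f /ₘ m + g), sum_ind_mul]
  have e1 : ∀ g : F[X], f + (m * g - f %ₘ m) = m * (f /ₘ m + g) := by
    intro g
    have := modByMonic_add_div f m
    linear_combination -this
  have hr : (f %ₘ m).degree < h :=
    (degree_modByMonic_lt f hm).trans_le (by
      rw [degree_eq_natDegree hm.ne_zero]; exact_mod_cast hj)
  refine Finset.sum_bij' (fun y _ => (f + y) /ₘ m - f /ₘ m) (fun g _ => m * g - f %ₘ m)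
    ?_ ?_ ?_ ?_ ?_
  · intro y hy
    obtain ⟨h1, k, hk⟩ := mem_filter.1 hy
    rw [mem_ltF] at h1 ⊢
    rw [hk, mul_divByMonic_cancel_left _ hm]
    have e2 : m * (k - f /ₘ m) = y + f %ₘ m := by
      have := modByMonic_add_div f m
      linear_combination -hk - this
    have h3 : (m * (k - f /ₘ m)).degree < h := by
      rw [e2]
      exact (degree_add_le _ _).trans_lt (max_lt h1 hr)
    by_cases h0 : k - f /ₘ m = 0
    · rw [h0, degree_zero]; exact WithBot.bot_lt_coe _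
    rw [← natDegree_lt_iff_degree_lt (mul_ne_zero hm.ne_zero h0), hm.natDegree_mul' h0] at h3
    rw [← natDegree_lt_iff_degree_lt h0]
    omega
  · intro g hg
    rw [mem_ltF] at hg
    rw [mem_filter, mem_ltF, e1]
    refine ⟨(degree_sub_le _ _).trans_lt (max_lt ?_ hr), dvd_mul_right _ _⟩
    by_cases h0 : g = 0
    · rw [h0, mul_zero, degree_zero]; exact WithBot.bot_lt_coe _
    rw [← natDegree_lt_iff_degree_lt h0] at hg
    rw [← natDegree_lt_iff_degree_lt (mul_ne_zero hm.ne_zero h0), hm.natDegree_mul' h0]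
    omega
  · intro y hy
    obtain ⟨_, k, hk⟩ := mem_filter.1 hy
    rw [hk, mul_divByMonic_cancel_left _ hm]
    have := modByMonic_add_div f m
    linear_combination -hk - this
  · intro g _
    rw [e1, mul_divByMonic_cancel_left _ hm, add_sub_cancel_left]
  · intro y _
    rw [add_sub_cancel]

theorem cnt_small {h : ℕ} (f : F[X]) {b : F[X]} (hb : b.Monic) (hj : b.natDegree ≤ h) :
    ∑ y : degreeLT F h, ind (b ∣ f + y.1) =
      (Fintype.card F : ℝ) ^ h / (Fintype.card F : ℝ) ^ b.natDegree := by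
  have := sum_mult f hb hj fun _ => 1
  simp only [mul_one, Finset.sum_const, card_univ, card_degreeLT, nsmul_eq_mul] at this
  rw [this, Nat.cast_pow, pow_sub₀ _ card_pos'.ne' hj, div_eq_mul_inv]

theorem cnt_large {h : ℕ} (f : F[X]) {b : F[X]} (hb : b.Monic) (hj : h ≤ b.natDegree) :
    ∑ y : degreeLT F h, ind (b ∣ f + y.1) = ind ((f %ₘ b).degree < h) := by
  have key : ∀ y : degreeLT F h, b ∣ f + y.1 ↔ y.1 = -(f %ₘ b) := by
    intro y
    have hy : y.1.degree < b.degree := (mem_degreeLT.1 y.2).trans_le (by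
      rw [degree_eq_natDegree hb.ne_zero]; exact_mod_cast hj)
    rw [← modByMonic_eq_zero_iff_dvd hb, add_modByMonic, (modByMonic_eq_self_iff hb).2 hy,
      add_comm, add_eq_zero_iff_eq_neg]
  simp only [key]
  by_cases h1 : (f %ₘ b).degree < h
  · rw [ind_pos h1, Finset.sum_eq_single ⟨-(f %ₘ b), mem_degreeLT.2 (by rwa [degree_neg])⟩,
      ind_pos rfl]
    · exact fun y _ hy => ind_neg fun h' => hy (Subtype.ext h')
    · exact fun h' => absurd (mem_univ _) h'
  · rw [ind_neg h1]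
    refine Finset.sum_eq_zero fun y _ => ind_neg fun h' => h1 ?_
    rw [← degree_neg, ← h']
    exact mem_degreeLT.1 y.2

theorem sum_swap {g : F[X]} (hg : g.Monic) {i : ℕ} (hi : i ≤ g.natDegree)
    (φ : F[X] → F[X] → ℝ) :
    ∑ d ∈ monF F i, ind (d ∣ g) * φ d (g /ₘ d) =
      ∑ m ∈ monF F (g.natDegree - i), ind (m ∣ g) * φ (g /ₘ m) m := by
  classical
  rw [sum_ind_mul, sum_ind_mul]
  have key : ∀ d : F[X], d.Monic → d ∣ g → g /ₘ d ∣ g ∧ g /ₘ (g /ₘ d) = d := by
    rintro d hd ⟨c, rfl⟩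
    rw [mul_divByMonic_cancel_left _ hd]
    refine ⟨dvd_mul_left _ _, ?_⟩
    rw [mul_comm, mul_divByMonic_cancel_left _ (hd.of_mul_monic_left hg)]
  refine Finset.sum_bij' (fun d _ => g /ₘ d) (fun m _ => g /ₘ m) ?_ ?_ ?_ ?_ ?_
  · intro d hd
    obtain ⟨h1, h2⟩ := mem_filter.1 hd
    obtain ⟨h3, h4⟩ := mem_monF.1 h1
    exact mem_filter.2 ⟨mem_monF.2 ⟨monic_div hg h3 h2, by rw [natDegree_divByMonic _ h3, h4]⟩,
      (key d h3 h2).1⟩
  · intro d hd
    obtain ⟨h1, h2⟩ := mem_filter.1 hd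
    obtain ⟨h3, h4⟩ := mem_monF.1 h1
    exact mem_filter.2 ⟨mem_monF.2 ⟨monic_div hg h3 h2, by
      rw [natDegree_divByMonic _ h3, h4]; omega⟩, (key d h3 h2).1⟩
  · intro d hd
    obtain ⟨h1, h2⟩ := mem_filter.1 hd
    exact (key d (mem_monF.1 h1).1 h2).2
  · intro d hd
    obtain ⟨h1, h2⟩ := mem_filter.1 hd
    exact (key d (mem_monF.1 h1).1 h2).2
  · intro d hd
    obtain ⟨h1, h2⟩ := mem_filter.1 hd
    rw [(key d (mem_monF.1 h1).1 h2).2]

omit [Fintype F] in
theorem monic_shift {n h : ℕ} {f : F[X]} (hf : f.Monic) (hn : f.natDegree = n) (hh : h ≤ n)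
    (y : degreeLT F h) : (f + y.1).Monic ∧ (f + y.1).natDegree = n := by
  have hy : y.1.degree < f.degree := (mem_degreeLT.1 y.2).trans_le (by
    rw [degree_eq_natDegree hf.ne_zero, hn]; exact_mod_cast hh)
  exact ⟨hf.add_of_left hy, by rw [natDegree_add_eq_left_of_degree_lt hy, hn]⟩

/-- The piece of the sum with Moebius variable of degree `i`. -/
noncomputable def piece (f : F[X]) (h V i : ℕ) : ℝ :=
  ∑ y : degreeLT F h, ∑ d ∈ monF F i, ind (d ∣ f + y.1) * (mu d * gg V ((f + y.1) /ₘ d))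

/-- The type one sums. -/
noncomputable def XX (f : F[X]) (h i : ℕ) (c : F[X]) : ℝ :=
  ∑ d ∈ monF F i, mu d * ∑ y : degreeLT F h, ind (d * c ∣ f + y.1)

theorem piece_small {n h V i : ℕ} {f : F[X]} (hf : f.Monic) (hn : f.natDegree = n) (hh : h ≤ n)
    (hi : i ≤ n) : piece f h V i =
      ((n : ℝ) - i) * XX f h i 1 - ∑ v ∈ range V, ∑ e ∈ monF F v, vm e * XX f h i e := by
  have key : ∀ (y : degreeLT F h), ∀ d ∈ monF F i,
      ind (d ∣ f + y.1) * (mu d * gg V ((f + y.1) /ₘ d)) =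
        ((n : ℝ) - i) * (mu d * ind (d * 1 ∣ f + y.1)) -
          ∑ v ∈ range V, ∑ e ∈ monF F v, vm e * (mu d * ind (d * e ∣ f + y.1)) := by
    intro y d hd
    obtain ⟨h1, h2⟩ := mem_monF.1 hd
    obtain ⟨h3, h4⟩ := monic_shift hf hn hh y
    rw [mul_one]
    by_cases h5 : d ∣ f + y.1
    · rw [ind_pos h5, gg_eq V (monic_div h3 h1 h5), natDegree_divByMonic _ h1, h2, h4,
        Nat.cast_sub hi, one_mul, mul_sub, Finset.mul_sum]
      congr 1
      · ring
      refine Finset.sum_congr rfl fun v _ => ?_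
      rw [Finset.mul_sum]
      refine Finset.sum_congr rfl fun e _ => ?_
      rw [ind_congr (P := d * e ∣ f + y.1) (Q := e ∣ (f + y.1) /ₘ d)
        ⟨fun h => ((dvd_div_iff h1).2 h).2, fun h => (dvd_div_iff h1).1 ⟨h5, h⟩⟩]
      ring
    · rw [ind_neg h5, Finset.sum_eq_zero]
      · ring
      refine fun v _ => Finset.sum_eq_zero fun e _ => ?_
      rw [ind_neg fun h => h5 ((dvd_mul_right _ _).trans h)]
      ring
  unfold piece XX
  rw [Finset.sum_congr rfl fun y _ => Finset.sum_congr rfl (key y), Finset.sum_comm]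
  simp only [Finset.sum_sub_distrib, Finset.mul_sum]
  congr 1
  rw [Finset.sum_congr rfl fun d _ => Finset.sum_comm, Finset.sum_comm]
  refine Finset.sum_congr rfl fun v _ => ?_
  rw [Finset.sum_congr rfl fun d _ => Finset.sum_comm, Finset.sum_comm]

theorem XX_bound {h V t i : ℕ} {f : F[X]} (hV : V + 1 ≤ h) {E₁ : ℝ} (hE₁ : 0 ≤ E₁)
    (H1 : ∀ i, i ≤ h + t → ∀ c : F[X], c.Monic → c.natDegree ≤ V → h < i + c.natDegree →
      |∑ d ∈ monF F i, mu d * ind ((f %ₘ (d * c)).degree < h)| ≤ E₁)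
    (hi : i ≤ h + t) {c : F[X]} (hc : c.Monic) (hcV : c.natDegree ≤ V) :
    |XX f h i c - (∑ d ∈ monF F i, mu d) * ((Fintype.card F : ℝ) ^ h /
      (Fintype.card F : ℝ) ^ (i + c.natDegree))| ≤ E₁ := by
  have hdeg : ∀ d ∈ monF F i, (d * c).Monic ∧ (d * c).natDegree = i + c.natDegree := by
    intro d hd
    obtain ⟨h1, h2⟩ := mem_monF.1 hd
    exact ⟨h1.mul hc, by rw [h1.natDegree_mul hc, h2]⟩
  by_cases h1 : i + c.natDegree ≤ h
  · rw [XX, Finset.sum_mul, ← Finset.sum_sub_distrib, Finset.sum_eq_zero, abs_zero]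
    · exact hE₁
    intro d hd
    rw [cnt_small f (hdeg d hd).1 (by rw [(hdeg d hd).2]; exact h1), (hdeg d hd).2, sub_self]
  · rw [sum_mu_monF, if_neg (by omega), if_neg (by omega), zero_mul, sub_zero, XX,
      Finset.sum_congr rfl fun d hd => by
        rw [cnt_large f (hdeg d hd).1 (by rw [(hdeg d hd).2]; omega)]]
    exact H1 i hi c hc hcV (by omega)

theorem sum_vm_lt (V : ℕ) :
    ∑ v ∈ range V, ∑ e ∈ monF F v, vm e ≤ (Fintype.card F : ℝ) ^ V := by
  induction V with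
  | zero => simp
  | succ V ih =>
    rw [Finset.sum_range_succ, pow_succ]
    have h1 := sum_vm_monF (F := F) V
    have h2 := two_le_card (F := F)
    have h3 : (0 : ℝ) < (Fintype.card F : ℝ) ^ V := pow_pos card_pos' V
    nlinarith

theorem piece_large {n h V t i : ℕ} {f : F[X]} (hf : f.Monic) (hn : f.natDegree = n) (hh : h ≤ n)
    (h2 : n ≤ 2 * h + t) {E₂ : ℝ} (hE₂ : 0 ≤ E₂)
    (H2 : ∀ j, V ≤ j → j + h + t < n →
      ∑ m ∈ monF F j, |∑ g : degreeLT F (h - j), mu (f /ₘ m + g.1)| ≤ E₂)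
    (hi : h + t < i) (hin : i ≤ n) : |piece f h V i| ≤ n * E₂ := by
  have e1 : piece f h V i =
      ∑ m ∈ monF F (n - i), gg V m * ∑ g : degreeLT F (h - (n - i)), mu (f /ₘ m + g.1) := by
    unfold piece
    have : ∀ y : degreeLT F h,
        ∑ d ∈ monF F i, ind (d ∣ f + y.1) * (mu d * gg V ((f + y.1) /ₘ d)) =
          ∑ m ∈ monF F (n - i), ind (m ∣ f + y.1) * (mu ((f + y.1) /ₘ m) * gg V m) := by
      intro y
      obtain ⟨h3, h4⟩ := monic_shift hf hn hh y
      rw [sum_swap h3 (by omega) fun d m => mu d * gg V m, h4]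
    simp only [this]
    rw [Finset.sum_comm]
    refine Finset.sum_congr rfl fun m hm => ?_
    obtain ⟨h3, h4⟩ := mem_monF.1 hm
    rw [sum_mult f h3 (by omega) fun d => mu d * gg V m, h4, Finset.mul_sum]
    exact Finset.sum_congr rfl fun _ _ => mul_comm _ _
  rw [e1]
  by_cases hj : V ≤ n - i
  · refine (Finset.abs_sum_le_sum_abs _ _).trans (le_trans ?_
      (mul_le_mul_of_nonneg_left (H2 (n - i) hj (by omega)) (Nat.cast_nonneg n)))
    rw [Finset.mul_sum]
    refine Finset.sum_le_sum fun m hm => ?_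
    obtain ⟨h3, h4⟩ := mem_monF.1 hm
    rw [abs_mul, abs_of_nonneg (gg_nonneg V m)]
    refine mul_le_mul_of_nonneg_right ((gg_le V h3).trans ?_) (abs_nonneg _)
    rw [h4]
    exact_mod_cast Nat.sub_le n i
  · rw [Finset.sum_eq_zero, abs_zero]
    · positivity
    intro m hm
    obtain ⟨h3, h4⟩ := mem_monF.1 hm
    rw [gg_eq_zero h3 (by omega), zero_mul]

end SPsi

open SPsi in
theorem psi_bound {n h V t : ℕ} {f : F[X]} (hf : f.Monic) (hn : f.natDegree = n) (hV : V + 1 ≤ h)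
    (h1 : h + t + V ≤ n) (h2 : n ≤ 2 * h + t) {E₁ E₂ : ℝ} (hE₁ : 0 ≤ E₁) (hE₂ : 0 ≤ E₂)
    (H1 : ∀ i, i ≤ h + t → ∀ c : F[X], c.Monic → c.natDegree ≤ V → h < i + c.natDegree →
      |∑ d ∈ monF F i, mu d * ind ((f %ₘ (d * c)).degree < h)| ≤ E₁)
    (H2 : ∀ j, V ≤ j → j + h + t < n →
      ∑ m ∈ monF F j, |∑ g : degreeLT F (h - j), mu (f /ₘ m + g.1)| ≤ E₂) :
    |∑ y : degreeLT F h, vm (f + y.1) - (Fintype.card F : ℝ) ^ h| ≤
      (n + 1) * ((n + 2 * (Fintype.card F : ℝ) ^ V) * E₁ + n * E₂) := by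
  have hh : h ≤ n := by omega
  have hq := card_pos' (F := F)
  set q : ℝ := (Fintype.card F : ℝ) with hqdef
  set S : ℝ := ∑ v ∈ range V, ∑ e ∈ monF F v, vm e / q ^ v with hS
  set T : ℕ → ℝ := fun i => (∑ d ∈ monF F i, mu d) * (q ^ h / q ^ i) * ((n : ℝ) - i - S) with hT
  have e1 : ∑ y : degreeLT F h, vm (f + y.1) = ∑ i ∈ range (n + 1), piece f h V i := by
    unfold piece
    rw [Finset.sum_comm]
    refine Finset.sum_congr rfl fun y _ => ?_
    obtain ⟨h3, h4⟩ := monic_shift hf hn hh y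
    rw [vm_eq (V := V) h3 (by omega), h4]
  have e2 : ∑ i ∈ range (n + 1), T i = q ^ h := by
    obtain ⟨k, rfl⟩ : ∃ k, n = k + 1 := ⟨n - 1, by omega⟩
    rw [Finset.sum_range_succ', Finset.sum_range_succ', Finset.sum_eq_zero]
    · simp only [hT, sum_mu_monF, ← hqdef]
      norm_num
      field_simp
      ring
    · intro i _
      simp only [hT, sum_mu_monF]
      rw [if_neg (by omega), if_neg (by omega), zero_mul, zero_mul]
  have hqV : 0 ≤ q ^ V := (pow_pos hq V).le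
  have e3 : ∀ i ∈ range (n + 1), |piece f h V i - T i| ≤ (n + 2 * q ^ V) * E₁ + n * E₂ := by
    intro i hi
    have hin : i ≤ n := Nat.lt_succ_iff.1 (mem_range.1 hi)
    have hn0 : (0 : ℝ) ≤ n := Nat.cast_nonneg n
    by_cases hi' : i ≤ h + t
    · set M : ℝ := ∑ d ∈ monF F i, mu d with hM
      have e4 : piece f h V i - T i = ((n : ℝ) - i) * (XX f h i 1 - M * (q ^ h / q ^ (i + 0))) -
          ∑ v ∈ range V, ∑ e ∈ monF F v, vm e * (XX f h i e - M * (q ^ h / q ^ (i + v))) := by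
        rw [piece_small hf hn hh hin]
        have : ∑ v ∈ range V, ∑ e ∈ monF F v, vm e * (XX f h i e - M * (q ^ h / q ^ (i + v))) =
            ∑ v ∈ range V, ∑ e ∈ monF F v, vm e * XX f h i e - M * (q ^ h / q ^ i) * S := by
          rw [hS, Finset.mul_sum, ← Finset.sum_sub_distrib]
          refine Finset.sum_congr rfl fun v _ => ?_
          rw [Finset.mul_sum, ← Finset.sum_sub_distrib]
          refine Finset.sum_congr rfl fun e _ => ?_
          rw [pow_add]
          field_simp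
        rw [this]
        simp only [hT, ← hM, add_zero]
        ring
      have b1 : |XX f h i 1 - M * (q ^ h / q ^ (i + 0))| ≤ E₁ := by
        have := XX_bound hV hE₁ H1 hi' (monic_one (R := F)) (by simp)
        rwa [natDegree_one] at this
      have b2 : |∑ v ∈ range V, ∑ e ∈ monF F v,
          vm e * (XX f h i e - M * (q ^ h / q ^ (i + v)))| ≤ q ^ V * E₁ := by
        refine (Finset.abs_sum_le_sum_abs _ _).trans (le_trans ?_
          (mul_le_mul_of_nonneg_right (sum_vm_lt (F := F) V) hE₁))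
        rw [Finset.sum_mul]
        refine Finset.sum_le_sum fun v hv => ?_
        rw [Finset.sum_mul (monF F v) vm E₁]
        refine (Finset.abs_sum_le_sum_abs _ _).trans (Finset.sum_le_sum fun e he => ?_)
        obtain ⟨h3, h4⟩ := mem_monF.1 he
        have := XX_bound hV hE₁ H1 hi' h3 (by have := mem_range.1 hv; omega)
        rw [h4] at this
        rw [abs_mul, abs_of_nonneg (vm_nonneg e)]
        exact mul_le_mul_of_nonneg_left this (vm_nonneg e)
      have b3 : (0 : ℝ) ≤ (n : ℝ) - i := sub_nonneg.2 (by exact_mod_cast hin)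
      have b4 : (n : ℝ) - i ≤ n := sub_le_self _ (Nat.cast_nonneg i)
      rw [e4]
      refine (abs_sub _ _).trans ?_
      rw [abs_mul, abs_of_nonneg b3]
      have b5 := mul_le_mul b4 b1 (abs_nonneg _) hn0
      have b6 := mul_nonneg hqV hE₁
      have b7 := mul_nonneg hn0 hE₂
      nlinarith
    · have : T i = 0 := by
        simp only [hT, sum_mu_monF]
        rw [if_neg (by omega), if_neg (by omega), zero_mul, zero_mul]
      rw [this, sub_zero]
      have b1 := piece_large hf hn hh h2 hE₂ H2 (not_le.1 hi') hin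
      have b2 : 0 ≤ (n + 2 * q ^ V) * E₁ := by positivity
      linarith
  rw [e1, ← e2, ← Finset.sum_sub_distrib]
  refine (Finset.abs_sum_le_sum_abs _ _).trans ((Finset.sum_le_sum e3).trans_eq ?_)
  rw [Finset.sum_const, card_range, nsmul_eq_mul, Nat.cast_succ]

end Pool.Agent.MP_c853c5_nt
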