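import Mathlib
import Pool.Agent.MP_4fffd4_nt.Chowla

/- Parity of the number of prime factors of `X ^ r * s ^ N + g`, and intervals without
irreducible polynomials. -/

set_option autoImplicit false

namespace Pool.Agent.MP_c853c5_nt

open Polynomial Finset Pool.Agent.MP_4fffd4_nt

theorem sgn_succ (n : ℕ) : sgn (n + 1) = (-1) ^ n * sgn n := by
  unfold sgn
  rw [Fin.prod_univ_succ]
  simp [Fin.card_Ioi, Nat.sub_sub, add_comm]

theorem sgn_add_four_mul (r k : ℕ) : sgn (r + 4 * k) = sgn r := by
  induction k with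
  | zero => simp
  | succ k IH =>
    rw [show r + 4 * (k + 1) = r + 4 * k + 1 + 1 + 1 + 1 by ring, sgn_succ, sgn_succ, sgn_succ,
      sgn_succ, IH]
    rcases neg_one_pow_eq_or ℤ (r + 4 * k) with h | h <;> simp [pow_succ, h]

section Ring

variable {R : Type*} [CommRing R]

theorem prod_eval_eq_of_dvd' {n d : ℕ} (hdn : d ≤ n) (a : Fin n → R) (b : Fin d → R) (V : R[X])
    (hV : V.Monic) (h : V ∣ (∏ i, (X - C (a i))) - ∏ j, (X - C (b j))) :
    ∏ i, V.eval (a i) = (-1) ^ (V.natDegree * (n - d)) * ∏ j, V.eval (b j) := by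
  nontriviality R
  obtain ⟨Y, hY⟩ := h
  have ha : (∏ i, (X - C (a i))).natDegree = n := by
    rw [natDegree_prod_of_monic _ _ (fun i _ => monic_X_sub_C _)]
    simp
  have hb : (∏ j, (X - C (b j))).natDegree = d := by
    rw [natDegree_prod_of_monic _ _ (fun i _ => monic_X_sub_C _)]
    simp
  rw [← resultant_prod_X_sub_C a V V.natDegree le_rfl,
    ← resultant_prod_X_sub_C b V V.natDegree le_rfl, Fintype.card_fin, Fintype.card_fin]
  have h1 := resultant_add_left_deg (∏ j, (X - C (b j))) V d V.natDegree (n - d) hb.le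
  rw [Nat.add_sub_cancel' hdn, hV.coeff_natDegree, one_pow, mul_one] at h1
  rw [← h1]
  by_cases hY0 : Y = 0
  · rw [hY0, mul_zero, sub_eq_zero] at hY
    rw [hY]
  have e : (∏ i, (X - C (a i))) = (∏ j, (X - C (b j))) + V * Y := by
    rw [← hY]; ring
  rw [e, resultant_add_mul_left _ _ _ _ _ _ le_rfl]
  have : (V * Y).natDegree ≤ n := by
    rw [← hY]
    exact (natDegree_sub_le _ _).trans (by rw [ha, hb, max_eq_left hdn])
  rw [hV.natDegree_mul' hY0] at this
  omega

theorem gap_ring {n d : ℕ} (hdn : d ≤ n) (a : Fin n → R) (b : Fin d → R) {U T G : R[X]}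
    (hU : U.Monic) (hT : derivative T = 0) (hF : U * T + G = ∏ i, (X - C (a i)))
    (hG : G = ∏ j, (X - C (b j))) (hW : (U * derivative G - derivative U * G).Monic)
    (hd : U * derivative G - derivative U * G ∣ T) (hu : IsUnit (∏ j, U.eval (b j))) :
    ∏ i, (derivative (U * T + G)).eval (a i) =
      (-1) ^ (((U * derivative G - derivative U * G).natDegree + U.natDegree) * (n - d)) *
        ∏ j, (derivative G).eval (b j) := by
  set W := U * derivative G - derivative U * G with hWdef
  have hsub : (∏ i, (X - C (a i))) - ∏ j, (X - C (b j)) = U * T := by rw [← hF, ← hG]; ring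
  have h1 := prod_eval_eq_of_dvd' hdn a b U hU (hsub ▸ dvd_mul_right _ _)
  have h2 := prod_eval_eq_of_dvd' hdn a b W hW (hsub ▸ hd.mul_left _)
  have h3 : (∏ i, U.eval (a i)) * ∏ i, (derivative (U * T + G)).eval (a i) =
      ∏ i, W.eval (a i) := by
    rw [← Finset.prod_mul_distrib]
    refine Finset.prod_congr rfl fun i _ => ?_
    have h0 : (U * T + G).eval (a i) = 0 := by
      rw [hF, eval_prod]
      exact Finset.prod_eq_zero (mem_univ i) (by simp)
    have e : U * derivative (U * T + G) = derivative U * (U * T + G) + W := by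
      rw [hWdef, derivative_add, derivative_mul, hT]
      ring
    rw [← eval_mul, e, eval_add, eval_mul, h0, mul_zero, zero_add]
  have h4 : (∏ j, U.eval (b j)) * ∏ j, (derivative G).eval (b j) = ∏ j, W.eval (b j) := by
    rw [← Finset.prod_mul_distrib]
    refine Finset.prod_congr rfl fun j _ => ?_
    have h0 : G.eval (b j) = 0 := by
      rw [hG, eval_prod]
      exact Finset.prod_eq_zero (mem_univ j) (by simp)
    rw [hWdef, eval_sub, eval_mul, eval_mul, h0, mul_zero, sub_zero]
  rw [h1, h2, ← h4] at h3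
  have h5 : ((-1 : R) ^ (U.natDegree * (n - d))) * (-1) ^ (U.natDegree * (n - d)) = 1 := by
    rw [← mul_pow]; simp
  apply hu.mul_left_cancel
  rw [add_mul, pow_add]
  linear_combination (-1) ^ (U.natDegree * (n - d)) * h3 -
    (∏ j, U.eval (b j)) * (∏ i, (derivative (U * T + G)).eval (a i)) * h5

theorem monic_wr [Nontrivial R] {G : R[X]} (hG : G.Monic) {r k : ℕ} (hd : G.natDegree = r + 1 + k)
    (hk : (k : R) = 0) : (X ^ r * derivative G - derivative (X ^ r) * G).Monic ∧
      (X ^ r * derivative G - derivative (X ^ r) * G).natDegree = r + (r + k) := by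
  have h1 : (X ^ r * derivative G - derivative (X ^ r) * G).natDegree ≤ r + (r + k) := by
    refine (natDegree_sub_le _ _).trans (max_le (natDegree_mul_le.trans ?_) ?_)
    · have := natDegree_derivative_le G
      rw [natDegree_X_pow]
      omega
    · cases r with
      | zero => simp
      | succ r =>
        refine natDegree_mul_le.trans ?_
        have := natDegree_derivative_le (X ^ (r + 1) : R[X])
        rw [natDegree_X_pow] at this
        omega
  have h2 : (X ^ r * derivative G - derivative (X ^ r) * G).coeff (r + (r + k)) = 1 := by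
    have h3 : G.coeff (r + k + 1) = 1 := by
      rw [← hG.coeff_natDegree, hd]; congr 1; ring
    rw [coeff_sub, add_comm r (r + k), coeff_X_pow_mul, coeff_derivative, h3]
    cases r with
    | zero => simp [hk]
    | succ r =>
      rw [derivative_X_pow_succ, mul_assoc, coeff_C_mul,
        show r + 1 + k + (r + 1) = r + 1 + k + 1 + r by ring, coeff_X_pow_mul, h3]
      push_cast
      rw [hk]
      ring
  exact ⟨monic_of_natDegree_le_of_coeff_eq_one _ h1 h2,
    le_antisymm h1 (le_natDegree_of_ne_zero (h2 ▸ one_ne_zero))⟩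

end Ring

variable {p : ℕ} [Fact p.Prime] {F : Type*} [Field F] [Fintype F] [CharP F p]

theorem liou_flip {r m : ℕ} {s g : F[X]} (hs : s.Monic) (hg : g.Monic) (hsep : g.Separable)
    (hX : IsCoprime g X) (hd : g.natDegree = r + 1 + 8 * p * m) (hm : m < s.natDegree)
    (hw : X ^ r * derivative g - derivative (X ^ r) * g ∣ s ^ 2) :
    liou (X ^ r * s ^ (8 * p) + g) = -liou g := by
  obtain ⟨L⟩ := nonempty_liftData p F (AlgebraicClosure F)
  have : CharP (AlgebraicClosure F) p :=
    charP_of_injective_algebraMap (algebraMap F (AlgebraicClosure F)).injective p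
  have hp : p.Prime := Fact.out
  have hp2 := hp.two_le
  obtain ⟨κ, e, hκ, h2, he, hκe⟩ : ∃ κ e : ℕ, 1 ≤ κ ∧ (p = 2 → κ = 3) ∧ 2 ≤ e ∧
      e * p ^ κ = 8 * p := by
    by_cases h : p = 2
    · exact ⟨3, 2, by norm_num, fun _ => rfl, le_rfl, by rw [h]; norm_num⟩
    · exact ⟨1, 8, le_rfl, fun h' => absurd h' h, by norm_num, by rw [pow_one]⟩
  obtain ⟨S, hS, hSs, hSd⟩ := L.lift_monic hs
  obtain ⟨G, hG, hGg, hGd⟩ := L.lift_monic hg
  have hlt : r + 1 + 8 * p * m < r + 8 * p * s.natDegree := by nlinarith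
  have hFd₀ : (X ^ r * S ^ (8 * p)).natDegree = r + 8 * p * s.natDegree := by
    rw [(monic_X_pow r).natDegree_mul (hS.pow _), natDegree_X_pow, hS.natDegree_pow, hSd]
  have hF : (X ^ r * S ^ (8 * p) + G).Monic :=
    ((monic_X_pow r).mul (hS.pow _)).add_of_left (degree_lt_degree (by omega))
  have hFd : (X ^ r * S ^ (8 * p) + G).natDegree = r + 8 * p * s.natDegree := by
    rw [natDegree_add_eq_left_of_natDegree_lt (by omega), hFd₀]
  have hFf : (X ^ r * S ^ (8 * p) + G).map L.ρ = X ^ r * s ^ (8 * p) + g := by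
    simp only [Polynomial.map_add, Polynomial.map_mul, Polynomial.map_pow, map_X, hSs, hGg]
  have hfsep : (X ^ r * s ^ (8 * p) + g).Separable := by
    have h0 : derivative (s ^ (8 * p)) = 0 := by
      rw [derivative_pow, Nat.cast_mul, CharP.cast_eq_zero F p]
      simp
    have h1 : IsCoprime g (X ^ r * derivative g - derivative (X ^ r) * g) := by
      rw [sub_eq_add_neg, ← neg_mul]
      exact (hX.pow_right.mul_right hsep).add_mul_right_right _
    obtain ⟨c, hc⟩ := hw.trans (pow_dvd_pow s (show 2 ≤ 8 * p by omega))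
    have h3 : IsCoprime (X ^ r * s ^ (8 * p) + g)
        (X ^ r * derivative g - derivative (X ^ r) * g) := by
      rw [hc, add_comm, mul_left_comm]
      exact h1.add_mul_left_left _
    have h4 : X ^ r * derivative g - derivative (X ^ r) * g =
        X ^ r * derivative (X ^ r * s ^ (8 * p) + g) +
          (X ^ r * s ^ (8 * p) + g) * (-derivative (X ^ r)) := by
      rw [derivative_add, derivative_mul, h0]
      ring
    rw [h4] at h3
    exact h3.of_add_mul_left_right.of_mul_right_right
  obtain ⟨α, δ₁, e₁, u₁, f₁, d₁⟩ := L.stick hF (hFf ▸ hfsep) hFd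
  obtain ⟨β, δ₂, e₂, u₂, f₂, d₂⟩ := L.stick hG (hGg ▸ hsep) (hGd.trans hd)
  rw [hFf] at f₁
  rw [hGg] at f₂
  obtain ⟨ν, hνμ, hν, hμ⟩ := L.quot_data hκ
  set μ := Ideal.Quotient.mk (Ideal.span {(p : WittVector p (AlgebraicClosure F)) ^ κ}) with hμdef
  have : Nontrivial (WittVector p (AlgebraicClosure F) ⧸
    Ideal.span {(p : WittVector p (AlgebraicClosure F)) ^ κ}) := ν.domain_nontrivial
  have hN : ((8 * p : ℕ) : WittVector p (AlgebraicClosure F) ⧸
      Ideal.span {(p : WittVector p (AlgebraicClosure F)) ^ κ}) = 0 := by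
    rw [← hκe, Nat.cast_mul, hμ, mul_zero]
  have g₁ : X ^ r * (S.map (μ.comp L.ι)) ^ (8 * p) + G.map (μ.comp L.ι) =
      ∏ i, (X - C (μ (α i))) := by
    have := congrArg (Polynomial.map μ) e₁
    simpa only [Polynomial.map_add, Polynomial.map_mul, Polynomial.map_pow, map_X,
      Polynomial.map_prod, Polynomial.map_sub, map_C, Polynomial.map_map] using this
  have g₂ : G.map (μ.comp L.ι) = ∏ i, (X - C (μ (β i))) := by
    have := congrArg (Polynomial.map μ) e₂
    simpa only [Polynomial.map_prod, Polynomial.map_sub, map_C, map_X, Polynomial.map_map]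
      using this
  obtain ⟨w₁, w₂⟩ := monic_wr (hG.map (μ.comp L.ι)) (r := r) (k := 8 * p * m)
    (by rw [hG.natDegree_map, hGd, hd]) (by rw [Nat.cast_mul, hN, zero_mul])
  have hdvd := L.pow_congr μ ν hνμ hν hμ (S ^ e) 0
    (X ^ r * derivative (G.map (μ.comp L.ι)) - derivative (X ^ r) * G.map (μ.comp L.ι))
    (X ^ r * derivative g - derivative (X ^ r) * g)
    (by
      simp only [Polynomial.map_sub, Polynomial.map_mul, Polynomial.map_pow, map_X,
        ← derivative_map, L.map_map μ ν hνμ, hGg])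
    (by
      rw [Polynomial.map_zero, sub_zero, Polynomial.map_pow, hSs]
      exact hw.trans (pow_dvd_pow s he))
  rw [Polynomial.map_zero, zero_pow (pow_ne_zero _ hp.ne_zero), sub_zero, Polynomial.map_pow,
    ← pow_mul, hκe] at hdvd
  have key := gap_ring hlt.le _ _ (monic_X_pow r)
    (by rw [derivative_pow, hN, map_zero, zero_mul, zero_mul]) g₁ g₂ w₁ hdvd (by
      refine IsUnit.prod_univ_iff.2 fun j => ?_
      rw [eval_pow, eval_X]
      refine ((L.unit_O _ fun h => ?_).map μ).pow _
      have h1 : (G.map L.ι).eval (β j) = 0 := by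
        rw [e₂, eval_prod]
        exact Finset.prod_eq_zero (mem_univ j) (by simp)
      have h3 := congrArg L.π h1
      rw [L.π_eval, hGg, map_zero, h] at h3
      exact aeval_ne_zero_of_isCoprime hX (by simp) h3)
  have t₁ := congrArg μ d₁
  have t₂ := congrArg μ d₂
  rw [map_prod, map_mul, map_pow, map_intCast] at t₁ t₂
  have ev : ∀ (H : (WittVector p F)[X]) (x : WittVector p (AlgebraicClosure F)),
      μ ((derivative (H.map L.ι)).eval x) = (derivative (H.map (μ.comp L.ι))).eval (μ x) := by
    intro H x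
    rw [← Polynomial.map_map, derivative_map (H.map L.ι) μ, eval_map μ, eval₂_hom]
  simp only [ev] at t₁ t₂
  simp only [Polynomial.map_add, Polynomial.map_mul, Polynomial.map_pow, map_X] at t₁
  have hodd : Odd (r + 8 * p * s.natDegree - (r + 1 + 8 * p * m)) := by
    refine ⟨4 * p * s.natDegree - 4 * p * m - 1, ?_⟩
    have : p * m < p * s.natDegree := Nat.mul_lt_mul_of_pos_left hm hp.pos
    simp only [mul_assoc]
    omega
  have s₁ : sgn (r + 8 * p * s.natDegree) = sgn r := by
    rw [show r + 8 * p * s.natDegree = r + 4 * (2 * p * s.natDegree) by ring, sgn_add_four_mul]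
  have s₂ : sgn (r + 1 + 8 * p * m) = (-1) ^ r * sgn r := by
    rw [show r + 1 + 8 * p * m = r + 1 + 4 * (2 * p * m) by ring, sgn_add_four_mul, sgn_succ]
  rw [t₁, t₂, w₂, natDegree_X_pow, mul_comm (_ + r), pow_mul, hodd.neg_one_pow, s₁, s₂,
    show r + (r + 8 * p * m) + r = r + 2 * (r + 4 * p * m) by ring, pow_add, pow_mul,
    neg_one_sq, one_pow, mul_one] at key
  have hs' : (sgn r : WittVector p (AlgebraicClosure F) ⧸
      Ideal.span {(p : WittVector p (AlgebraicClosure F)) ^ κ}) * sgn r = 1 := by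
    rw [← Int.cast_mul, sgn_sq, Int.cast_one]
  have hr' : ((-1 : WittVector p (AlgebraicClosure F) ⧸
      Ideal.span {(p : WittVector p (AlgebraicClosure F)) ^ κ}) ^ r) * (-1) ^ r = 1 := by
    rw [← mul_pow]; simp
  have := L.sign_detect hκ h2 δ₁ δ₂ u₁ (by
      rw [← Ideal.mem_span_singleton, ← Ideal.Quotient.eq_zero_iff_mem, ← hμdef, map_sub, map_pow,
        map_pow]
      push_cast at key
      linear_combination sgn r * key - (μ δ₁ ^ 2 - μ δ₂ ^ 2) * hs' + sgn r * sgn r * μ δ₂ ^ 2 * hr')
    (eps_cases _ _) (eps_cases _ _)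
    (by rw [f₁, sub_self]; exact dvd_zero _) (by rw [f₂, sub_self]; exact dvd_zero _)
  have s₃ : (-1 : ℤ) ^ (r + 8 * p * s.natDegree) = (-1) ^ r := by
    rw [show r + 8 * p * s.natDegree = r + 2 * (4 * p * s.natDegree) by ring, pow_add, pow_mul]
    simp
  have s₄ : (-1 : ℤ) ^ (r + 1 + 8 * p * m) = -(-1) ^ r := by
    rw [show r + 1 + 8 * p * m = r + 1 + 2 * (4 * p * m) by ring, pow_add, pow_mul, pow_succ]
    simp
  rw [s₃, s₄] at this
  apply mul_left_cancel₀ (pow_ne_zero r (by norm_num : (-1 : ℤ) ≠ 0))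
  linear_combination this

end Pool.Agent.MP_c853c5_nt
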