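import Mathlib
import Pool.Agent.MP_c853c5_nt.Core

/- Long intervals without irreducible polynomials. -/

set_option autoImplicit false

namespace Pool.Agent.MP_c853c5_nt

open Polynomial Finset Pool.Agent.MP_4fffd4_nt Filter

variable {F : Type*} [Field F] [Fintype F]

variable (F) in
/-- The least common multiple of the monic polynomials of degree at most `j`. -/
noncomputable def carl (j : ℕ) : F[X] := ∏ i ∈ Icc 1 j, (X ^ Fintype.card F ^ i - X)

theorem monic_aux {i : ℕ} (hi : 1 ≤ i) : (X ^ Fintype.card F ^ i - X : F[X]).Monic := by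
  apply Monic.sub_of_left (monic_X_pow _)
  rw [degree_X_pow, degree_X]
  exact_mod_cast Nat.one_lt_pow (by omega) Fintype.one_lt_card

theorem monic_carl (j : ℕ) : (carl F j).Monic :=
  monic_prod_of_monic _ _ fun _ hi => monic_aux (mem_Icc.1 hi).1

theorem natDegree_carl (j : ℕ) : (carl F j).natDegree ≤ Fintype.card F ^ (j + 1) := by
  refine (natDegree_prod_le _ _).trans (le_trans (Finset.sum_le_sum fun i hi => ?_)
    (Nat.geomSum_lt (s := Icc 1 j) Fintype.one_lt_card fun i hi => by
      have := (mem_Icc.1 hi).2; omega).le)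
  exact (FiniteField.X_pow_card_pow_sub_X_natDegree_eq F (by have := (mem_Icc.1 hi).1; omega)
    Fintype.one_lt_card).le

theorem dvd_carl {j : ℕ} (c : F[X]) (hc : c ≠ 0) (hd : c.natDegree ≤ j) : c ∣ carl F j := by
  classical
  induction c using UniqueFactorizationMonoid.induction_on_coprime with
  | h0 => exact absurd rfl hc
  | h1 hu => exact hu.dvd
  | @hpr P a hP =>
    have he := hP.irreducible.natDegree_pos
    rw [natDegree_pow] at hd
    have h1 : P ^ a ∣ ∏ i ∈ Icc 1 a, (X ^ Fintype.card F ^ (i * P.natDegree) - X) := by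
      have : P ^ a = ∏ _i ∈ Icc 1 a, P := by simp
      rw [this]
      refine Finset.prod_dvd_prod_of_dvd _ _ fun i _ => ?_
      rw [← Nat.card_eq_fintype_card]
      exact hP.irreducible.natDegree_dvd_iff_dvd_X_pow_card_pow_sub_X.1 (dvd_mul_left _ _)
    refine h1.trans ?_
    rw [← Finset.prod_image (s := Icc 1 a) (g := fun i => i * P.natDegree)
      (f := fun i => (X ^ Fintype.card F ^ i - X : F[X]))
      (fun x _ y _ h => Nat.eq_of_mul_eq_mul_right he h)]
    refine Finset.prod_dvd_prod_of_subset _ _ _ fun i hi => ?_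
    obtain ⟨x, hx, rfl⟩ := mem_image.1 hi
    obtain ⟨h2, h3⟩ := mem_Icc.1 hx
    exact mem_Icc.2 ⟨Nat.mul_pos h2 he, (Nat.mul_le_mul_right _ h3).trans hd⟩
  | @hcp x y hxy IHx IHy =>
    have hx := left_ne_zero_of_mul hc
    have hy := right_ne_zero_of_mul hc
    rw [natDegree_mul hx hy] at hd
    exact hxy.mul_dvd (IHx hx (by omega)) (IHy hy (by omega))

theorem exists_step (c : ℕ → ℕ) (hc : ∀ m, m < c m) {K : ℕ} (hK : c 1 ≤ K) :
    ∃ m, 1 ≤ m ∧ c m ≤ K ∧ K < c (m + 1) := by
  classical
  have h : ∃ m, K < c (m + 1 + 1) := ⟨K, by have := hc (K + 1 + 1); omega⟩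
  refine ⟨Nat.find h + 1, by omega, ?_, Nat.find_spec h⟩
  rcases Nat.eq_zero_or_pos (Nat.find h) with h0 | h0
  · rw [h0]; exact hK
  · have := Nat.find_min h (m := Nat.find h - 1) (by omega)
    rw [Nat.sub_add_cancel h0] at this
    exact not_lt.1 this

variable {p : ℕ} [Fact p.Prime] [CharP F p]

theorem gap_core {r m : ℕ} {s : F[X]} (hs : s.Monic) (hm1 : 1 ≤ m) (hm : m < s.natDegree)
    (hA : carl F ((r + 1 + 8 * p * m) / 2) ∣ s)
    (hB : ∀ g : F[X], g.Monic → g.natDegree = r + 1 + 8 * p * m →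
      X ^ r * derivative g - derivative (X ^ r) * g ∣ s ^ 2) :
    (X ^ r * s ^ (8 * p) + X ^ (r + 1 + 8 * p * m)).Monic ∧
    (X ^ r * s ^ (8 * p) + X ^ (r + 1 + 8 * p * m)).natDegree = r + 8 * p * s.natDegree ∧
    r + 1 + 8 * p * m < r + 8 * p * s.natDegree ∧
    ∀ y : F[X], y.degree < (r + 1 + 8 * p * m : ℕ) →
      ¬ Irreducible (X ^ r * s ^ (8 * p) + X ^ (r + 1 + 8 * p * m) + y) := by
  have hp2 := (Fact.out : p.Prime).two_le
  have hlt : r + 1 + 8 * p * m < r + 8 * p * s.natDegree := by nlinarith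
  have hFd₀ : (X ^ r * s ^ (8 * p)).natDegree = r + 8 * p * s.natDegree := by
    rw [(monic_X_pow r).natDegree_mul (hs.pow _), natDegree_X_pow, hs.natDegree_pow]
  have hF : ∀ g : F[X], g.natDegree = r + 1 + 8 * p * m → (X ^ r * s ^ (8 * p) + g).Monic ∧
      (X ^ r * s ^ (8 * p) + g).natDegree = r + 8 * p * s.natDegree := fun g hg =>
    ⟨((monic_X_pow r).mul (hs.pow _)).add_of_left (degree_lt_degree (by omega)),
      by rw [natDegree_add_eq_left_of_natDegree_lt (by omega), hFd₀]⟩
  refine ⟨(hF _ (natDegree_X_pow _)).1, (hF _ (natDegree_X_pow _)).2, hlt, fun y hy hirr => ?_⟩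
  obtain ⟨hg, hd⟩ := monic_add_LT ⟨y, mem_degreeLT.2 hy⟩
  simp only at hg hd
  rw [add_assoc] at hirr
  generalize X ^ (r + 1 + 8 * p * m) + y = g at hg hd hirr
  have h2 : 2 ≤ g.natDegree := by nlinarith
  by_cases hgi : Irreducible g
  · have := liou_flip hs hg (PerfectField.separable_of_irreducible hgi)
      (hgi.coprime_iff_not_dvd.2 fun h => by
        have := natDegree_le_of_dvd h X_ne_zero
        rw [natDegree_X] at this
        omega) hd hm (hB g hg hd)
    unfold liou at this
    rw [UniqueFactorizationMonoid.card_factors_of_irreducible hgi,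
      UniqueFactorizationMonoid.card_factors_of_irreducible hirr] at this
    norm_num at this
  · rw [hg.irreducible_iff_lt_natDegree_lt (fun h => by rw [h, natDegree_one] at h2; omega)] at hgi
    push Not at hgi
    obtain ⟨c, hc, hcd, hcg⟩ := hgi
    obtain ⟨h3, h4⟩ := hF g hd
    rw [h3.irreducible_iff_lt_natDegree_lt (fun h => by rw [h, natDegree_one] at h4; omega)] at hirr
    rw [mem_Ioc, hd] at hcd
    refine hirr c hc (mem_Ioc.2 ⟨hcd.1, by omega⟩) (dvd_add ?_ hcg)
    exact (((dvd_carl c hc.ne_zero hcd.2).trans hA).trans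
      (dvd_pow_self s (by omega))).mul_left _

theorem gap_of_modulus (c : ℕ → ℕ) (hc : ∀ m, m < c m)
    (hM : ∀ r m : ℕ, r < 8 * p → 1 ≤ m → ∃ M : F[X], M.Monic ∧ M.natDegree ≤ c m ∧
      carl F ((r + 1 + 8 * p * m) / 2) ∣ M ∧
      ∀ g : F[X], g.Monic → g.natDegree = r + 1 + 8 * p * m →
        X ^ r * derivative g - derivative (X ^ r) * g ∣ M ^ 2) :
    ∀ᶠ n : ℕ in atTop, ∃ (f : F[X]) (h m : ℕ), f.Monic ∧ f.natDegree = n ∧ h < n ∧ 1 ≤ m ∧
      8 * p * m ≤ h ∧ c m ≤ n ∧ n ≤ 8 * p * c (m + 1) ∧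
      ∀ y : F[X], y.degree < h → ¬ Irreducible (f + y) := by
  have hp2 := (Fact.out : p.Prime).two_le
  filter_upwards [eventually_ge_atTop (8 * p * c 1)] with n hn
  have hK : c 1 ≤ n / (8 * p) := (Nat.le_div_iff_mul_le (by omega)).2 (by rw [mul_comm]; exact hn)
  obtain ⟨m, hm1, hm2, hm3⟩ := exists_step c hc hK
  have hr : n % (8 * p) < 8 * p := Nat.mod_lt _ (by omega)
  have hnn := Nat.mod_add_div n (8 * p)
  have hle := Nat.div_le_self n (8 * p)
  generalize n % (8 * p) = r at hr hnn
  generalize n / (8 * p) = K at hK hm2 hm3 hnn hle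
  obtain ⟨M, hM₁, hM₂, hM₃, hM₄⟩ := hM r m hr hm1
  have hs : (X ^ (K - M.natDegree) * M).Monic := (monic_X_pow _).mul hM₁
  have hsd : (X ^ (K - M.natDegree) * M).natDegree = K := by
    rw [(monic_X_pow _).natDegree_mul hM₁, natDegree_X_pow]
    omega
  obtain ⟨h1, h2, h3, h4⟩ := gap_core (p := p) (r := r) hs hm1 (by have := hc m; omega)
    (hM₃.mul_left _)
    fun g hg hd => (hM₄ g hg hd).trans (pow_dvd_pow_of_dvd (dvd_mul_left _ _) 2)
  rw [hsd, hnn] at h2 h3
  refine ⟨_, _, m, h1, h2, h3, hm1, by omega, by omega, ?_, h4⟩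
  nlinarith

omit [Fintype F] [Fact p.Prime] in
theorem wr_ne_zero {r m : ℕ} {g : F[X]} (hg : g.Monic) (hd : g.natDegree = r + 1 + 8 * p * m) :
    (X ^ r * derivative g - derivative (X ^ r) * g).Monic ∧
      (X ^ r * derivative g - derivative (X ^ r) * g).natDegree = r + (r + 8 * p * m) :=
  monic_wr hg hd (by simp [CharP.cast_eq_zero F p])

theorem gap_two [CharP F 2] : ∀ᶠ n : ℕ in atTop, ∃ (f : F[X]) (h : ℕ), f.Monic ∧ f.natDegree = n ∧
    h < n ∧ n ^ 2 ≤ 256 * Fintype.card F ^ 50 * Fintype.card F ^ h ∧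
      ∀ y : F[X], y.degree < h → ¬ Irreducible (f + y) := by
  have hq : 1 < Fintype.card F := Fintype.one_lt_card
  have := gap_of_modulus (F := F) (p := 2) (fun m => Fintype.card F ^ (8 * m + 17))
    (fun m => (by omega : m < 8 * m + 17).trans (Nat.lt_pow_self hq)) (fun r m hr hm => by
      refine ⟨carl F (8 * m + 16), monic_carl _, natDegree_carl _,
        Finset.prod_dvd_prod_of_subset _ _ _ (Icc_subset_Icc_right (by omega)), fun g hg hd => ?_⟩
      obtain ⟨h1, h2⟩ := wr_ne_zero (p := 2) hg hd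
      obtain ⟨a, b, hab⟩ := exists_sq_add (X ^ r * g)
      have h3 := congrArg derivative hab
      rw [derivative_odd, derivative_mul, add_comm, ← CharTwo.sub_eq_add] at h3
      rw [h3] at h1 h2 ⊢
      rw [natDegree_pow] at h2
      exact pow_dvd_pow_of_dvd (dvd_carl b (fun h => h1.ne_zero (by simp [h])) (by omega)) 2)
  filter_upwards [this] with n ⟨f, h, m, h1, h2, h3, _, h5, _, h7, h8⟩
  refine ⟨f, h, h1, h2, h3, (Nat.pow_le_pow_left h7 2).trans ?_, h8⟩
  rw [mul_pow, ← pow_mul, mul_assoc, ← pow_add]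
  exact Nat.mul_le_mul (by norm_num) (Nat.pow_le_pow_right hq.le (by omega))

theorem card_wr_le (r m : ℕ) [DecidableEq F] :
    ((monF F (r + 1 + 8 * p * m)).image fun g =>
      X ^ r * derivative g - derivative (X ^ r) * g).card ≤
      Fintype.card F ^ (r + 1 + 8 * (p - 1) * m) := by
  have hp := (Fact.out : p.Prime).pos
  set W := (monF F (r + 1 + 8 * p * m)).image fun g =>
    X ^ r * derivative g - derivative (X ^ r) * g with hW
  have hex : ∀ w : W, ∃ g ∈ monF F (r + 1 + 8 * p * m),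
      X ^ r * derivative g - derivative (X ^ r) * g = w.1 := fun w => mem_image.1 w.2
  choose γ hγ hγ' using hex
  have hw : ∀ (w : W) (y : F[X]), X ^ r * derivative (γ w + X ^ r * expand F p y) -
      derivative (X ^ r) * (γ w + X ^ r * expand F p y) = w.1 := by
    intro w y
    rw [← hγ' w, derivative_add, derivative_mul, derivative_expand, CharP.cast_eq_zero]
    ring
  have h1 : ((univ : Finset W) ×ˢ ltF F (8 * m)).card ≤ (monF F (r + 1 + 8 * p * m)).card := by
    refine Finset.card_le_card_of_injOn (fun z => γ z.1 + X ^ r * expand F p z.2) ?_ ?_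
    · rintro ⟨w, y⟩ hz
      have hy : y.degree < (8 * m : ℕ) := mem_ltF.1 (mem_product.1 hz).2
      obtain ⟨h2, h3⟩ := mem_monF.1 (hγ w)
      have h4 : (X ^ r * expand F p y).natDegree < (γ w).natDegree := by
        refine natDegree_mul_le.trans_lt ?_
        rw [natDegree_X_pow, natDegree_expand, h3]
        have : y.natDegree ≤ 8 * m := natDegree_le_of_degree_le hy.le
        nlinarith
      exact mem_monF.2 ⟨h2.add_of_left (degree_lt_degree h4),
        by rw [natDegree_add_eq_left_of_natDegree_lt h4, h3]⟩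
    · rintro ⟨w, y⟩ - ⟨w', y'⟩ - e
      simp only at e
      have h2 : w = w' := Subtype.ext (by rw [← hw w y, ← hw w' y', e])
      subst h2
      rw [expand_injective hp (mul_left_cancel₀ (pow_ne_zero r X_ne_zero) (add_left_cancel e))]
  rw [card_product, card_univ, Fintype.card_coe, card_ltF, card_monF,
    show r + 1 + 8 * p * m = r + 1 + 8 * (p - 1) * m + 8 * m by
      obtain ⟨k, rfl⟩ := Nat.exists_eq_succ_of_ne_zero hp.ne'
      simp only [Nat.succ_eq_add_one, Nat.add_sub_cancel]
      ring, pow_add] at h1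
  exact Nat.le_of_mul_le_mul_right h1 (pow_pos Fintype.card_pos _)

theorem gap_all : ∃ c : ℝ, 0 < c ∧ ∀ᶠ n : ℕ in atTop, ∃ (f : F[X]) (h : ℕ), f.Monic ∧
    f.natDegree = n ∧ h < n ∧
    c * ((n : ℝ) / Real.log n) ^ p ≤ ((Fintype.card F : ℝ) ^ h) ^ (p - 1) ∧
      ∀ y : F[X], y.degree < h → ¬ Irreducible (f + y) := by
  classical
  have hq : 1 < Fintype.card F := Fintype.one_lt_card
  have hp2 := (Fact.out : p.Prime).two_le
  obtain ⟨k, hk⟩ : ∃ k, p = k + 2 := ⟨p - 2, by omega⟩
  have := gap_of_modulus (F := F) (p := p)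
    (fun m => 25 * p * m * Fintype.card F ^ (8 * p + 8 * (p - 1) * m) + 1)
    (fun m => by
      have := pow_pos (zero_lt_one.trans hq) (8 * p + 8 * (p - 1) * m)
      have : m ≤ 25 * p * m * Fintype.card F ^ (8 * p + 8 * (p - 1) * m) := by
        rw [mul_right_comm]
        exact Nat.le_mul_of_pos_left _ (by positivity)
      omega)
    (fun r m hr hm => by
      set W := (monF F (r + 1 + 8 * p * m)).image fun g =>
        X ^ r * derivative g - derivative (X ^ r) * g with hW
      have hWm : ∀ w ∈ W, w.Monic ∧ w.natDegree = r + (r + 8 * p * m) := by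
        intro w hw
        obtain ⟨g, hg, rfl⟩ := mem_image.1 hw
        exact wr_ne_zero (mem_monF.1 hg).1 (mem_monF.1 hg).2
      refine ⟨carl F ((r + 1 + 8 * p * m) / 2) * ∏ w ∈ W, w,
        (monic_carl _).mul (monic_prod_of_monic _ _ fun w hw => (hWm w hw).1), ?_,
        dvd_mul_right _ _, fun g hg hd => ?_⟩
      · refine natDegree_mul_le.trans ?_
        have h1 : (carl F ((r + 1 + 8 * p * m) / 2)).natDegree ≤
            Fintype.card F ^ (8 * p + 8 * (p - 1) * m) := by
          refine (natDegree_carl _).trans (Nat.pow_le_pow_right hq.le ?_)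
          subst hk
          simp only [show k + 2 - 1 = k + 1 from rfl]
          have : (r + 1 + 8 * (k + 2) * m) / 2 ≤ 4 * (k + 2) + 4 * (k + 2) * m :=
            Nat.div_le_of_le_mul (by nlinarith)
          nlinarith
        have h2 : (∏ w ∈ W, w).natDegree ≤
            Fintype.card F ^ (8 * p + 8 * (p - 1) * m) * (24 * p * m) := by
          refine (natDegree_prod_le _ _).trans ((Finset.sum_le_card_nsmul _ _ (24 * p * m)
            fun w hw => ?_).trans ?_)
          · rw [(hWm w hw).2]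
            nlinarith
          · rw [smul_eq_mul]
            exact Nat.mul_le_mul_right _ ((card_wr_le r m).trans
              (Nat.pow_le_pow_right hq.le (by omega)))
        have h3 : 1 ≤ p * m := Nat.mul_pos (by omega) hm
        nlinarith
      · exact ((Finset.dvd_prod_of_mem (fun w => w) (mem_image_of_mem _
          (mem_monF.2 ⟨hg, hd⟩))).mul_left _).trans (dvd_pow_self _ two_ne_zero))
  set q : ℝ := (Fintype.card F : ℝ) with hqdef
  have hq2 : (2 : ℝ) ≤ q := two_le_card
  set A : ℝ := 8 * p * (51 * p) * q ^ (16 * p) / Real.log 2 with hA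
  have hl2 := Real.log_pos one_lt_two
  have hA0 : 0 < A := by positivity
  refine ⟨1 / A ^ p, by positivity, ?_⟩
  filter_upwards [this] with n ⟨f, h, m, h1, h2, h3, h4, h5, h6, h7, h8⟩
  refine ⟨f, h, h1, h2, h3, ?_, h8⟩
  have h9 : 2 ^ m ≤ n := by
    refine le_trans ?_ ((Nat.le_succ _).trans h6)
    refine le_trans ?_ (Nat.le_mul_of_pos_left _ (by positivity))
    refine (Nat.pow_le_pow_left hq m).trans (Nat.pow_le_pow_right hq.le ?_)
    subst hk
    simp only [show k + 2 - 1 = k + 1 from rfl]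
    nlinarith
  have h10 : m * Real.log 2 ≤ Real.log n := by
    rw [← Real.log_pow]
    exact Real.log_le_log (by positivity) (by exact_mod_cast h9)
  have hm : (1 : ℝ) ≤ m := by exact_mod_cast h4
  have h11 : n ≤ 8 * p * (51 * p) * m *
      (Fintype.card F ^ (16 * p) * Fintype.card F ^ (8 * (p - 1) * m)) := by
    refine h7.trans ?_
    rw [← pow_add, mul_assoc (8 * p), mul_assoc (8 * p)]
    refine Nat.mul_le_mul_left _ ?_
    have h12 : Fintype.card F ^ (8 * p + 8 * (p - 1) * (m + 1)) ≤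
        Fintype.card F ^ (16 * p + 8 * (p - 1) * m) := by
      refine Nat.pow_le_pow_right hq.le ?_
      subst hk
      simp only [show k + 2 - 1 = k + 1 from rfl]
      nlinarith
    have h13 := pow_pos (zero_lt_one.trans hq) (16 * p + 8 * (p - 1) * m)
    have h14 : 1 ≤ p * m := Nat.mul_pos (by omega) h4
    have h15 : 25 * p * (m + 1) ≤ 50 * p * m := by nlinarith
    have h16 := Nat.mul_le_mul h15 h12
    nlinarith
  have h12 : (n : ℝ) / Real.log n ≤ A * q ^ (8 * (p - 1) * m) := by
    have h13 : (n : ℝ) ≤ 8 * p * (51 * p) * m * (q ^ (16 * p) * q ^ (8 * (p - 1) * m)) := by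
      rw [hqdef]; exact_mod_cast h11
    have h14 : 0 < m * Real.log 2 := by positivity
    refine (div_le_div₀ (by positivity) h13 h14 h10).trans_eq ?_
    rw [hA]
    field_simp
  have h13 : 0 ≤ (n : ℝ) / Real.log n := div_nonneg (Nat.cast_nonneg _) (Real.log_natCast_nonneg n)
  rw [one_div, inv_mul_le_iff₀ (by positivity)]
  refine (pow_le_pow_left₀ h13 h12 p).trans ?_
  rw [mul_pow, ← pow_mul, ← pow_mul]
  refine mul_le_mul_of_nonneg_left (pow_le_pow_right₀ (by linarith) ?_) (by positivity)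
  calc 8 * (p - 1) * m * p = 8 * p * m * (p - 1) := by ring
    _ ≤ h * (p - 1) := Nat.mul_le_mul_right _ h5

end Pool.Agent.MP_c853c5_nt
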