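import Mathlib
import Pool.Agent.Mg.F43e117.G723cb3

set_option autoImplicit false

namespace Pool.Agent.MP_c853c5_nt.KeptConstant

open Polynomial

/-- Over a finite field of characteristic two with `q` elements, for infinitely many degrees `n`
there is an interval of size at least `q * n ^ 2 / 1024` containing no irreducible polynomial. -/
theorem kept (F : Type) [Field F] [Fintype F] [CharP F 2] :
    ∃ᶠ n : ℕ in Filter.atTop, ∃ (f : F[X]) (h : ℕ),
      f.Monic ∧ f.natDegree = n ∧ h < n ∧ Fintype.card F * n ^ 2 ≤ 1024 * Fintype.card F ^ h ∧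
        ∀ y : F[X], y.degree < h → ¬ Irreducible (f + y) :=
  Pool.Agent.MP_c853c5_nt.gap_two_const

end Pool.Agent.MP_c853c5_nt.KeptConstant
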